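import Mathlib

set_option autoImplicit false

open MeasureTheory Metric Real

/-!
# The circle inequality

For `g` analytic on `|w| ≤ ρ`, `c, t, σ ≥ 0`:
`2 t (ρ |g'(0)| + 2 c |g(0)| - σ (1 + c²)) - t² (1 + 4 c² + c⁴)` is at most the average of
`((|g| - σ)₊)²` over `|w| = ρ`.
-/

namespace Pool.Agent.Helper65.ET

lemma exists_phase (a b : ℂ) : ∃ u : ℂ, ‖u‖ = 1 ∧ ‖a + u * b‖ = ‖a‖ + ‖b‖ := by
  by_cases ha : a = 0
  · exact ⟨1, by simp, by simp [ha]⟩
  by_cases hb : b = 0
  · exact ⟨1, by simp, by simp [hb]⟩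
  have ha' : (‖a‖ : ℂ) ≠ 0 := by exact_mod_cast (norm_ne_zero_iff.mpr ha)
  have hb' : (‖b‖ : ℂ) ≠ 0 := by exact_mod_cast (norm_ne_zero_iff.mpr hb)
  refine ⟨(a / ‖a‖) * (‖b‖ / b), ?_, ?_⟩
  · rw [norm_mul, norm_div, norm_div, Complex.norm_real, Complex.norm_real, norm_norm, norm_norm,
      div_self (norm_ne_zero_iff.mpr ha), div_self (norm_ne_zero_iff.mpr hb), one_mul]
  · have : a + a / ‖a‖ * (‖b‖ / b) * b = (a / ‖a‖) * ((‖a‖ + ‖b‖ : ℝ) : ℂ) := by
      push_cast
      field_simp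
    rw [this, norm_mul, norm_div, Complex.norm_real, norm_norm, Complex.norm_real,
      div_self (norm_ne_zero_iff.mpr ha), one_mul, Real.norm_of_nonneg (by positivity)]

/-- the weight `|1 + c u e^{iφ}|²` for `u = a + b i` -/
noncomputable def wt (c a b φ : ℝ) : ℝ := 1 + c ^ 2 + 2 * c * (a * cos φ - b * sin φ)

lemma wt_continuous (c a b : ℝ) : Continuous (wt c a b) := by
  unfold wt; fun_prop

lemma norm_sq_eq_wt (c : ℝ) (u : ℂ) (hu : ‖u‖ = 1) (φ : ℝ) :
    ‖1 + c * u * Complex.exp (φ * Complex.I)‖ ^ 2 = wt c u.re u.im φ := by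
  have h1 : u.re ^ 2 + u.im ^ 2 = 1 := by
    have := Complex.sq_norm u
    rw [hu, Complex.normSq_apply] at this
    nlinarith
  rw [Complex.sq_norm, Complex.normSq_apply]
  simp only [Complex.add_re, Complex.one_re, Complex.mul_re, Complex.ofReal_re, Complex.ofReal_im,
    Complex.mul_im, Complex.exp_ofReal_mul_I_re, Complex.exp_ofReal_mul_I_im, Complex.add_im,
    Complex.one_im]
  unfold wt
  have h2 := Real.sin_sq_add_cos_sq φ
  linear_combination (c ^ 2 * (Real.sin φ ^ 2 + Real.cos φ ^ 2)) * h1 + c ^ 2 * h2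

lemma integral_wt (c a b : ℝ) : ∫ φ in (0 : ℝ)..2 * π, wt c a b φ = 2 * π * (1 + c ^ 2) := by
  unfold wt
  rw [intervalIntegral.integral_add (by apply Continuous.intervalIntegrable; fun_prop)
      (by apply Continuous.intervalIntegrable; fun_prop),
    intervalIntegral.integral_const_mul, intervalIntegral.integral_sub
      (by apply Continuous.intervalIntegrable; fun_prop)
      (by apply Continuous.intervalIntegrable; fun_prop),
    intervalIntegral.integral_const_mul, intervalIntegral.integral_const_mul, integral_cos,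
    integral_sin]
  simp
  ring

lemma integral_wt_sq (c a b : ℝ) (hab : a ^ 2 + b ^ 2 = 1) :
    ∫ φ in (0 : ℝ)..2 * π, wt c a b φ ^ 2 = 2 * π * (1 + 4 * c ^ 2 + c ^ 4) := by
  have e : ∀ φ, wt c a b φ ^ 2 = (1 + c ^ 2) ^ 2 + (4 * c * (1 + c ^ 2) * a) * cos φ +
      (-(4 * c * (1 + c ^ 2) * b)) * sin φ + (4 * c ^ 2 * a ^ 2) * cos φ ^ 2 +
      (4 * c ^ 2 * b ^ 2) * sin φ ^ 2 + (-(8 * c ^ 2 * a * b)) * (sin φ * cos φ) := by
    intro φ; unfold wt; ring
  simp_rw [e]
  rw [intervalIntegral.integral_add (by apply Continuous.intervalIntegrable; fun_prop)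
      (by apply Continuous.intervalIntegrable; fun_prop),
    intervalIntegral.integral_add (by apply Continuous.intervalIntegrable; fun_prop)
      (by apply Continuous.intervalIntegrable; fun_prop),
    intervalIntegral.integral_add (by apply Continuous.intervalIntegrable; fun_prop)
      (by apply Continuous.intervalIntegrable; fun_prop),
    intervalIntegral.integral_add (by apply Continuous.intervalIntegrable; fun_prop)
      (by apply Continuous.intervalIntegrable; fun_prop),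
    intervalIntegral.integral_add (by apply Continuous.intervalIntegrable; fun_prop)
      (by apply Continuous.intervalIntegrable; fun_prop),
    intervalIntegral.integral_const_mul, intervalIntegral.integral_const_mul,
    intervalIntegral.integral_const_mul, intervalIntegral.integral_const_mul,
    intervalIntegral.integral_const_mul, integral_cos, integral_sin, integral_cos_sq,
    integral_sin_sq, integral_sin_mul_cos₁]
  simp
  have : a ^ 2 * (2 * π) + b ^ 2 * (2 * π) = 2 * π := by rw [← add_mul, hab, one_mul]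
  nlinarith [this]

theorem circle_ineq (g : ℂ → ℂ) (ρ σ c t : ℝ) (hρ : 0 < ρ) (hc : 0 ≤ c)
    (ht : 0 ≤ t) (hg : DifferentiableOn ℂ g (closedBall 0 ρ)) :
    2 * t * (ρ * ‖deriv g 0‖ + 2 * c * ‖g 0‖ - σ * (1 + c ^ 2)) - t ^ 2 * (1 + 4 * c ^ 2 + c ^ 4)
      ≤ (2 * π)⁻¹ * ∫ φ in (0 : ℝ)..2 * π, (max 0 (‖g (circleMap 0 ρ φ)‖ - σ)) ^ 2 := by
  obtain ⟨u, hu, hu2⟩ := exists_phase (deriv g 0) (((2 * c / ρ : ℝ) : ℂ) * g 0)
  have hab : u.re ^ 2 + u.im ^ 2 = 1 := by
    have := Complex.sq_norm u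
    rw [hu, Complex.normSq_apply] at this
    nlinarith
  set f : ℂ → ℂ := fun w => g w * (1 + ((c / ρ : ℝ) : ℂ) * u * w) ^ 2 with hf
  have hfd : DifferentiableOn ℂ f (closedBall 0 ρ) := by
    apply hg.mul; fun_prop
  have hg0 : DifferentiableAt ℂ g 0 := hg.differentiableAt (closedBall_mem_nhds _ hρ)
  have hderiv : deriv f 0 = deriv g 0 + u * (((2 * c / ρ : ℝ) : ℂ) * g 0) := by
    have h1 : HasDerivAt (fun w : ℂ => (1 + ((c / ρ : ℝ) : ℂ) * u * w) ^ 2)
        (2 * (((c / ρ : ℝ) : ℂ) * u)) 0 := by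
      have h2 : HasDerivAt (fun w : ℂ => 1 + ((c / ρ : ℝ) : ℂ) * u * w)
          (((c / ρ : ℝ) : ℂ) * u) 0 := by
        simpa using ((hasDerivAt_id (0 : ℂ)).const_mul (((c / ρ : ℝ) : ℂ) * u)).const_add 1
      have h3 := h2.fun_pow 2
      simpa using h3
    have h4 := (hg0.hasDerivAt.mul h1).deriv
    rw [hf]
    rw [show (fun w => g w * (1 + ((c / ρ : ℝ) : ℂ) * u * w) ^ 2) =
      g * (fun w : ℂ => (1 + ((c / ρ : ℝ) : ℂ) * u * w) ^ 2) from rfl, h4]
    simp
    ring
  have hcirc := DifferentiableOn.deriv_eq_smul_circleIntegral (c := (0 : ℂ)) (R := ρ) hρ hfd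
  have hnorm : 2 * π * ‖deriv f 0‖ ≤
      ∫ φ in (0 : ℝ)..2 * π, ρ⁻¹ * (‖g (circleMap 0 ρ φ)‖ * wt c u.re u.im φ) := by
    have h1 : ‖(2 * π * Complex.I : ℂ) • deriv f 0‖ = 2 * π * ‖deriv f 0‖ := by
      rw [norm_smul]; simp [abs_of_pos Real.pi_pos]
    rw [← h1, ← hcirc, circleIntegral]
    refine (intervalIntegral.norm_integral_le_integral_norm (by positivity)).trans (le_of_eq ?_)
    apply intervalIntegral.integral_congr
    intro φ _
    simp only [sub_zero, norm_smul, deriv_circleMap, norm_mul, Complex.norm_I, mul_one, norm_div,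
      norm_one, norm_pow, circleMap_zero, Complex.norm_real, Complex.norm_exp_ofReal_mul_I, hf,
      Real.norm_of_nonneg hρ.le]
    have h2 : 1 + ((c / ρ : ℝ) : ℂ) * u * (ρ * Complex.exp (φ * Complex.I)) =
        1 + c * u * Complex.exp (φ * Complex.I) := by
      have : (ρ : ℂ) ≠ 0 := by exact_mod_cast hρ.ne'
      push_cast
      field_simp
    rw [h2, norm_sq_eq_wt c u hu φ]
    field_simp
  rw [hderiv, hu2, norm_mul, Complex.norm_real, Real.norm_of_nonneg (by positivity),
    intervalIntegral.integral_const_mul] at hnorm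
  have hgc : Continuous (fun φ : ℝ => ‖g (circleMap 0 ρ φ)‖) := by
    apply Continuous.norm
    apply hg.continuousOn.comp_continuous (continuous_circleMap 0 ρ)
    intro φ
    exact sphere_subset_closedBall (circleMap_mem_sphere 0 hρ.le φ)
  -- pointwise
  have hmono : ∫ φ in (0 : ℝ)..2 * π, 2 * t * (‖g (circleMap 0 ρ φ)‖ * wt c u.re u.im φ) -
        2 * t * σ * wt c u.re u.im φ - t ^ 2 * wt c u.re u.im φ ^ 2 ≤
      ∫ φ in (0 : ℝ)..2 * π, (max 0 (‖g (circleMap 0 ρ φ)‖ - σ)) ^ 2 := by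
    have hw := wt_continuous c u.re u.im
    apply intervalIntegral.integral_mono_on (by positivity)
    · apply Continuous.intervalIntegrable; fun_prop
    · apply Continuous.intervalIntegrable; fun_prop
    · intro φ _
      have hw0 : 0 ≤ wt c u.re u.im φ := by rw [← norm_sq_eq_wt c u hu φ]; positivity
      have h1 : ‖g (circleMap 0 ρ φ)‖ - σ ≤ max 0 (‖g (circleMap 0 ρ φ)‖ - σ) := le_max_right _ _
      have h2 : 2 * t * wt c u.re u.im φ * (‖g (circleMap 0 ρ φ)‖ - σ) ≤
          2 * t * wt c u.re u.im φ * max 0 (‖g (circleMap 0 ρ φ)‖ - σ) := by gcongr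
      nlinarith [sq_nonneg (max 0 (‖g (circleMap 0 ρ φ)‖ - σ) - t * wt c u.re u.im φ)]
  have hw := wt_continuous c u.re u.im
  rw [intervalIntegral.integral_sub (by apply Continuous.intervalIntegrable; fun_prop)
      (by apply Continuous.intervalIntegrable; fun_prop),
    intervalIntegral.integral_sub (by apply Continuous.intervalIntegrable; fun_prop)
      (by apply Continuous.intervalIntegrable; fun_prop),
    intervalIntegral.integral_const_mul, intervalIntegral.integral_const_mul,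
    intervalIntegral.integral_const_mul, integral_wt, integral_wt_sq c _ _ hab] at hmono
  set J := ∫ φ in (0 : ℝ)..2 * π, ‖g (circleMap 0 ρ φ)‖ * wt c u.re u.im φ with hJ
  have h5 : 2 * π * (ρ * ‖deriv g 0‖ + 2 * c * ‖g 0‖) ≤ J := by
    have := mul_le_mul_of_nonneg_left hnorm hρ.le
    rw [← mul_assoc ρ ρ⁻¹, mul_inv_cancel₀ hρ.ne', one_mul] at this
    refine le_trans (le_of_eq ?_) this
    field_simp
  have h6 : 2 * t * (2 * π * (ρ * ‖deriv g 0‖ + 2 * c * ‖g 0‖)) ≤ 2 * t * J := by gcongr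
  rw [← div_le_iff₀' (by positivity), div_inv_eq_mul]
  linarith

end Pool.Agent.Helper65.ET
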