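import Pool.Agent.Helper65.ET.Flux3
import Pool.Agent.Helper65.ET.Circle

set_option autoImplicit false

open MeasureTheory Metric Real Set

/-!
# The circle inequality in the half plane
-/

namespace Pool.Agent.Helper65.ET

/-- the Cayley map `(1 + w) / (1 - w)` -/
noncomputable def cay (w : ℂ) : ℂ := (1 + w) / (1 - w)

/-- the point of the circle of radius `4/5` -/
noncomputable def cc (φ : ℝ) : ℂ := circleMap 0 (4 / 5) φ

lemma norm_cc (φ : ℝ) : ‖cc φ‖ = 4 / 5 := by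
  unfold cc; rw [norm_circleMap_zero]; norm_num

lemma one_sub_ne {w : ℂ} (hw : ‖w‖ ≤ 4 / 5) : 1 - w ≠ 0 := by
  intro h
  have : w = 1 := by linear_combination -h
  rw [this] at hw
  norm_num at hw

lemma one_sub_re_pos {w : ℂ} (hw : ‖w‖ ≤ 4 / 5) : 0 < (1 - w).re := by
  have := (Complex.abs_re_le_norm w).trans hw
  simp only [Complex.sub_re, Complex.one_re]
  have := (abs_le.mp this).2
  linarith

lemma cay_re {w : ℂ} : (cay w).re = (1 - ‖w‖ ^ 2) / ‖1 - w‖ ^ 2 := by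
  unfold cay
  rw [Complex.div_re, Complex.sq_norm, Complex.sq_norm, ← add_div]
  congr 1
  rw [Complex.normSq_apply]
  simp
  ring

lemma cay_re_pos {w : ℂ} (hw : ‖w‖ ≤ 4 / 5) : 0 < (cay w).re := by
  rw [cay_re]
  have h1 := norm_pos_iff.mpr (one_sub_ne hw)
  have h2 := norm_nonneg w
  have : 0 < 1 - ‖w‖ ^ 2 := by nlinarith
  positivity

lemma cay_re_cc_le (φ : ℝ) : (cay (cc φ)).re ≤ 9 := by
  rw [cay_re, norm_cc]
  have h1 : 1 / 5 ≤ ‖1 - cc φ‖ := by
    have := norm_sub_norm_le (1 : ℂ) (cc φ)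
    rw [norm_one, norm_cc] at this
    linarith
  rw [div_le_iff₀ (by positivity)]
  nlinarith

lemma cay_re_cc_ge (φ : ℝ) : 1 / 9 ≤ (cay (cc φ)).re := by
  rw [cay_re, norm_cc]
  have h1 : ‖1 - cc φ‖ ≤ 9 / 5 := by
    have := norm_sub_le (1 : ℂ) (cc φ)
    rw [norm_one, norm_cc] at this
    linarith
  have h2 : 0 < ‖1 - cc φ‖ := norm_pos_iff.mpr (one_sub_ne (norm_cc φ).le)
  rw [le_div_iff₀ (by positivity)]
  nlinarith

lemma cay_cc_continuous : Continuous (fun φ => cay (cc φ)) := by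
  unfold cay cc
  apply Continuous.div
  · fun_prop
  · fun_prop
  · intro φ; exact one_sub_ne (norm_cc φ).le

lemma cay_hasDerivAt : HasDerivAt cay 2 0 := by
  have h1 : HasDerivAt (fun w : ℂ => 1 + w) 1 0 := (hasDerivAt_id (0 : ℂ)).const_add 1
  have h2 : HasDerivAt (fun w : ℂ => 1 - w) (-1) 0 := (hasDerivAt_id (0 : ℂ)).const_sub 1
  have h3 := h1.div h2 (by simp)
  refine h3.congr_deriv ?_
  norm_num

lemma cay_differentiableOn : DifferentiableOn ℂ cay (closedBall 0 (4 / 5)) := by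
  unfold cay
  apply DifferentiableOn.div (by fun_prop) (by fun_prop)
  intro w hw
  exact one_sub_ne (by simpa using hw)

variable {F F1 F2 : ℂ → ℂ}

/-- the transported function -/
noncomputable def gg (F : ℂ → ℂ) (x y : ℝ) (w : ℂ) : ℂ :=
  ((√√y : ℝ) : ℂ) * (F (y * cay w + x * Complex.I) * (1 - w) ^ (-(1 / 2) : ℂ))

lemma gg_differentiableOn (h : Per F F1 F2) (x : ℝ) {y : ℝ} (hy : 0 < y) :
    DifferentiableOn ℂ (gg F x y) (closedBall 0 (4 / 5)) := by
  unfold gg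
  apply DifferentiableOn.const_mul
  apply DifferentiableOn.mul
  · intro w hw
    have hw' : ‖w‖ ≤ 4 / 5 := by simpa using hw
    have h1 : DifferentiableWithinAt ℂ (fun w => (y : ℂ) * cay w + x * Complex.I)
        (closedBall 0 (4 / 5)) w := ((cay_differentiableOn w hw).const_mul _).add_const _
    have h2 : DifferentiableAt ℂ F (y * cay w + x * Complex.I) := by
      apply (h.d1 _ _).differentiableAt
      simp only [Complex.add_re, Complex.re_ofReal_mul, Complex.I_re, mul_zero,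
        add_zero]
      exact mul_pos hy (cay_re_pos hw')
    exact h2.comp_differentiableWithinAt w h1
  · intro w hw
    have hw' : ‖w‖ ≤ 4 / 5 := by simpa using hw
    apply DifferentiableWithinAt.cpow_const (by fun_prop)
    left
    exact one_sub_re_pos hw'

lemma gg_zero (x y : ℝ) : gg F x y 0 = ((√√y : ℝ) : ℂ) * F (pt x y) := by
  unfold gg cay pt
  simp

lemma deriv_gg_zero (h : Per F F1 F2) (x : ℝ) {y : ℝ} (hy : 0 < y) :
    deriv (gg F x y) 0 = ((√√y : ℝ) : ℂ) * (2 * y * F1 (pt x y) + F (pt x y) / 2) := by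
  have e0 : (y : ℂ) * cay 0 + x * Complex.I = pt x y := by unfold cay pt; simp
  have h1 : HasDerivAt (fun w => (y : ℂ) * cay w + x * Complex.I) (y * 2) 0 :=
    (cay_hasDerivAt.const_mul _).add_const _
  have h2 : HasDerivAt F (F1 (pt x y)) ((y : ℂ) * cay 0 + x * Complex.I) := by
    rw [e0]; exact h.d1 _ (by rw [pt_re]; exact hy)
  have h3 : HasDerivAt (fun w => F ((y : ℂ) * cay w + x * Complex.I)) (F1 (pt x y) * (y * 2)) 0 :=
    HasDerivAt.comp (0 : ℂ) (h₂ := F) (h := fun w => (y : ℂ) * cay w + x * Complex.I) h2 h1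
  have h4 : HasDerivAt (fun w : ℂ => (1 - w) ^ (-(1 / 2) : ℂ)) (1 / 2) 0 := by
    have h5 : HasDerivAt (fun w : ℂ => 1 - w) (-1) 0 := (hasDerivAt_id (0 : ℂ)).const_sub 1
    have h6 := h5.cpow_const (c := (-(1 / 2) : ℂ)) (by simp)
    refine h6.congr_deriv ?_
    simp
  have h7 := ((h3.mul h4).const_mul ((√√y : ℝ) : ℂ)).deriv
  unfold gg
  rw [show (fun w => ((√√y : ℝ) : ℂ) * (F (y * cay w + x * Complex.I) *
    (1 - w) ^ (-(1 / 2) : ℂ))) = fun w => ((√√y : ℝ) : ℂ) *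
      ((fun w => F ((y : ℂ) * cay w + x * Complex.I)) * fun w : ℂ => (1 - w) ^ (-(1 / 2) : ℂ)) w
      from rfl, h7, e0, sub_zero, Complex.one_cpow]
  ring

lemma vv_eq_norm (x y : ℝ) : vv F x y = √y * ‖F (pt x y)‖ ^ 2 := by
  unfold vv; rw [Complex.sq_norm, Complex.normSq_apply]; ring

lemma qq_eq_norm (x y : ℝ) : qq F F1 x y = √y * ‖2 * y * F1 (pt x y) + F (pt x y) / 2‖ ^ 2 := by
  have e1 : (2 * (y : ℂ) * F1 (pt x y) + F (pt x y) / 2).re =
      2 * y * (F1 (pt x y)).re + (F (pt x y)).re / 2 := by simp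
  have e2 : (2 * (y : ℂ) * F1 (pt x y) + F (pt x y) / 2).im =
      2 * y * (F1 (pt x y)).im + (F (pt x y)).im / 2 := by simp
  unfold qq
  rw [Complex.sq_norm, Complex.normSq_apply, e1, e2]
  ring

lemma norm_gg_zero (x y : ℝ) : ‖gg F x y 0‖ = √(vv F x y) := by
  rw [gg_zero, norm_mul, Complex.norm_real, Real.norm_of_nonneg (Real.sqrt_nonneg _), vv_eq_norm,
    Real.sqrt_mul (Real.sqrt_nonneg _), Real.sqrt_sq (norm_nonneg _)]

lemma norm_deriv_gg_zero (h : Per F F1 F2) (x : ℝ) {y : ℝ} (hy : 0 < y) :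
    ‖deriv (gg F x y) 0‖ = √(qq F F1 x y) := by
  rw [deriv_gg_zero h x hy, norm_mul, Complex.norm_real,
    Real.norm_of_nonneg (Real.sqrt_nonneg _), qq_eq_norm,
    Real.sqrt_mul (Real.sqrt_nonneg _), Real.sqrt_sq (norm_nonneg _)]

lemma norm_gg_cc (x : ℝ) {y : ℝ} (hy : 0 < y) (φ : ℝ) :
    √(3 / 5) * ‖gg F x y (cc φ)‖ =
      √(vv F (x + y * (cay (cc φ)).im) (y * (cay (cc φ)).re)) := by
  have hpt : pt (x + y * (cay (cc φ)).im) (y * (cay (cc φ)).re) =
      y * cay (cc φ) + x * Complex.I := by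
    apply Complex.ext
    · simp [pt]
    · simp [pt]; ring
  have h1 : 0 < ‖1 - cc φ‖ := norm_pos_iff.mpr (one_sub_ne (norm_cc φ).le)
  rw [vv_eq_norm, hpt, Real.sqrt_mul (Real.sqrt_nonneg _), Real.sqrt_sq (norm_nonneg _)]
  unfold gg
  rw [norm_mul, norm_mul, Complex.norm_real, Real.norm_of_nonneg (Real.sqrt_nonneg _)]
  have h2 : ‖(1 - cc φ) ^ (-(1 / 2) : ℂ)‖ = (√‖1 - cc φ‖)⁻¹ := by
    have : (-(1 / 2) : ℂ) = ((-(1 / 2) : ℝ) : ℂ) := by push_cast; ring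
    rw [this, Complex.norm_cpow_real, Real.rpow_neg (norm_nonneg _), Real.sqrt_eq_rpow]
  rw [h2, cay_re, norm_cc]
  have h3 : √(y * ((1 - (4 / 5) ^ 2) / ‖1 - cc φ‖ ^ 2)) = √y * (3 / 5) / ‖1 - cc φ‖ := by
    rw [Real.sqrt_mul hy.le, Real.sqrt_div (by norm_num), Real.sqrt_sq h1.le,
      show (1 - (4 / 5 : ℝ) ^ 2) = (3 / 5) ^ 2 by norm_num, Real.sqrt_sq (by norm_num)]
    ring
  have h4 : √(√y * (3 / 5) / ‖1 - cc φ‖) = √√y * √(3 / 5) * (√‖1 - cc φ‖)⁻¹ := by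
    rw [Real.sqrt_div (by positivity), Real.sqrt_mul (Real.sqrt_nonneg _), div_eq_mul_inv]
  rw [h3, h4]
  ring

lemma BB_continuous : Continuous BB := by
  unfold BB; fun_prop

lemma BB_nonneg (v : ℝ) : 0 ≤ BB v := by unfold BB; positivity

/-- the circle average of `B(v)` -/
noncomputable def cavg (F : ℂ → ℂ) (x y : ℝ) : ℝ :=
  (2 * π)⁻¹ * ∫ φ in (0 : ℝ)..2 * π,
    BB (vv F (x + y * (cay (cc φ)).im) (y * (cay (cc φ)).re))

lemma cavg_nonneg (x y : ℝ) : 0 ≤ cavg F x y := by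
  unfold cavg
  apply mul_nonneg (by positivity)
  apply intervalIntegral.integral_nonneg (by positivity)
  intro φ _; exact BB_nonneg _

theorem cavg_ineq (h : Per F F1 F2) (x : ℝ) {y : ℝ} (hy : 0 < y) (c t : ℝ) (hc : 0 ≤ c)
    (ht : 0 ≤ t) :
    2 * t * (√(48 / 125) * √(qq F F1 x y) + 2 * c * √(3 / 5) * √(vv F x y) - (1 + c ^ 2)) -
      t ^ 2 * (1 + 4 * c ^ 2 + c ^ 4) ≤ cavg F x y := by
  have hk : (0 : ℝ) < √(3 / 5) := by positivity
  have hk2 : √(3 / 5 : ℝ) ^ 2 = 3 / 5 := Real.sq_sqrt (by norm_num)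
  have h1 := circle_ineq (gg F x y) (4 / 5) (1 / √(3 / 5)) c (t / √(3 / 5)) (by norm_num) hc
    (by positivity) (gg_differentiableOn h x hy)
  rw [norm_gg_zero, norm_deriv_gg_zero h x hy] at h1
  have e48 : √(48 / 125 : ℝ) = 4 / 5 * √(3 / 5) := by
    rw [show (48 / 125 : ℝ) = (4 / 5) ^ 2 * (3 / 5) by norm_num, Real.sqrt_mul (by norm_num),
      Real.sqrt_sq (by norm_num)]
  have h2 : 3 / 5 * ((2 * π)⁻¹ * ∫ φ in (0 : ℝ)..2 * π,
      (max 0 (‖gg F x y (circleMap 0 (4 / 5) φ)‖ - 1 / √(3 / 5))) ^ 2) = cavg F x y := by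
    unfold cavg
    rw [← mul_assoc, mul_comm (3 / 5 : ℝ), mul_assoc, ← intervalIntegral.integral_const_mul]
    congr 1
    apply intervalIntegral.integral_congr
    intro φ _
    simp only
    unfold BB
    rw [← norm_gg_cc x hy φ]
    have h3 : √(3 / 5) * ‖gg F x y (cc φ)‖ - 1 =
        √(3 / 5) * (‖gg F x y (circleMap 0 (4 / 5) φ)‖ - 1 / √(3 / 5)) := by
      rw [mul_sub, mul_one_div, div_self hk.ne']; rfl
    have h4 : max 0 (√(3 / 5) * (‖gg F x y (circleMap 0 (4 / 5) φ)‖ - 1 / √(3 / 5))) =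
        √(3 / 5) * max 0 (‖gg F x y (circleMap 0 (4 / 5) φ)‖ - 1 / √(3 / 5)) := by
      rw [mul_max_of_nonneg _ _ hk.le, mul_zero]
    rw [h3, h4, mul_pow, hk2]
  rw [← h2]
  refine le_trans (le_of_eq ?_) (mul_le_mul_of_nonneg_left h1 (by norm_num : (0 : ℝ) ≤ 3 / 5))
  rw [e48]
  field_simp
  rw [hk2]
  ring

/-- the certificate at a point of the half plane -/
theorem point_ineq (h : Per F F1 F2) (x : ℝ) {y : ℝ} (hy : 0 < y) :
    0 ≤ vv F x y ^ 2 - 2 * vv F x y + 931 / 1000 - 22 / 5 * BB (vv F x y) +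
      22 / 5 * cavg F x y + flux F F1 x y := by
  have := cert (vv F x y) (qq F F1 x y) (cavg F x y) (vv_nonneg _ _ _) (qq_nonneg _ _ _ _)
    (cavg_nonneg x y) (fun c t hc ht => cavg_ineq h x hy c t hc ht)
  unfold flux
  linarith

end Pool.Agent.Helper65.ET
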