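import Pool.Agent.Helper65.ET.Avg

set_option autoImplicit false

open MeasureTheory Metric Real Set

/-!
# The analytic inequality
-/

namespace Pool.Agent.Helper65.ET

variable {F F1 F2 : ℂ → ℂ}

lemma cont_cavg (h : Per F F1 F2) {X : Type*} [TopologicalSpace X] [FirstCountableTopology X]
    {x y : X → ℝ} (hx : Continuous x) (hy : Continuous y) (hpos : ∀ t, 0 < y t) :
    Continuous (fun t => cavg F (x t) (y t)) := by
  unfold cavg
  apply continuous_const.mul
  apply intervalIntegral.continuous_parametric_intervalIntegral_of_continuous'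
  apply BB_continuous.comp
  apply cont_vv h.c0
  · exact (hx.comp continuous_fst).add
      ((hy.comp continuous_fst).mul (cay_im_continuous.comp continuous_snd))
  · exact (hy.comp continuous_fst).mul (cay_re_continuous.comp continuous_snd)
  · intro p; exact mul_pos (hpos _) (cay_re_cc_pos _)

lemma hh_continuous : Continuous hh := by unfold hh; fun_prop

lemma HH_continuous : Continuous HH := by
  have : HH = fun v => v * kap v := by funext v; exact HH_eq v
  rw [this]
  exact continuous_id.mul kap_continuous

lemma cont_flux (h : Per F F1 F2) {X : Type*} [TopologicalSpace X]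
    {x y : X → ℝ} (hx : Continuous x) (hy : Continuous y) (hpos : ∀ t, 0 < y t) :
    Continuous (fun t => flux F F1 (x t) (y t)) := by
  have hv := cont_vv h.c0 hx hy hpos
  have hq := cont_qq h hx hy hpos
  exact (hq.mul (hh_continuous.comp hv)).sub (continuous_const.mul (HH_continuous.comp hv))

lemma int_lin (f1 f2 f3 f4 : ℝ → ℝ) (h1 : Continuous f1) (h2 : Continuous f2)
    (h3 : Continuous f3) (h4 : Continuous f4) (c a b : ℝ) :
    ∫ x in a..b, (2 * f1 x - c + 22 / 5 * f2 x - 22 / 5 * f3 x - f4 x) =
      2 * (∫ x in a..b, f1 x) - c * (b - a) + 22 / 5 * (∫ x in a..b, f2 x) -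
        22 / 5 * (∫ x in a..b, f3 x) - ∫ x in a..b, f4 x := by
  rw [intervalIntegral.integral_sub (by apply Continuous.intervalIntegrable; fun_prop)
      (by apply Continuous.intervalIntegrable; fun_prop),
    intervalIntegral.integral_sub (by apply Continuous.intervalIntegrable; fun_prop)
      (by apply Continuous.intervalIntegrable; fun_prop),
    intervalIntegral.integral_add (by apply Continuous.intervalIntegrable; fun_prop)
      (by apply Continuous.intervalIntegrable; fun_prop),
    intervalIntegral.integral_sub (by apply Continuous.intervalIntegrable; fun_prop)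
      (by apply Continuous.intervalIntegrable; fun_prop),
    intervalIntegral.integral_const_mul, intervalIntegral.integral_const_mul,
    intervalIntegral.integral_const_mul, intervalIntegral.integral_const, smul_eq_mul]
  ring

lemma int_lin2 (f1 f2 f3 : ℝ → ℝ) (h1 : Continuous f1) (h2 : Continuous f2)
    (h3 : Continuous f3) (c a b : ℝ) :
    ∫ x in a..b, (c * (f1 x - f2 x) + f3 x) =
      c * ((∫ x in a..b, f1 x) - ∫ x in a..b, f2 x) + ∫ x in a..b, f3 x := by
  rw [intervalIntegral.integral_add (by apply Continuous.intervalIntegrable; fun_prop)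
      (by apply Continuous.intervalIntegrable; fun_prop),
    intervalIntegral.integral_const_mul,
    intervalIntegral.integral_sub (by apply Continuous.intervalIntegrable; fun_prop)
      (by apply Continuous.intervalIntegrable; fun_prop)]

lemma int_const_le (f : ℝ → ℝ) (hf : Continuous f) (a b c : ℝ) (hab : a ≤ b)
    (h : ∀ x, f x ≤ c) : ∫ x in a..b, f x ≤ (b - a) * c := by
  have h1 : ∫ x in a..b, f x ≤ ∫ x in a..b, (fun _ : ℝ => c) x :=
    intervalIntegral.integral_mono_on hab (hf.intervalIntegrable _ _)
      (continuous_const.intervalIntegrable _ _) (fun x _ => h x)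
  rw [intervalIntegral.integral_const, smul_eq_mul] at h1
  exact h1

/-- the total defect at height `y` -/
noncomputable def defect (F F1 : ℂ → ℂ) (y : ℝ) : ℝ :=
  -(22 / 5) * (bB F y - ∫ x in (0 : ℝ)..2 * π, cavg F x y) + ∫ x in (0 : ℝ)..2 * π, flux F F1 x y

lemma cont_defect (h : Per F F1 F2) : Continuous (fun τ : ℝ => defect F F1 (exp (-τ))) := by
  have hy : Continuous (fun τ : ℝ => exp (-τ)) := by fun_prop
  have h1 := cont_bB h hy (fun _ => exp_pos _)
  have h2 : Continuous (fun τ : ℝ => ∫ x in (0 : ℝ)..2 * π, cavg F x (exp (-τ))) := by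
    apply intervalIntegral.continuous_parametric_intervalIntegral_of_continuous'
    exact cont_cavg h continuous_snd (hy.comp continuous_fst) (fun _ => exp_pos _)
  have h3 : Continuous (fun τ : ℝ => ∫ x in (0 : ℝ)..2 * π, flux F F1 x (exp (-τ))) := by
    apply intervalIntegral.continuous_parametric_intervalIntegral_of_continuous'
    exact cont_flux h continuous_snd (hy.comp continuous_fst) (fun _ => exp_pos _)
  unfold defect
  exact (continuous_const.mul (h1.sub h2)).add h3

lemma integral_GG_le (h : Per F F1 F2) {y Cv Cq : ℝ} (hy : 0 < y)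
    (hv : ∫ x in (0 : ℝ)..2 * π, vv F x y ≤ Cv) (hq : ∫ x in (0 : ℝ)..2 * π, qq F F1 x y ≤ Cq) :
    |∫ x in (0 : ℝ)..2 * π, GG F F1 x y| ≤ 2 * (Cv + Cq) := by
  have cv : Continuous (fun x => vv F x y) := cont_vv h.c0 continuous_id continuous_const fun _ => hy
  have cq : Continuous (fun x => qq F F1 x y) :=
    cont_qq h continuous_id continuous_const fun _ => hy
  have h1 : ∀ x, ‖GG F F1 x y‖ ≤ 2 * (vv F x y + qq F F1 x y) := fun x => abs_GG_le x y
  have h2 := intervalIntegral.norm_integral_le_of_norm_le (f := fun x => GG F F1 x y)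
    (g := fun x => 2 * (vv F x y + qq F F1 x y)) (a := 0) (b := 2 * π) (μ := volume)
    (by positivity) (Filter.Eventually.of_forall fun x _ => h1 x)
    ((continuous_const.mul (cv.add cq)).intervalIntegrable _ _)
  rw [Real.norm_eq_abs] at h2
  refine h2.trans ?_
  rw [intervalIntegral.integral_const_mul, intervalIntegral.integral_add
    (cv.intervalIntegrable _ _) (cq.intervalIntegrable _ _)]
  linarith

theorem integral_defect_le (h : Per F F1 F2) {Cv Cq : ℝ}
    (hv : ∀ y, 0 < y → y ≤ 9 → ∫ x in (0 : ℝ)..2 * π, vv F x y ≤ Cv)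
    (hq : ∀ y, 0 < y → y ≤ 1 → ∫ x in (0 : ℝ)..2 * π, qq F F1 x y ≤ Cq) (a b : ℝ)
    (ha : 0 ≤ a) (hab : a ≤ b) :
    ∫ τ in a..b, defect F F1 (exp (-τ)) ≤ 22 / 5 * (log 9 * Cv) + 4 * (Cv + Cq) := by
  have hy : Continuous (fun τ : ℝ => exp (-τ)) := by fun_prop
  have h1 := cont_bB h hy (fun _ => exp_pos _)
  have h2 : Continuous (fun τ : ℝ => ∫ x in (0 : ℝ)..2 * π, cavg F x (exp (-τ))) := by
    apply intervalIntegral.continuous_parametric_intervalIntegral_of_continuous'
    exact cont_cavg h continuous_snd (hy.comp continuous_fst) (fun _ => exp_pos _)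
  have h3 : Continuous (fun τ : ℝ => ∫ x in (0 : ℝ)..2 * π, flux F F1 x (exp (-τ))) := by
    apply intervalIntegral.continuous_parametric_intervalIntegral_of_continuous'
    exact cont_flux h continuous_snd (hy.comp continuous_fst) (fun _ => exp_pos _)
  unfold defect
  rw [int_lin2 _ _ _ h1 h2 h3, integral_flux h a b]
  have h4 := integral_cavg_le h ha hab hv
  have ea : exp (-a) ≤ 1 := by rw [Real.exp_le_one_iff]; linarith
  have eb : exp (-b) ≤ 1 := by rw [Real.exp_le_one_iff]; linarith
  have h5 := (abs_le.mp (integral_GG_le h (exp_pos (-a)) (hv _ (exp_pos _) (by linarith))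
    (hq _ (exp_pos _) ea))).2
  have h6 := (abs_le.mp (integral_GG_le h (exp_pos (-b)) (hv _ (exp_pos _) (by linarith))
    (hq _ (exp_pos _) eb))).1
  linarith

/-- the local inequality at height `y`, away from `x = 0` -/
theorem local_ineq (h : Per F F1 F2) {y d P : ℝ} (hy : 0 < y) (hd : 0 ≤ d) (hd' : d ≤ π)
    (hP : ∀ x, vv F x y + qq F F1 x y ≤ P) :
    2 * (∫ x in (0 : ℝ)..2 * π, vv F x y) - 931 / 1000 * (2 * π) - defect F F1 y - 14 * d * P ≤
      ∫ x in d..2 * π - d, vv F x y ^ 2 := by
  have cv : Continuous (fun x => vv F x y) := cont_vv h.c0 continuous_id continuous_const fun _ => hy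
  have cB : Continuous (fun x => BB (vv F x y)) := BB_continuous.comp cv
  have cc' : Continuous (fun x => cavg F x y) :=
    cont_cavg h continuous_id continuous_const fun _ => hy
  have cf : Continuous (fun x => flux F F1 x y) :=
    cont_flux h continuous_id continuous_const fun _ => hy
  set Y : ℝ → ℝ := fun x => 2 * vv F x y - 931 / 1000 + 22 / 5 * BB (vv F x y) -
    22 / 5 * cavg F x y - flux F F1 x y with hY
  have cY : Continuous Y := by
    rw [hY]
    exact ((((continuous_const.mul cv).sub continuous_const).add (continuous_const.mul cB)).sub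
      (continuous_const.mul cc')).sub cf
  have h1 : ∫ x in d..2 * π - d, Y x ≤ ∫ x in d..2 * π - d, vv F x y ^ 2 := by
    apply intervalIntegral.integral_mono_on (by linarith) (cY.intervalIntegrable _ _)
      ((cv.pow 2).intervalIntegrable _ _)
    intro x _
    have := point_ineq h x hy
    rw [hY]; simp only [Pi.pow_apply]
    linarith
  have hYP : ∀ x, Y x ≤ 7 * P := by
    intro x
    have h2 := vv_nonneg F x y
    have h3 := qq_nonneg F F1 x y
    have h4 := BB_le h2
    have h5 := cavg_nonneg (F := F) x y
    have h6 := hP x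
    have h7 : -flux F F1 x y ≤ qq F F1 x y := by
      unfold flux
      have h8 : HH (vv F x y) ≤ 0 := by
        rcases le_total (vv F x y) (19 / 20) with h9 | h9
        · rw [HH_of_le h9]; nlinarith
        · rw [HH_of_ge h9]; norm_num
      have h10 : -hh (vv F x y) ≤ 1 := by
        unfold hh
        have : max 0 (19 / 20 - vv F x y) ≤ 1 := max_le (by norm_num) (by linarith)
        linarith
      nlinarith
    rw [hY]; simp only
    linarith
  have h2 : ∫ x in (0 : ℝ)..2 * π, Y x = 2 * (∫ x in (0 : ℝ)..2 * π, vv F x y) -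
      931 / 1000 * (2 * π) - defect F F1 y := by
    rw [hY, int_lin _ _ _ _ cv cB cc' cf]
    unfold defect bB
    ring
  have h3 : ∫ x in (0 : ℝ)..2 * π, Y x =
      (∫ x in (0 : ℝ)..d, Y x) + (∫ x in d..2 * π - d, Y x) + ∫ x in (2 * π - d)..2 * π, Y x := by
    rw [intervalIntegral.integral_add_adjacent_intervals (cY.intervalIntegrable _ _)
      (cY.intervalIntegrable _ _),
      intervalIntegral.integral_add_adjacent_intervals (cY.intervalIntegrable _ _)
      (cY.intervalIntegrable _ _)]
  have h4 := int_const_le Y cY 0 d (7 * P) hd hYP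
  have h5 := int_const_le Y cY (2 * π - d) (2 * π) (7 * P) (by linarith) hYP
  linarith

end Pool.Agent.Helper65.ET
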