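import Pool.Agent.Helper65.ET.Dir

set_option autoImplicit false

open MeasureTheory Metric Real Set Finset

/-!
# The generating function of a set with bounded representation function
-/

namespace Pool.Agent.Helper65.ET

/-- `R(n) = ∑_{i+j=n} a_i a_j` -/
noncomputable def RR (a : ℕ → ℝ) (n : ℕ) : ℝ := ∑ p ∈ antidiagonal n, a p.1 * a p.2

/-- `∑ a_n e^{-tn}` -/
noncomputable def Fr (a : ℕ → ℝ) (t : ℝ) : ℝ := ∑' n : ℕ, a n * exp (-(t * n))

lemma summable_exp {t : ℝ} (ht : 0 < t) : Summable (fun n : ℕ => exp (-(t * n))) := by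
  have h1 : ∀ n : ℕ, exp (-(t * n)) = exp (-t) ^ n := by
    intro n; rw [← Real.exp_nat_mul]; congr 1; ring
  simp_rw [h1]
  exact summable_geometric_of_lt_one (exp_pos _).le (by rw [Real.exp_lt_one_iff]; linarith)

lemma tsum_exp {t : ℝ} (ht : 0 < t) : ∑' n : ℕ, exp (-(t * n)) = (1 - exp (-t))⁻¹ := by
  have h1 : ∀ n : ℕ, exp (-(t * n)) = exp (-t) ^ n := by
    intro n; rw [← Real.exp_nat_mul]; congr 1; ring
  simp_rw [h1]
  exact tsum_geometric_of_lt_one (exp_pos _).le (by rw [Real.exp_lt_one_iff]; linarith)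

lemma one_sub_exp_ge {t : ℝ} (ht : 0 < t) : t / (1 + t) ≤ 1 - exp (-t) := by
  have h1 : exp (-t) ≤ 1 / (1 + t) := by
    rw [Real.exp_neg, ← one_div]
    apply one_div_le_one_div_of_le (by positivity)
    linarith [Real.add_one_le_exp t]
  have h2 : t / (1 + t) = 1 - 1 / (1 + t) := by field_simp; ring
  linarith

lemma tsum_exp_le {t : ℝ} (ht : 0 < t) : ∑' n : ℕ, exp (-(t * n)) ≤ (1 + t) / t := by
  rw [tsum_exp ht]
  have h1 := one_sub_exp_ge ht
  rw [inv_le_comm₀ (lt_of_lt_of_le (by positivity) h1) (by positivity), inv_div]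
  exact h1

lemma le_tsum_exp {t : ℝ} (ht : 0 < t) : 1 / t ≤ ∑' n : ℕ, exp (-(t * n)) := by
  rw [tsum_exp ht, one_div]
  apply inv_anti₀
  · have : exp (-t) < 1 := by rw [Real.exp_lt_one_iff]; linarith
    linarith
  · linarith [Real.add_one_le_exp (-t)]

section

variable {a : ℕ → ℝ} (ha : ∀ n, a n = 0 ∨ a n = 1)

include ha

lemma a_nonneg (n : ℕ) : 0 ≤ a n := by rcases ha n with h | h <;> rw [h]; norm_num
lemma a_le_one (n : ℕ) : a n ≤ 1 := by rcases ha n with h | h <;> rw [h]; norm_num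
lemma a_sq (n : ℕ) : a n ^ 2 = a n := by rcases ha n with h | h <;> rw [h] <;> norm_num

lemma adm_a : Adm a := by
  intro ε hε
  refine Summable.of_nonneg_of_le (fun n => by positivity) (fun n => ?_) (summable_exp hε)
  rw [abs_of_nonneg (a_nonneg ha n)]
  have := a_le_one ha n
  have h2 := exp_pos (-(ε * n))
  nlinarith

lemma summable_a {t : ℝ} (ht : 0 < t) : Summable (fun n : ℕ => a n * exp (-(t * n))) := by
  refine (adm_a ha t ht).congr fun n => ?_
  rw [abs_of_nonneg (a_nonneg ha n)]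

lemma RR_nonneg (n : ℕ) : 0 ≤ RR a n :=
  Finset.sum_nonneg fun p _ => mul_nonneg (a_nonneg ha _) (a_nonneg ha _)

lemma Fr_nonneg (t : ℝ) : 0 ≤ Fr a t :=
  tsum_nonneg fun n => mul_nonneg (a_nonneg ha _) (exp_pos _).le

lemma Fr_anti {s t : ℝ} (hs : 0 < s) (hst : s ≤ t) : Fr a t ≤ Fr a s := by
  unfold Fr
  refine (summable_a ha (hs.trans_le hst)).tsum_le_tsum (fun n => ?_) (summable_a ha hs)
  have := a_nonneg ha n
  gcongr

lemma Fr_sq {t : ℝ} (ht : 0 < t) : Fr a t ^ 2 = ∑' n : ℕ, RR a n * exp (-(t * n)) := by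
  have hs : Summable (fun n : ℕ => ‖a n * exp (-(t * n))‖) := (summable_a ha ht).norm
  unfold Fr
  rw [sq, tsum_mul_tsum_eq_tsum_sum_antidiagonal_of_summable_norm hs hs]
  refine tsum_congr fun n => ?_
  unfold RR
  rw [Finset.sum_mul]
  refine Finset.sum_congr rfl fun p hp => ?_
  rw [HasAntidiagonal.mem_antidiagonal] at hp
  have : exp (-(t * n)) = exp (-(t * p.1)) * exp (-(t * p.2)) := by
    rw [← Real.exp_add, ← hp]; congr 1; push_cast; ring
  rw [this]; ring

lemma Dir_sq {s : ℂ} (hs : 0 < s.re) : Dir a s ^ 2 = Dir (RR a) s := by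
  have h1 := (adm_a ha).summable_norm hs
  unfold Dir
  rw [sq, tsum_mul_tsum_eq_tsum_sum_antidiagonal_of_summable_norm h1 h1]
  refine tsum_congr fun n => ?_
  unfold RR
  push_cast
  rw [Finset.sum_mul]
  refine Finset.sum_congr rfl fun p hp => ?_
  rw [HasAntidiagonal.mem_antidiagonal] at hp
  have : Complex.exp (-(n * s)) = Complex.exp (-(p.1 * s)) * Complex.exp (-(p.2 * s)) := by
    rw [← Complex.exp_add, ← hp]; congr 1; push_cast; ring
  rw [this]; ring

variable {C : ℝ} (hC : ∀ n, RR a n ≤ C)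

include hC

lemma C_nonneg : 0 ≤ C := (RR_nonneg ha 0).trans (hC 0)

lemma adm_RR : Adm (RR a) := by
  intro ε hε
  refine Summable.of_nonneg_of_le (fun n => by positivity) (fun n => ?_)
    ((summable_exp hε).mul_left C)
  rw [abs_of_nonneg (RR_nonneg ha n)]
  have := hC n
  gcongr

lemma summable_RR {t : ℝ} (ht : 0 < t) : Summable (fun n : ℕ => RR a n * exp (-(t * n))) := by
  refine (adm_RR ha hC t ht).congr fun n => ?_
  rw [abs_of_nonneg (RR_nonneg ha n)]

lemma summable_RR_sq {t : ℝ} (ht : 0 < t) :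
    Summable (fun n : ℕ => RR a n ^ 2 * exp (-(t * n))) := by
  refine Summable.of_nonneg_of_le (fun n => by positivity) (fun n => ?_)
    ((summable_exp ht).mul_left (C ^ 2))
  have := hC n
  have h2 := RR_nonneg ha n
  gcongr

lemma Fr_sq_le {t : ℝ} (ht : 0 < t) : Fr a t ^ 2 ≤ C * ((1 + t) / t) := by
  rw [Fr_sq ha ht]
  calc ∑' n : ℕ, RR a n * exp (-(t * n)) ≤ ∑' n : ℕ, C * exp (-(t * n)) := by
        refine (summable_RR ha hC ht).tsum_le_tsum (fun n => ?_) ((summable_exp ht).mul_left C)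
        have := hC n
        gcongr
    _ = C * ∑' n : ℕ, exp (-(t * n)) := tsum_mul_left
    _ ≤ C * ((1 + t) / t) := by
        have := C_nonneg ha hC
        have h2 := tsum_exp_le ht
        gcongr

lemma Fr_le {t : ℝ} (ht : 0 < t) : Fr a t ≤ √(C * ((1 + t) / t)) :=
  Real.le_sqrt_of_sq_le (Fr_sq_le ha hC ht)

end

end Pool.Agent.Helper65.ET
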