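import Pool.Agent.Helper65.ET.Circle2

set_option autoImplicit false

open MeasureTheory Metric Real Set

/-!
# Averages over circles do not change the logarithmic average
-/

namespace Pool.Agent.Helper65.ET

variable {F F1 F2 : ℂ → ℂ}

lemma BB_le {v : ℝ} (hv : 0 ≤ v) : BB v ≤ v := by
  unfold BB
  have h2 : √v ^ 2 = v := Real.sq_sqrt hv
  have h3 : max 0 (√v - 1) ≤ √v := max_le (Real.sqrt_nonneg _) (by linarith)
  calc (max 0 (√v - 1)) ^ 2 ≤ √v ^ 2 := by
        apply pow_le_pow_left₀ (le_max_left _ _) h3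
    _ = v := h2

/-- `∫ B(v) dx` at height `y` -/
noncomputable def bB (F : ℂ → ℂ) (y : ℝ) : ℝ := ∫ x in (0 : ℝ)..2 * π, BB (vv F x y)

lemma bB_nonneg (y : ℝ) : 0 ≤ bB F y := by
  unfold bB
  apply intervalIntegral.integral_nonneg (by positivity)
  intro x _; exact BB_nonneg _

lemma cont_bB (h : Per F F1 F2) {X : Type*} [TopologicalSpace X] [FirstCountableTopology X]
    {y : X → ℝ} (hy : Continuous y) (hpos : ∀ t, 0 < y t) : Continuous (fun t => bB F (y t)) := by
  unfold bB
  apply intervalIntegral.continuous_parametric_intervalIntegral_of_continuous'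
  have : Continuous (fun p : X × ℝ => vv F p.2 (y p.1)) :=
    cont_vv h.c0 continuous_snd (hy.comp continuous_fst) (fun _ => hpos _)
  exact BB_continuous.comp this

lemma bB_le (h : Per F F1 F2) {y C : ℝ} (hy : 0 < y)
    (hC : ∫ x in (0 : ℝ)..2 * π, vv F x y ≤ C) : bB F y ≤ C := by
  refine le_trans ?_ hC
  unfold bB
  have hv : Continuous (fun x => vv F x y) :=
    cont_vv h.c0 continuous_id continuous_const (fun _ => hy)
  apply intervalIntegral.integral_mono_on (by positivity)
  · exact (BB_continuous.comp hv).intervalIntegrable _ _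
  · exact hv.intervalIntegrable _ _
  · intro x _; exact BB_le (vv_nonneg _ _ _)

lemma vv_periodic (h : Per F F1 F2) (y : ℝ) : Function.Periodic (fun x => vv F x y) (2 * π) := by
  intro x
  simp only [vv, h.per0]

lemma integral_BB_shift (h : Per F F1 F2) (a y : ℝ) :
    ∫ x in (0 : ℝ)..2 * π, BB (vv F (x + a) y) = bB F y := by
  unfold bB
  rw [intervalIntegral.integral_comp_add_right (fun x => BB (vv F x y)) a]
  have hp : Function.Periodic (fun x => BB (vv F x y)) (2 * π) := by
    intro x; simp only [vv_periodic h y x]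
  have := hp.intervalIntegral_add_eq a 0
  rw [zero_add] at this
  rw [zero_add, ← this, add_comm]

lemma cay_im_continuous : Continuous (fun φ => (cay (cc φ)).im) :=
  Complex.continuous_im.comp cay_cc_continuous

lemma cay_re_continuous : Continuous (fun φ => (cay (cc φ)).re) :=
  Complex.continuous_re.comp cay_cc_continuous

lemma cay_re_cc_pos (φ : ℝ) : 0 < (cay (cc φ)).re := cay_re_pos (norm_cc φ).le

lemma integral_cavg (h : Per F F1 F2) {y : ℝ} (hy : 0 < y) :
    ∫ x in (0 : ℝ)..2 * π, cavg F x y =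
      (2 * π)⁻¹ * ∫ φ in (0 : ℝ)..2 * π, bB F (y * (cay (cc φ)).re) := by
  unfold cavg
  rw [intervalIntegral.integral_const_mul]
  congr 1
  rw [intervalIntegral_intervalIntegral_swap]
  · apply intervalIntegral.integral_congr
    intro φ _
    simp only
    exact integral_BB_shift h _ _
  · have hc : Continuous (fun p : ℝ × ℝ =>
        BB (vv F (p.1 + y * (cay (cc p.2)).im) (y * (cay (cc p.2)).re))) := by
      apply BB_continuous.comp
      apply cont_vv h.c0
      · exact continuous_fst.add (continuous_const.mul (cay_im_continuous.comp continuous_snd))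
      · exact continuous_const.mul (cay_re_continuous.comp continuous_snd)
      · intro p; exact mul_pos hy (cay_re_cc_pos _)
    have : IntegrableOn (Function.uncurry fun x φ =>
        BB (vv F (x + y * (cay (cc φ)).im) (y * (cay (cc φ)).re)))
        (uIcc 0 (2 * π) ×ˢ uIcc 0 (2 * π)) := by
      apply ContinuousOn.integrableOn_compact (isCompact_uIcc.prod isCompact_uIcc)
      exact hc.continuousOn
    exact this.mono_set (prod_mono uIoc_subset_uIcc uIoc_subset_uIcc)

/-- shifting a bounded function -/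
lemma shift_le (f : ℝ → ℝ) (hf : Continuous f) (hf0 : ∀ τ, 0 ≤ f τ) (L C a b ℓ : ℝ)
    (ha : 0 ≤ a) (hab : a ≤ b) (hL : |ℓ| ≤ L) (hC : ∀ τ, -L ≤ τ → f τ ≤ C) :
    ∫ τ in a..b, f (τ - ℓ) ≤ (∫ τ in a..b, f τ) + L * C := by
  rw [intervalIntegral.integral_comp_sub_right f ℓ]
  have hi : ∀ a b, IntervalIntegrable f volume a b := fun a b => hf.intervalIntegrable a b
  have hL0 : 0 ≤ L := (abs_nonneg _).trans hL
  have hC0 : 0 ≤ C := (hf0 0).trans (hC 0 (by linarith))
  have hb : ∀ a b : ℝ, a ≤ b → -L ≤ a → ∫ τ in a..b, f τ ≤ (b - a) * C := by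
    intro a b hab ha
    have := intervalIntegral.integral_mono_on (f := f) (g := fun _ => C) hab (hi a b)
      (by simp) (fun x hx => hC x (ha.trans hx.1))
    rw [intervalIntegral.integral_const, smul_eq_mul] at this
    exact this
  have hn : ∀ a b : ℝ, a ≤ b → 0 ≤ ∫ τ in a..b, f τ := fun a b hab =>
    intervalIntegral.integral_nonneg hab (fun x _ => hf0 x)
  have h1 := (abs_le.mp hL)
  have e : ∫ τ in a - ℓ..b - ℓ, f τ =
      (∫ τ in (a - ℓ)..a, f τ) + (∫ τ in a..b, f τ) + ∫ τ in b..b - ℓ, f τ := by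
    rw [intervalIntegral.integral_add_adjacent_intervals (hi _ _) (hi _ _),
      intervalIntegral.integral_add_adjacent_intervals (hi _ _) (hi _ _)]
  rw [e]
  rcases le_total 0 ℓ with h2 | h2
  · have h3 := hb (a - ℓ) a (by linarith) (by linarith)
    have h4 := hn (b - ℓ) b (by linarith)
    rw [intervalIntegral.integral_symm] at h4
    have : (a - (a - ℓ)) * C ≤ L * C := by
      apply mul_le_mul_of_nonneg_right _ hC0; linarith
    linarith
  · have h3 := hb b (b - ℓ) (by linarith) (by linarith)
    have h4 := hn a (a - ℓ) (by linarith)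
    rw [intervalIntegral.integral_symm] at h4
    have : (b - ℓ - b) * C ≤ L * C := by
      apply mul_le_mul_of_nonneg_right _ hC0; linarith
    linarith

theorem integral_cavg_le (h : Per F F1 F2) {C a b : ℝ} (ha : 0 ≤ a) (hab : a ≤ b)
    (hC : ∀ y, 0 < y → y ≤ 9 → ∫ x in (0 : ℝ)..2 * π, vv F x y ≤ C) :
    ∫ τ in a..b, ∫ x in (0 : ℝ)..2 * π, cavg F x (exp (-τ)) ≤
      (∫ τ in a..b, bB F (exp (-τ))) + log 9 * C := by
  have hcf : Continuous (fun τ : ℝ => bB F (exp (-τ))) :=
    cont_bB h (by fun_prop) (fun _ => exp_pos _)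
  have hcg : Continuous (fun p : ℝ × ℝ => bB F (exp (-p.1) * (cay (cc p.2)).re)) := by
    apply cont_bB h
    · exact (by fun_prop : Continuous (fun p : ℝ × ℝ => exp (-p.1))).mul
        (cay_re_continuous.comp continuous_snd)
    · intro p; exact mul_pos (exp_pos _) (cay_re_cc_pos _)
  have e1 : ∀ τ : ℝ, ∫ x in (0 : ℝ)..2 * π, cavg F x (exp (-τ)) =
      (2 * π)⁻¹ * ∫ φ in (0 : ℝ)..2 * π, bB F (exp (-τ) * (cay (cc φ)).re) :=
    fun τ => integral_cavg h (exp_pos _)
  simp_rw [e1]
  rw [intervalIntegral.integral_const_mul, intervalIntegral_intervalIntegral_swap]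
  · have h2 : ∀ φ : ℝ, ∫ τ in a..b, bB F (exp (-τ) * (cay (cc φ)).re) ≤
        (∫ τ in a..b, bB F (exp (-τ))) + log 9 * C := by
      intro φ
      have hm := cay_re_cc_pos φ
      have e2 : ∀ τ : ℝ, bB F (exp (-τ) * (cay (cc φ)).re) =
          (fun τ => bB F (exp (-τ))) (τ - log (cay (cc φ)).re) := by
        intro τ
        simp only
        rw [neg_sub, sub_eq_add_neg, Real.exp_add, Real.exp_log hm, mul_comm]
      simp_rw [e2]
      apply shift_le _ hcf (fun τ => bB_nonneg _) _ _ _ _ _ ha hab
      · rw [abs_le]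
        constructor
        · rw [neg_le, ← Real.log_inv]
          apply Real.log_le_log (by positivity)
          rw [inv_le_comm₀ hm (by norm_num)]
          have := cay_re_cc_ge φ
          rw [one_div] at this; exact this
        · exact Real.log_le_log hm (cay_re_cc_le φ)
      · intro τ hτ
        apply bB_le h (exp_pos _)
        apply hC _ (exp_pos _)
        calc exp (-τ) ≤ exp (log 9) := by gcongr; linarith
          _ = 9 := Real.exp_log (by norm_num)
    have h3 : ∫ φ in (0 : ℝ)..2 * π, ∫ τ in a..b, bB F (exp (-τ) * (cay (cc φ)).re) ≤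
        ∫ φ in (0 : ℝ)..2 * π, ((∫ τ in a..b, bB F (exp (-τ))) + log 9 * C) := by
      apply intervalIntegral.integral_mono_on (by positivity) _ (by simp) (fun φ _ => h2 φ)
      apply Continuous.intervalIntegrable
      apply intervalIntegral.continuous_parametric_intervalIntegral_of_continuous'
      exact hcg.comp continuous_swap
    rw [intervalIntegral.integral_const, smul_eq_mul, sub_zero] at h3
    calc (2 * π)⁻¹ * ∫ φ in (0 : ℝ)..2 * π, ∫ τ in a..b,
          bB F (exp (-τ) * (cay (cc φ)).re)
        ≤ (2 * π)⁻¹ * (2 * π * ((∫ τ in a..b, bB F (exp (-τ))) + log 9 * C)) := by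
          gcongr
      _ = _ := by field_simp
  · have : IntegrableOn (Function.uncurry fun τ φ => bB F (exp (-τ) * (cay (cc φ)).re))
        (uIcc a b ×ˢ uIcc 0 (2 * π)) := by
      apply ContinuousOn.integrableOn_compact (isCompact_uIcc.prod isCompact_uIcc)
      exact hcg.continuousOn
    exact this.mono_set (prod_mono uIoc_subset_uIcc uIoc_subset_uIcc)

end Pool.Agent.Helper65.ET
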