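import Mathlib

set_option autoImplicit false

/-!
# The pointwise certificate

`v = √y |F|²` (normalised), `q = |a₁|²`, `W` a circle average of `(√v - 1)₊²`.
-/

namespace Pool.Agent.Helper65.ET

/-- the function `h(v) = -η (v₁ - v)₊` with `η = 31/100`, `v₁ = 19/20` -/
noncomputable def hh (v : ℝ) : ℝ := -(31 / 100) * max 0 (19 / 20 - v)

/-- its primitive `H(v) = ∫₀^v h`, for `v ≥ 0` -/
noncomputable def HH (v : ℝ) : ℝ :=
  -(31 / 100) * (if v ≤ 19 / 20 then 19 / 20 * v - v ^ 2 / 2 else (19 / 20) ^ 2 / 2)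

/-- `B(v) = (√v - 1)₊²` -/
noncomputable def BB (v : ℝ) : ℝ := (max 0 (√v - 1)) ^ 2

lemma T_nonneg0 (v : ℝ) (h0 : 0 ≤ v) (h1 : v ≤ (19 / 80)) :
    0 ≤ (22 / 5 * (48 / 125) - 31 / 100 * (19 / 20 - v) * (1 + 12 / 5 * v + 9 / 25 * v ^ 2)) *
      ((1 - v) ^ 2 + 151 / 160000 - 31 / 400 * (19 / 20 - v) ^ 2) -
      22 / 5 * (31 / 100) * (19 / 20 - v) * (1 - 3 / 5 * v) ^ 2 := by
  have h2 : 0 ≤ v - 0 := by linarith
  have h3 : 0 ≤ (19 / 80) - v := by linarith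
  have e : (22 / 5 * (48 / 125) - 31 / 100 * (19 / 20 - v) * (1 + 12 / 5 * v + 9 / 25 * v ^ 2)) *
      ((1 - v) ^ 2 + 151 / 160000 - 31 / 400 * (19 / 20 - v) ^ 2) -
      22 / 5 * (31 / 100) * (19 / 20 - v) * (1 - 3 / 5 * v) ^ 2 =
      (13099008 / 3258025) * ((v - 0) ^ 0 * ((19 / 80) - v) ^ 5) +
      (147085696 / 16290125) * ((v - 0) ^ 1 * ((19 / 80) - v) ^ 4) +
      (732874128 / 21434375) * ((v - 0) ^ 2 * ((19 / 80) - v) ^ 3) +
      (292031622951 / 4072531250) * ((v - 0) ^ 3 * ((19 / 80) - v) ^ 2) +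
      (1904706272123 / 32580250000) * ((v - 0) ^ 4 * ((19 / 80) - v) ^ 1) +
      (2090379281571 / 130321000000) * ((v - 0) ^ 5 * ((19 / 80) - v) ^ 0) := by ring
  rw [e]
  positivity

lemma T_nonneg1 (v : ℝ) (h0 : (19 / 80) ≤ v) (h1 : v ≤ (19 / 40)) :
    0 ≤ (22 / 5 * (48 / 125) - 31 / 100 * (19 / 20 - v) * (1 + 12 / 5 * v + 9 / 25 * v ^ 2)) *
      ((1 - v) ^ 2 + 151 / 160000 - 31 / 400 * (19 / 20 - v) ^ 2) -
      22 / 5 * (31 / 100) * (19 / 20 - v) * (1 - 3 / 5 * v) ^ 2 := by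
  have h2 : 0 ≤ v - (19 / 80) := by linarith
  have h3 : 0 ≤ (19 / 40) - v := by linarith
  have e : (22 / 5 * (48 / 125) - 31 / 100 * (19 / 20 - v) * (1 + 12 / 5 * v + 9 / 25 * v ^ 2)) *
      ((1 - v) ^ 2 + 151 / 160000 - 31 / 400 * (19 / 20 - v) ^ 2) -
      22 / 5 * (31 / 100) * (19 / 20 - v) * (1 - 3 / 5 * v) ^ 2 =
      (2090379281571 / 130321000000) * ((v - (19 / 80)) ^ 0 * ((19 / 40) - v) ^ 5) +
      (6642483863609 / 65160500000) * ((v - (19 / 80)) ^ 1 * ((19 / 40) - v) ^ 4) +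
      (4001197811167 / 16290125000) * ((v - (19 / 80)) ^ 2 * ((19 / 40) - v) ^ 3) +
      (2249546081889 / 8145062500) * ((v - (19 / 80)) ^ 3 * ((19 / 40) - v) ^ 2) +
      (236515871027 / 1629012500) * ((v - (19 / 80)) ^ 4 * ((19 / 40) - v) ^ 1) +
      (117404471653 / 4072531250) * ((v - (19 / 80)) ^ 5 * ((19 / 40) - v) ^ 0) := by ring
  rw [e]
  positivity

lemma T_nonneg2 (v : ℝ) (h0 : (19 / 40) ≤ v) (h1 : v ≤ (57 / 80)) :
    0 ≤ (22 / 5 * (48 / 125) - 31 / 100 * (19 / 20 - v) * (1 + 12 / 5 * v + 9 / 25 * v ^ 2)) *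
      ((1 - v) ^ 2 + 151 / 160000 - 31 / 400 * (19 / 20 - v) ^ 2) -
      22 / 5 * (31 / 100) * (19 / 20 - v) * (1 - 3 / 5 * v) ^ 2 := by
  have h2 : 0 ≤ v - (19 / 40) := by linarith
  have h3 : 0 ≤ (57 / 80) - v := by linarith
  have e : (22 / 5 * (48 / 125) - 31 / 100 * (19 / 20 - v) * (1 + 12 / 5 * v + 9 / 25 * v ^ 2)) *
      ((1 - v) ^ 2 + 151 / 160000 - 31 / 400 * (19 / 20 - v) ^ 2) -
      22 / 5 * (31 / 100) * (19 / 20 - v) * (1 - 3 / 5 * v) ^ 2 =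
      (117404471653 / 4072531250) * ((v - (19 / 40)) ^ 0 * ((57 / 80) - v) ^ 5) +
      (46620403117 / 325802500) * ((v - (19 / 40)) ^ 1 * ((57 / 80) - v) ^ 4) +
      (2181268973049 / 8145062500) * ((v - (19 / 40)) ^ 2 * ((57 / 80) - v) ^ 3) +
      (3798977053981 / 16290125000) * ((v - (19 / 40)) ^ 3 * ((57 / 80) - v) ^ 2) +
      (6117151547561 / 65160500000) * ((v - (19 / 40)) ^ 4 * ((57 / 80) - v) ^ 1) +
      (74599550217 / 5212840000) * ((v - (19 / 40)) ^ 5 * ((57 / 80) - v) ^ 0) := by ring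
  rw [e]
  positivity

lemma T_nonneg3 (v : ℝ) (h0 : (57 / 80) ≤ v) (h1 : v ≤ (19 / 20)) :
    0 ≤ (22 / 5 * (48 / 125) - 31 / 100 * (19 / 20 - v) * (1 + 12 / 5 * v + 9 / 25 * v ^ 2)) *
      ((1 - v) ^ 2 + 151 / 160000 - 31 / 400 * (19 / 20 - v) ^ 2) -
      22 / 5 * (31 / 100) * (19 / 20 - v) * (1 - 3 / 5 * v) ^ 2 := by
  have h2 : 0 ≤ v - (57 / 80) := by linarith
  have h3 : 0 ≤ (19 / 20) - v := by linarith
  have e : (22 / 5 * (48 / 125) - 31 / 100 * (19 / 20 - v) * (1 + 12 / 5 * v + 9 / 25 * v ^ 2)) *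
      ((1 - v) ^ 2 + 151 / 160000 - 31 / 400 * (19 / 20 - v) ^ 2) -
      22 / 5 * (31 / 100) * (19 / 20 - v) * (1 - 3 / 5 * v) ^ 2 =
      (74599550217 / 5212840000) * ((v - (57 / 80)) ^ 0 * ((19 / 20) - v) ^ 5) +
      (801948057391 / 16290125000) * ((v - (57 / 80)) ^ 1 * ((19 / 20) - v) ^ 4) +
      (111202216998 / 2036265625) * ((v - (57 / 80)) ^ 2 * ((19 / 20) - v) ^ 3) +
      (47287830834 / 2036265625) * ((v - (57 / 80)) ^ 3 * ((19 / 20) - v) ^ 2) +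
      (22658524124 / 2036265625) * ((v - (57 / 80)) ^ 4 * ((19 / 20) - v) ^ 1) +
      (125435904 / 16290125) * ((v - (57 / 80)) ^ 5 * ((19 / 20) - v) ^ 0) := by ring
  rw [e]
  positivity

lemma T_nonneg (v : ℝ) (h0 : 0 ≤ v) (h1 : v ≤ 19 / 20) :
    0 ≤ (22 / 5 * (48 / 125) - 31 / 100 * (19 / 20 - v) * (1 + 12 / 5 * v + 9 / 25 * v ^ 2)) *
      ((1 - v) ^ 2 + 151 / 160000 - 31 / 400 * (19 / 20 - v) ^ 2) -
      22 / 5 * (31 / 100) * (19 / 20 - v) * (1 - 3 / 5 * v) ^ 2 := by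
  rcases le_total v (19 / 80) with h | h0
  · exact T_nonneg0 v (by linarith) h
  rcases le_total v (19 / 40) with h | h1
  · exact T_nonneg1 v (by linarith) h
  rcases le_total v (57 / 80) with h | h2
  · exact T_nonneg2 v (by linarith) h
  exact T_nonneg3 v (by linarith) (by linarith)


lemma HH_of_le {v : ℝ} (h : v ≤ 19 / 20) :
    HH v = -(31 / 100) * (19 / 20 * v - v ^ 2 / 2) := by
  unfold HH; rw [if_pos h]

lemma HH_of_ge {v : ℝ} (h : 19 / 20 ≤ v) : HH v = -(31 / 100) * ((19 / 20) ^ 2 / 2) := by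
  unfold HH
  rcases h.lt_or_eq with h1 | h1
  · rw [if_neg (not_le.mpr h1)]
  · rw [if_pos h1.ge, ← h1]; norm_num

lemma disc (b a s D Q be p : ℝ) (hA : 0 < b * a ^ 2 - s * D)
    (hT : b * s * be ^ 2 ≤ (b * a ^ 2 - s * D) * Q) (hb : 0 ≤ b) (hD : 0 < D) :
    (s * p ^ 2 - Q) * D ≤ b * (a * p - be) ^ 2 := by
  have key : 0 ≤ (b * a ^ 2 - s * D) * (b * (a * p - be) ^ 2 - (s * p ^ 2 - Q) * D) := by
    have : (b * a ^ 2 - s * D) * (b * (a * p - be) ^ 2 - (s * p ^ 2 - Q) * D) =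
        ((b * a ^ 2 - s * D) * p - b * a * be) ^ 2 +
          D * ((b * a ^ 2 - s * D) * Q - b * s * be ^ 2) := by
      ring
    rw [this]
    have h2 : 0 ≤ (b * a ^ 2 - s * D) * Q - b * s * be ^ 2 := by linarith
    positivity
  have := nonneg_of_mul_nonneg_right key hA
  linarith

/-- the core inequality: `s p² - Q ≤ b W` -/
lemma core (b a s D Q be p W : ℝ) (hb : 0 ≤ b) (ha : 0 < a) (hs : 0 ≤ s) (hD : 0 < D)
    (hbe : 0 ≤ be) (hp : 0 ≤ p) (hQ : 0 ≤ Q)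
    (hA : 0 < b * a ^ 2 - s * D) (hT : b * s * be ^ 2 ≤ (b * a ^ 2 - s * D) * Q)
    (hb' : 0 < b) (hW0 : 0 ≤ W)
    (hW : ∀ t : ℝ, 0 ≤ t → 2 * t * (a * p - be) - t ^ 2 * D ≤ W) :
    s * p ^ 2 - Q ≤ b * W := by
  rcases le_total (a * p - be) 0 with hX | hX
  · have h1 : (a * p) ^ 2 ≤ be ^ 2 := by
      apply pow_le_pow_left₀ (by positivity); linarith
    have h3 : a ^ 2 * (s * p ^ 2) ≤ a ^ 2 * Q := by
      have h4 : b * (a ^ 2 * (s * p ^ 2)) ≤ b * (a ^ 2 * Q) := by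
        calc b * (a ^ 2 * (s * p ^ 2)) = b * s * (a * p) ^ 2 := by ring
          _ ≤ b * s * be ^ 2 := by gcongr
          _ ≤ (b * a ^ 2 - s * D) * Q := hT
          _ ≤ b * (a ^ 2 * Q) := by
            have : 0 ≤ s * D * Q := by positivity
            nlinarith
      exact le_of_mul_le_mul_left h4 hb'
    have h7 : 0 < a ^ 2 := by positivity
    have h8 := le_of_mul_le_mul_left h3 h7
    have : 0 ≤ b * W := by positivity
    linarith
  · have h1 := hW ((a * p - be) / D) (by positivity)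
    have e6 : 2 * ((a * p - be) / D) * (a * p - be) - ((a * p - be) / D) ^ 2 * D =
        (a * p - be) ^ 2 / D := by
      field_simp; ring
    rw [e6] at h1
    have h2 := disc b a s D Q be p hA hT hb hD
    have h3 : s * p ^ 2 - Q ≤ b * ((a * p - be) ^ 2 / D) := by
      rw [← mul_div_assoc, le_div_iff₀ hD]; exact h2
    have : b * ((a * p - be) ^ 2 / D) ≤ b * W := by gcongr
    linarith

lemma A_pos (v : ℝ) (h0 : 0 ≤ v) (h1 : v ≤ 19 / 20) :
    0 < 22 / 5 * (48 / 125) - 31 / 100 * (19 / 20 - v) * (1 + 12 / 5 * v + 9 / 25 * v ^ 2) := by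
  nlinarith [mul_nonneg h0 (sub_nonneg.mpr h1), mul_nonneg h0 (mul_nonneg h0 (sub_nonneg.mpr h1)),
    sq_nonneg (v - 1 / 2)]

/-- The certificate. -/
theorem cert (v q W : ℝ) (hv : 0 ≤ v) (hq : 0 ≤ q) (hW0 : 0 ≤ W)
    (hW : ∀ c t : ℝ, 0 ≤ c → 0 ≤ t →
      2 * t * (√(48 / 125) * √q + 2 * c * √(3 / 5) * √v - (1 + c ^ 2)) -
        t ^ 2 * (1 + 4 * c ^ 2 + c ^ 4) ≤ W) :
    0 ≤ v ^ 2 - 2 * v + 931 / 1000 - 22 / 5 * BB v + 22 / 5 * W + q * hh v - 1 / 2 * HH v := by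
  rcases le_total v (19 / 20) with h | h
  · have hB : BB v = 0 := by
      unfold BB
      have : √v ≤ 1 := by rw [Real.sqrt_le_one]; linarith
      rw [max_eq_left (by linarith)]; norm_num
    have hh' : hh v = -(31 / 100) * (19 / 20 - v) := by
      unfold hh; rw [max_eq_right (by linarith)]
    rw [hB, HH_of_le h, hh']
    have hT := T_nonneg v hv h
    have haa : √(48 / 125 : ℝ) ^ 2 = 48 / 125 := Real.sq_sqrt (by norm_num)
    have e1 : √(3 / 5 : ℝ) ^ 2 = 3 / 5 := Real.sq_sqrt (by norm_num)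
    have e2 : √v ^ 2 = v := Real.sq_sqrt hv
    have e3 : (√(3 / 5) * √v) ^ 2 = 3 / 5 * v := by rw [mul_pow, e1, e2]
    have hgoal := core (22 / 5) √(48 / 125) (31 / 100 * (19 / 20 - v))
      (1 + 12 / 5 * v + 9 / 25 * v ^ 2)
      ((1 - v) ^ 2 + 151 / 160000 - 31 / 400 * (19 / 20 - v) ^ 2) (1 - 3 / 5 * v) √q W
      (by norm_num) (by positivity) (by nlinarith) (by positivity) (by linarith)
      (Real.sqrt_nonneg _) (by nlinarith)
      (by rw [haa]; exact A_pos v hv h) (by rw [haa]; linarith) (by norm_num) hW0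
      (by
        intro t ht
        have h1 := hW (√(3 / 5) * √v) t (by positivity) ht
        have e4 : 2 * (√(3 / 5) * √v) * √(3 / 5) * √v = 6 / 5 * v := by
          have : 2 * (√(3 / 5) * √v) * √(3 / 5) * √v = 2 * (√(3 / 5) ^ 2) * (√v ^ 2) := by ring
          rw [this, e1, e2]; ring
        have e5 : (√(3 / 5) * √v) ^ 4 = 9 / 25 * v ^ 2 := by
          have : (√(3 / 5) * √v) ^ 4 = ((√(3 / 5) * √v) ^ 2) ^ 2 := by ring
          rw [this, e3]; ring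
        rw [e4, e3, e5] at h1
        linarith)
    rw [Real.sq_sqrt hq] at hgoal
    linarith
  · have hh' : hh v = 0 := by
      unfold hh; rw [max_eq_left (by linarith)]; ring
    rw [hh', HH_of_ge h]
    have e2 : √v ^ 2 = v := Real.sq_sqrt hv
    unfold BB
    rcases le_total √v 1 with h1 | h1
    · rw [max_eq_left (by linarith)]
      nlinarith [sq_nonneg (v - 1)]
    · rw [max_eq_right (by linarith)]
      have key : 0 ≤ (√v ^ 2) ^ 2 - 2 * √v ^ 2 + 931 / 1000 - 22 / 5 * (√v - 1) ^ 2 +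
          31 / 200 * ((19 / 20) ^ 2 / 2) := by
        obtain ⟨e, he, he0⟩ : ∃ e : ℝ, √v = 1 + e ∧ 0 ≤ e := ⟨√v - 1, by ring, by linarith⟩
        rw [he]
        nlinarith [mul_nonneg he0 (sq_nonneg (e - 1 / 15)), sq_nonneg (e * (e - 1 / 15)),
          sq_nonneg (e ^ 2), mul_nonneg he0 (sq_nonneg e), sq_nonneg (e - 1 / 15)]
      rw [e2] at key
      linarith

end Pool.Agent.Helper65.ET
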