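import Pool.Agent.Helper65.ET.Window

set_option autoImplicit false

open MeasureTheory Metric Real Set Filter

/-!
# From scales to densities
-/

namespace Pool.Agent.Helper65.ET

open Classical in
/-- indicator function -/
noncomputable def ind (A : Set ℕ) (n : ℕ) : ℝ := if n ∈ A then 1 else 0

lemma ind_zero_or_one (A : Set ℕ) (n : ℕ) : ind A n = 0 ∨ ind A n = 1 := by
  unfold ind; split_ifs <;> simp

lemma ind_nonneg (A : Set ℕ) (n : ℕ) : 0 ≤ ind A n := a_nonneg (ind_zero_or_one A) n
lemma ind_le_one (A : Set ℕ) (n : ℕ) : ind A n ≤ 1 := a_le_one (ind_zero_or_one A) n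

/-- the set `2 A` of the doubles -/
def dbl (A : Set ℕ) : Set ℕ := {n | ∃ a ∈ A, n = 2 * a}

lemma tsum_dbl (A : Set ℕ) {t : ℝ} : ∑' n : ℕ, ind (dbl A) n * exp (-(t * n)) = Fr (ind A) (2 * t) := by
  have hinj : Function.Injective (fun m : ℕ => 2 * m) := fun x y h => by simpa using h
  unfold Fr
  rw [← hinj.tsum_eq]
  · refine tsum_congr fun m => ?_
    have h1 : ind (dbl A) (2 * m) = ind A m := by
      unfold ind
      congr 1
      apply propext
      constructor
      · rintro ⟨a, ha, h⟩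
        have : m = a := by omega
        rwa [this]
      · intro h; exact ⟨m, h, rfl⟩
    rw [h1]
    congr 2
    push_cast; ring
  · intro n hn
    rw [Function.mem_support] at hn
    have h1 : ind (dbl A) n ≠ 0 := left_ne_zero_of_mul hn
    unfold ind at h1
    have h2 : n ∈ dbl A := by
      by_contra h; exact h1 (if_neg h)
    obtain ⟨a, _, rfl⟩ := h2
    exact ⟨a, rfl⟩

/-- the sum over `X` of `e^{-tn}` -/
lemma tsum_ind_le (X : Set ℕ) (N : ℕ) {t : ℝ} (ht : 0 < t) :
    ∑' n : ℕ, ind X n * exp (-(t * n)) ≤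
      ({n | n < N ∧ n ∈ X}.ncard : ℝ) + exp (-(t * N)) * ((1 + t) / t) := by
  classical
  have hs := summable_a (ind_zero_or_one X) ht
  rw [← hs.sum_add_tsum_nat_add N]
  have h1 : ∑ n ∈ Finset.range N, ind X n * exp (-(t * n)) ≤ ({n | n < N ∧ n ∈ X}.ncard : ℝ) := by
    have h2 : {n | n < N ∧ n ∈ X} = (((Finset.range N).filter (fun n => n ∈ X) : Finset ℕ) : Set ℕ) := by
      ext n; simp
    rw [h2, Set.ncard_coe_finset, Finset.card_filter]
    push_cast
    refine Finset.sum_le_sum fun n _ => ?_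
    have h3 : exp (-(t * n)) ≤ 1 := by
      rw [Real.exp_le_one_iff, neg_nonpos]; positivity
    unfold ind
    split_ifs
    · simpa using h3
    · simp
  have h2 : ∑' n : ℕ, ind X (n + N) * exp (-(t * ((n + N : ℕ) : ℝ))) ≤
      exp (-(t * N)) * ((1 + t) / t) := by
    have h3 : ∀ n : ℕ, ind X (n + N) * exp (-(t * ((n + N : ℕ) : ℝ))) ≤
        exp (-(t * N)) * exp (-(t * n)) := by
      intro n
      have e : exp (-(t * ((n + N : ℕ) : ℝ))) = exp (-(t * N)) * exp (-(t * n)) := by
        rw [← Real.exp_add]; congr 1; push_cast; ring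
      rw [e]
      have h4 := ind_le_one X (n + N)
      have h5 : 0 ≤ exp (-(t * N)) * exp (-(t * n)) := by positivity
      nlinarith
    calc _ ≤ ∑' n : ℕ, exp (-(t * N)) * exp (-(t * n)) := by
          refine ((summable_nat_add_iff N).mpr hs).tsum_le_tsum h3 ((summable_exp ht).mul_left _)
      _ = exp (-(t * N)) * ∑' n : ℕ, exp (-(t * n)) := tsum_mul_left
      _ ≤ _ := by
          have := tsum_exp_le ht
          gcongr
  linarith

set_option maxHeartbeats 1000000 in
/-- main density statement in terms of the ordered representation function -/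
theorem density {C l K : ℝ} (hC0 : 0 ≤ C) (hl : 1 ≤ l) (hlK : l ≤ K)
    (h : 2 * (√K - √l) ^ 2 < 1000 / 931) :
    ∃ c : ℝ, 0 < c ∧ ∃ N₀ : ℕ, ∀ A X : Set ℕ, (∀ n, RR (ind A) n ≤ C) →
      (∀ n, n ∉ X → n ∉ dbl A → 2 * l ≤ RR (ind A) n ∧ RR (ind A) n ≤ 2 * K) →
      ∀ N : ℕ, N₀ ≤ N → c * N ≤ ({n | n < N ∧ n ∈ X}.ncard : ℝ) := by
  obtain ⟨T, hT, ε, hε, hwin'⟩ := no_window hl hlK h hC0
  set C2 := (C + 2 * l) * (C + 2 * K) with hC2
  have hC20 : 0 < C2 := by
    have h1 : 0 < C + 2 * l := by linarith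
    have h2 : 0 < C + 2 * K := by linarith
    positivity
  -- choice of the parameters
  set W := 9 * C2 / ε + 1 with hW
  have hW0 : 1 ≤ W := by rw [hW]; have : 0 ≤ 9 * C2 / ε := by positivity
                         linarith
  set c := ε / (4 * C2 * W * exp T) with hc
  have hc0 : 0 < c := by positivity
  -- large `N`
  have hlim : Tendsto (fun N : ℕ => C2 * (√(W * exp T / N) * √(10 * C))) atTop (nhds 0) := by
    have h1 : Tendsto (fun N : ℕ => W * exp T / (N : ℝ)) atTop (nhds 0) :=
      tendsto_const_div_atTop_nhds_zero_nat _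
    have h2 := (Real.continuous_sqrt.tendsto 0).comp h1
    rw [Real.sqrt_zero] at h2
    have h3 := (h2.mul_const √(10 * C)).const_mul C2
    simpa using h3
  have hev := hlim.eventually (gt_mem_nhds (show (0 : ℝ) < ε / 4 by positivity))
  obtain ⟨N0, hN0⟩ := exists_nat_ge (W * exp T)
  obtain ⟨N1, hN1'⟩ := eventually_atTop.mp hev
  refine ⟨c, hc0, max N1 (N0 + 1), fun A X hC hX N hNN => ?_⟩
  have hN1 := hN1' N ((le_max_left _ _).trans hNN)
  have hN2 : N0 + 1 ≤ N := (le_max_right _ _).trans hNN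
  have ha := ind_zero_or_one A
  have hwin := hwin' (ind A) ha hC
  -- pointwise bound for `Ex`
  have hEx : ∀ n, Ex (ind A) l K n ≤ C2 * ind X n + C2 * ind (dbl A) n := by
    intro n
    have h0 := Ex_le ha hC (show 0 ≤ l by linarith) (show 0 ≤ K by linarith) n
    by_cases h1 : n ∈ X
    · have e : ind X n = 1 := if_pos h1
      have := ind_nonneg (dbl A) n
      rw [e]; nlinarith
    · by_cases h2 : n ∈ dbl A
      · have e : ind (dbl A) n = 1 := if_pos h2
        have := ind_nonneg X n
        rw [e]; nlinarith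
      · obtain ⟨h3, h4⟩ := hX n h1 h2
        have h5 := ind_nonneg X n
        have h6 := ind_nonneg (dbl A) n
        have : Ex (ind A) l K n = 0 := by
          unfold Ex
          apply max_eq_left
          nlinarith
        rw [this]; positivity
  -- bound for `Bt`
  have hBt : ∀ (N : ℕ) (τ : ℝ), 0 ≤ τ → Bt (ind A) l K τ ≤
      C2 * (exp (-τ) * ({n | n < N ∧ n ∈ X}.ncard : ℝ) + 3 / 2 * exp (-(2 * exp (-τ) * N)) +
        √(exp (-τ)) * √(10 * C)) := by
    intro N τ hτ
    set y := exp (-τ) with hy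
    have hy0 : 0 < y := exp_pos _
    have hy1 : y ≤ 1 := by rw [hy, Real.exp_le_one_iff]; linarith
    have h2y : 0 < 2 * y := by positivity
    have s1 := (summable_a (ind_zero_or_one X) h2y).mul_left C2
    have s2 := (summable_a (ind_zero_or_one (dbl A)) h2y).mul_left C2
    have h1 : ∑' n : ℕ, Ex (ind A) l K n * exp (-(2 * y * n)) ≤
        C2 * (∑' n : ℕ, ind X n * exp (-(2 * y * n))) +
          C2 * ∑' n : ℕ, ind (dbl A) n * exp (-(2 * y * n)) := by
      rw [← tsum_mul_left, ← tsum_mul_left, ← s1.tsum_add s2]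
      refine (summable_Ex ha hC (by linarith) (by linarith) h2y).tsum_le_tsum (fun n => ?_)
        (s1.add s2)
      have h2 := exp_pos (-(2 * y * n))
      have h3 := hEx n
      nlinarith
    have h2 := tsum_ind_le X N h2y
    have h3 : ∑' n : ℕ, ind (dbl A) n * exp (-(2 * y * n)) ≤ Fr (ind A) (2 * y) := by
      rw [tsum_dbl]
      exact Fr_anti ha h2y (by linarith)
    have h4 := sqrt_mul_Fr_le ha hC hy0 (by linarith)
    have h5 : y * Fr (ind A) (2 * y) ≤ √y * √(10 * C) := by
      have e : y = √y * √y := (Real.mul_self_sqrt hy0.le).symm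
      calc y * Fr (ind A) (2 * y) = √y * (√y * Fr (ind A) (2 * y)) := by
            rw [← mul_assoc, ← e]
        _ ≤ √y * √(10 * C) := by gcongr
    unfold Bt
    rw [← hy]
    calc y * ∑' n : ℕ, Ex (ind A) l K n * exp (-(2 * y * n))
        ≤ y * (C2 * (({n | n < N ∧ n ∈ X}.ncard : ℝ) +
            exp (-(2 * y * N)) * ((1 + 2 * y) / (2 * y))) + C2 * Fr (ind A) (2 * y)) := by
          gcongr
          refine h1.trans ?_
          gcongr
      _ = C2 * (y * ({n | n < N ∧ n ∈ X}.ncard : ℝ) +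
            exp (-(2 * y * N)) * ((1 + 2 * y) / 2) + y * Fr (ind A) (2 * y)) := by
          field_simp
      _ ≤ C2 * (y * ({n | n < N ∧ n ∈ X}.ncard : ℝ) +
            exp (-(2 * y * N)) * (3 / 2) + √y * √(10 * C)) := by
          gcongr
          linarith
      _ = _ := by ring
  by_contra hcon
  push Not at hcon
  have hN : W * exp T < N := by
    have : (N0 : ℝ) + 1 ≤ N := by exact_mod_cast hN2
    linarith
  have hNpos : (0 : ℝ) < N := lt_trans (by positivity) hN
  -- the window
  have hu : 0 ≤ log (N / W) - T := by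
    have h1 : exp T ≤ N / W := by
      rw [le_div_iff₀ (by linarith)]; nlinarith
    have h2 := Real.log_le_log (exp_pos T) h1
    rw [Real.log_exp] at h2
    linarith
  obtain ⟨τ, hτ, hτB⟩ := hwin _ hu
  have hτ0 : 0 ≤ τ := hu.trans hτ.1
  have hy2 : W / N ≤ exp (-τ) := by
    have h1 : τ ≤ log (N / W) := by linarith [hτ.2]
    have h2 : exp τ ≤ N / W := by
      calc exp τ ≤ exp (log (N / W)) := by gcongr
        _ = N / W := Real.exp_log (by positivity)
    rw [Real.exp_neg, le_inv_comm₀ (by positivity) (exp_pos _), inv_div]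
    exact h2
  have hy3 : exp (-τ) ≤ W * exp T / N := by
    have h1 : log (N / W) - T ≤ τ := hτ.1
    have h2 : exp (log (N / W) - T) ≤ exp τ := by gcongr
    rw [Real.exp_sub, Real.exp_log (by positivity)] at h2
    rw [Real.exp_neg, inv_le_comm₀ (exp_pos _) (by positivity), inv_div]
    refine le_trans (le_of_eq ?_) h2
    field_simp
  have hB := hBt N τ hτ0
  have p1 : C2 * (exp (-τ) * ({n | n < N ∧ n ∈ X}.ncard : ℝ)) ≤ ε / 4 := by
    calc C2 * (exp (-τ) * ({n | n < N ∧ n ∈ X}.ncard : ℝ)) ≤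
        C2 * ((W * exp T / N) * (c * N)) := by gcongr
      _ = ε / 4 := by
        rw [hc]
        have : W ≠ 0 := by linarith
        field_simp
  have p2 : C2 * (3 / 2 * exp (-(2 * exp (-τ) * N))) ≤ ε / 4 := by
    have h1 : 2 * W ≤ 2 * exp (-τ) * N := by
      have := mul_le_mul_of_nonneg_right hy2 hNpos.le
      rw [div_mul_cancel₀ _ hNpos.ne'] at this
      linarith
    have h2 : exp (-(2 * exp (-τ) * N)) ≤ exp (-(2 * W)) := by gcongr
    have h3 : exp (-(2 * W)) ≤ 1 / (2 * W) := by
      rw [Real.exp_neg, ← one_div]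
      apply one_div_le_one_div_of_le (by positivity)
      linarith [Real.add_one_le_exp (2 * W)]
    have h4 : 9 * C2 / ε ≤ W := by rw [hW]; linarith
    rw [div_le_iff₀ hε] at h4
    calc C2 * (3 / 2 * exp (-(2 * exp (-τ) * N))) ≤ C2 * (3 / 2 * (1 / (2 * W))) := by
          gcongr; exact h2.trans h3
      _ = 3 / 4 * C2 / W := by field_simp; ring
      _ ≤ ε / 4 := by
          rw [div_le_iff₀ (by linarith)]
          nlinarith
  have p3 : C2 * (√(exp (-τ)) * √(10 * C)) ≤ ε / 4 := by
    have h1 : √(exp (-τ)) ≤ √(W * exp T / N) := Real.sqrt_le_sqrt hy3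
    calc C2 * (√(exp (-τ)) * √(10 * C)) ≤ C2 * (√(W * exp T / N) * √(10 * C)) := by gcongr
      _ ≤ ε / 4 := hN1.le
  nlinarith

end Pool.Agent.Helper65.ET
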