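import Mathlib

set_option autoImplicit false

/-!
# Parseval for absolutely convergent power series on a circle (`z = e^{-s}`, `s = y + i x`)

The proof follows the library module `W165.RS.Parseval`.
-/

namespace Pool.Agent.Helper65.ET

open MeasureTheory Filter Topology Complex
open scoped ComplexConjugate

/-- `e^{-imx}` -/
noncomputable def ee (m : ℤ) (x : ℝ) : ℂ := Complex.exp (-(m * x) * I)

lemma norm_ee (m : ℤ) (x : ℝ) : ‖ee m x‖ = 1 := by
  unfold ee
  rw [show (-(m * x) * I : ℂ) = ((-(m * x) : ℝ) : ℂ) * I by push_cast; ring]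
  exact Complex.norm_exp_ofReal_mul_I _

lemma ee_mul (m n : ℤ) (x : ℝ) : ee m x * ee n x = ee (m + n) x := by
  unfold ee
  rw [← Complex.exp_add]
  congr 1; push_cast; ring

lemma conj_ee (m : ℤ) (x : ℝ) : conj (ee m x) = ee (-m) x := by
  unfold ee
  rw [← Complex.exp_conj]
  congr 1
  simp [Complex.conj_ofReal]

lemma continuous_ee (m : ℤ) : Continuous (ee m) := by
  unfold ee; fun_prop

lemma integral_ee (m : ℤ) : ∫ x in (0:ℝ)..2 * Real.pi, ee m x =
    if m = 0 then 2 * (Real.pi : ℂ) else 0 := by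
  unfold ee
  by_cases hm : m = 0
  · subst hm; simp
  · rw [if_neg hm]
    have hc : (-m * I : ℂ) ≠ 0 := by
      simp [hm]
    have h := integral_exp_mul_complex (a := 0) (b := 2 * Real.pi) hc
    have e : ∀ x : ℝ, Complex.exp (-(m * x) * I) = Complex.exp (-m * I * x) := by
      intro x; congr 1; ring
    simp_rw [e]
    rw [h]
    have h1 : Complex.exp (-m * I * ((2 * Real.pi : ℝ) : ℂ)) = 1 := by
      rw [Complex.exp_eq_one_iff]
      exact ⟨-m, by push_cast; ring⟩
    rw [h1]
    simp

/-- Parseval -/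
lemma parseval {c : ℕ → ℂ} (hc : Summable (fun n => ‖c n‖)) :
    HasSum (fun n => 2 * Real.pi * ‖c n‖ ^ 2)
      (∫ x in (0:ℝ)..2 * Real.pi, ‖∑' n, c n * ee n x‖ ^ 2) := by
  set g : ℝ → ℂ := fun x => ∑' n, c n * ee n x with hg
  have hsum : ∀ x, Summable (fun n : ℕ => c n * ee n x) := by
    intro x
    refine Summable.of_norm ?_
    simpa [norm_mul, norm_ee] using hc
  have hgc : Continuous g := by
    refine continuous_tsum (fun n => (continuous_const.mul (continuous_ee n))) hc ?_
    intro n x
    rw [norm_mul, norm_ee, mul_one]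
  have hterm : ∀ (h : ℝ → ℂ) (M : ℝ), Continuous h → (∀ x, ‖h x‖ ≤ M) →
      HasSum (fun n : ℕ => ∫ x in (0:ℝ)..2 * Real.pi, (c n * ee n x) * h x)
        (∫ x in (0:ℝ)..2 * Real.pi, g x * h x) := by
    intro h M hh hb
    refine intervalIntegral.hasSum_integral_of_dominated_convergence
      (fun n _ => ‖c n‖ * M) ?_ ?_ ?_ ?_ ?_
    · intro n
      exact ((continuous_const.mul (continuous_ee n)).mul hh).aestronglyMeasurable
    · intro n
      refine Eventually.of_forall fun x _ => ?_
      rw [norm_mul, norm_mul, norm_ee, mul_one]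
      gcongr
      exact hb x
    · exact Eventually.of_forall fun x _ => hc.mul_right _
    · exact intervalIntegrable_const
    · refine Eventually.of_forall fun x _ => ?_
      exact (hsum x).hasSum.mul_right (h x)
  have hgb : ∀ x, ‖g x‖ ≤ ∑' n, ‖c n‖ := by
    intro x
    refine (norm_tsum_le_tsum_norm ?_).trans (le_of_eq ?_)
    · simpa [norm_mul, norm_ee] using hc
    · refine tsum_congr fun n => ?_
      rw [norm_mul, norm_ee, mul_one]
  -- coefficients
  have hcoef : ∀ m : ℕ, ∫ x in (0:ℝ)..2 * Real.pi, g x * ee (-m) x = c m * (2 * Real.pi) := by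
    intro m
    have h1 := hterm (ee (-m)) 1 (continuous_ee _) (fun x => (norm_ee _ x).le)
    have h2 : ∀ n : ℕ, ∫ x in (0:ℝ)..2 * Real.pi, (c n * ee n x) * ee (-m) x =
        if n = m then c m * (2 * Real.pi) else 0 := by
      intro n
      simp_rw [mul_assoc, ee_mul]
      rw [intervalIntegral.integral_const_mul, integral_ee]
      by_cases h : n = m
      · subst h; simp
      · rw [if_neg h, if_neg (by omega), mul_zero]
    simp_rw [h2] at h1
    rw [← h1.tsum_eq, tsum_ite_eq]
  have h3 := hterm (fun x => conj (g x)) _ (Complex.continuous_conj.comp hgc)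
    (fun x => by rw [Complex.norm_conj]; exact hgb x)
  have h4 : ∀ n : ℕ, ∫ x in (0:ℝ)..2 * Real.pi, (c n * ee n x) * conj (g x) =
      ((2 * Real.pi * ‖c n‖ ^ 2 : ℝ) : ℂ) := by
    intro n
    simp_rw [mul_assoc]
    rw [intervalIntegral.integral_const_mul]
    have h5 : ∫ x in (0:ℝ)..2 * Real.pi, ee n x * conj (g x) = conj (c n * (2 * Real.pi)) := by
      rw [← hcoef n, ← intervalIntegral.intervalIntegral_conj]
      refine intervalIntegral.integral_congr fun x _ => ?_
      simp only [map_mul, conj_ee, neg_neg]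
      ring
    rw [h5, map_mul, ← mul_assoc, Complex.mul_conj, Complex.normSq_eq_norm_sq]
    have : conj (2 * (Real.pi : ℂ)) = 2 * Real.pi := by
      rw [show (2 * (Real.pi : ℂ)) = ((2 * Real.pi : ℝ) : ℂ) by push_cast; ring,
        Complex.conj_ofReal]
    rw [this]
    push_cast
    ring
  simp_rw [h4] at h3
  have h6 : ∀ x, g x * conj (g x) = ((‖g x‖ ^ 2 : ℝ) : ℂ) := by
    intro x; rw [Complex.mul_conj, Complex.normSq_eq_norm_sq]
  simp_rw [h6] at h3
  rw [intervalIntegral.integral_ofReal] at h3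
  exact_mod_cast h3

end Pool.Agent.Helper65.ET
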