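import Pool.Agent.Helper65.ET.Ana
import Pool.Agent.Helper65.ET.Parseval

set_option autoImplicit false

open MeasureTheory Metric Real Set

/-!
# Power series in `e^{-s}`
-/

namespace Pool.Agent.Helper65.ET

/-- `∑ c_n e^{-ns}` -/
noncomputable def Dir (c : ℕ → ℝ) (s : ℂ) : ℂ := ∑' n : ℕ, (c n : ℂ) * Complex.exp (-(n * s))

/-- `∑ |c_n| e^{-εn} < ∞` for all `ε > 0` -/
def Adm (c : ℕ → ℝ) : Prop := ∀ ε : ℝ, 0 < ε → Summable (fun n : ℕ => |c n| * exp (-(ε * n)))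

/-- the coefficients of the derivative -/
noncomputable def dc (c : ℕ → ℝ) : ℕ → ℝ := fun n => -(n : ℝ) * c n

lemma mul_exp_le (ε : ℝ) (hε : 0 < ε) (x : ℝ) : x * exp (-(ε * x)) ≤ 1 / ε := by
  have h1 : ε * x ≤ exp (ε * x) := (by linarith [Real.add_one_le_exp (ε * x)])
  rw [Real.exp_neg, ← div_eq_mul_inv, div_le_div_iff₀ (exp_pos _) hε]
  linarith

lemma Adm.dc {c : ℕ → ℝ} (h : Adm c) : Adm (dc c) := by
  intro ε hε
  have h1 := (h (ε / 2) (by positivity)).mul_left (1 / (ε / 2))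
  refine Summable.of_nonneg_of_le (fun n => by positivity) (fun n => ?_) h1
  unfold ET.dc
  rw [abs_mul, abs_neg, Nat.abs_cast]
  have h2 := mul_exp_le (ε / 2) (by positivity) (n : ℝ)
  have h3 : exp (-(ε * n)) = exp (-(ε / 2 * n)) * exp (-(ε / 2 * n)) := by
    rw [← Real.exp_add]; congr 1; ring
  rw [h3]
  calc (n : ℝ) * |c n| * (exp (-(ε / 2 * n)) * exp (-(ε / 2 * n)))
      = (n * exp (-(ε / 2 * n))) * (|c n| * exp (-(ε / 2 * n))) := by ring
    _ ≤ 1 / (ε / 2) * (|c n| * exp (-(ε / 2 * n))) := by gcongr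

lemma norm_term (c : ℕ → ℝ) (n : ℕ) (s : ℂ) :
    ‖(c n : ℂ) * Complex.exp (-(n * s))‖ = |c n| * exp (-(s.re * n)) := by
  rw [norm_mul, Complex.norm_real, Real.norm_eq_abs, Complex.norm_exp]
  congr 2
  simp; ring

lemma Adm.summable_norm {c : ℕ → ℝ} (h : Adm c) {s : ℂ} (hs : 0 < s.re) :
    Summable (fun n : ℕ => ‖(c n : ℂ) * Complex.exp (-(n * s))‖) := by
  simp_rw [norm_term]
  exact h _ hs

lemma Adm.summable {c : ℕ → ℝ} (h : Adm c) {s : ℂ} (hs : 0 < s.re) :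
    Summable (fun n : ℕ => (c n : ℂ) * Complex.exp (-(n * s))) :=
  (h.summable_norm hs).of_norm

lemma norm_Dir_le {c : ℕ → ℝ} (h : Adm c) {s : ℂ} (hs : 0 < s.re) :
    ‖Dir c s‖ ≤ ∑' n : ℕ, |c n| * exp (-(s.re * n)) := by
  unfold Dir
  refine (norm_tsum_le_tsum_norm (h.summable_norm hs)).trans (le_of_eq ?_)
  exact tsum_congr fun n => norm_term c n s

lemma hasDerivAt_Dir {c : ℕ → ℝ} (h : Adm c) {s : ℂ} (hs : 0 < s.re) :
    HasDerivAt (Dir c) (Dir (dc c) s) s := by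
  have hopen : IsOpen {z : ℂ | s.re / 2 < z.re} := isOpen_lt continuous_const Complex.continuous_re
  have hconv : Convex ℝ {z : ℂ | s.re / 2 < z.re} := convex_halfSpace_re_gt _
  have hmem : s ∈ {z : ℂ | s.re / 2 < z.re} := by
    show s.re / 2 < s.re
    linarith
  refine hasDerivAt_tsum_of_isPreconnected (h.dc (s.re / 2) (by positivity)) hopen
    hconv.isPreconnected (g := fun (n : ℕ) (z : ℂ) => (c n : ℂ) * Complex.exp (-(n * z)))
    (g' := fun (n : ℕ) (z : ℂ) => (dc c n : ℂ) * Complex.exp (-(n * z))) ?_ ?_ hmem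
    (h.summable hs) hmem
  · intro n z _
    have h1 : HasDerivAt (fun z : ℂ => -((n : ℂ) * z)) (-(n : ℂ)) z := by
      have h0 := (hasDerivAt_id z).const_mul (-(n : ℂ))
      simp only [neg_mul, mul_one] at h0
      exact h0
    have h2 := h1.cexp.const_mul (c n : ℂ)
    refine h2.congr_deriv ?_
    unfold dc
    push_cast
    ring
  · intro n z hz
    rw [norm_term]
    have hz' : s.re / 2 < z.re := hz
    have : exp (-(z.re * n)) ≤ exp (-(s.re / 2 * n)) := by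
      gcongr
    gcongr

lemma Dir_periodic (c : ℕ → ℝ) (s : ℂ) : Dir c (s + 2 * π * Complex.I) = Dir c s := by
  unfold Dir
  refine tsum_congr fun n => ?_
  congr 1
  rw [Complex.exp_eq_exp_iff_exists_int]
  exact ⟨-n, by push_cast; ring⟩

theorem per_Dir {c : ℕ → ℝ} (h : Adm c) : Per (Dir c) (Dir (dc c)) (Dir (dc (dc c))) where
  d1 := fun _ hs => hasDerivAt_Dir h hs
  d2 := fun _ hs => hasDerivAt_Dir h.dc hs
  c2 := fun _ hs => (hasDerivAt_Dir h.dc.dc hs).continuousAt.continuousWithinAt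
  p0 := Dir_periodic _
  p1 := Dir_periodic _

theorem integral_norm_Dir {c : ℕ → ℝ} (h : Adm c) {y : ℝ} (hy : 0 < y) :
    ∫ x in (0 : ℝ)..2 * π, ‖Dir c (pt x y)‖ ^ 2 =
      2 * π * ∑' n : ℕ, c n ^ 2 * exp (-(2 * y * n)) := by
  have hc : Summable (fun n : ℕ => ‖((c n * exp (-(y * n)) : ℝ) : ℂ)‖) := by
    have := h y hy
    refine this.congr fun n => ?_
    rw [Complex.norm_real, norm_mul, Real.norm_eq_abs, Real.norm_of_nonneg (exp_pos _).le]
  have h1 := (parseval hc).tsum_eq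
  have e : ∀ x : ℝ, Dir c (pt x y) = ∑' n : ℕ, ((c n * exp (-(y * n)) : ℝ) : ℂ) * ee n x := by
    intro x
    unfold Dir ee pt
    refine tsum_congr fun n => ?_
    push_cast
    rw [mul_assoc, ← Complex.exp_add]
    congr 2
    ring
  simp_rw [e]
  rw [← h1, tsum_mul_left]
  congr 1
  refine tsum_congr fun n => ?_
  rw [Complex.norm_real, Real.norm_eq_abs, sq_abs, mul_pow, ← Real.exp_nat_mul]
  congr 2
  push_cast
  ring

end Pool.Agent.Helper65.ET
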