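import Pool.Agent.Helper65.ET.Cert

set_option autoImplicit false

open MeasureTheory Metric Real Set

/-!
# The flux identity

`F` analytic on the right half plane, `v = √y |F|²`, `a₁ = 2 y F' + F / 2`, `q = √y |a₁|²`.
For `h` with primitive `H = v κ(v)`:
`q h(v) - H(v) / 2 = y (∂_y (κ(v) Re Z - K(v)) - ∂_x (κ(v) Im Z))`, `Z = √y conj(F) a₁`.
-/

namespace Pool.Agent.Helper65.ET

/-- the point `y + i x` -/
noncomputable def pt (x y : ℝ) : ℂ := (y : ℂ) + x * Complex.I

lemma pt_re (x y : ℝ) : (pt x y).re = y := by simp [pt]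
lemma pt_im (x y : ℝ) : (pt x y).im = x := by simp [pt]

lemma pt_continuous : Continuous (fun z : ℝ × ℝ => pt z.1 z.2) := by
  unfold pt; fun_prop

lemma hasDerivAt_pt_y {F : ℂ → ℂ} {F' : ℂ} {x y : ℝ} (h : HasDerivAt F F' (pt x y)) :
    HasDerivAt (fun y => F (pt x y)) F' y := by
  have h1 : HasDerivAt (fun z : ℂ => z + x * Complex.I) 1 (y : ℂ) := by
    simpa using (hasDerivAt_id (y : ℂ)).add_const (x * Complex.I)
  have h2 : HasDerivAt (fun z : ℂ => F (z + x * Complex.I)) F' (y : ℂ) := by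
    have := HasDerivAt.comp (y : ℂ) (h₂ := F) (h := fun z : ℂ => z + x * Complex.I) h h1
    exact this.congr_deriv (mul_one _)
  exact h2.comp_ofReal

lemma hasDerivAt_pt_x {F : ℂ → ℂ} {F' : ℂ} {x y : ℝ} (h : HasDerivAt F F' (pt x y)) :
    HasDerivAt (fun x => F (pt x y)) (F' * Complex.I) x := by
  have h1 : HasDerivAt (fun z : ℂ => (y : ℂ) + z * Complex.I) Complex.I (x : ℂ) := by
    simpa using ((hasDerivAt_id (x : ℂ)).mul_const Complex.I).const_add (y : ℂ)
  have h2 : HasDerivAt (fun z : ℂ => F ((y : ℂ) + z * Complex.I)) (F' * Complex.I) (x : ℂ) := by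
    exact HasDerivAt.comp (x : ℂ) (h₂ := F) (h := fun z : ℂ => (y : ℂ) + z * Complex.I) h h1
  exact h2.comp_ofReal

lemma HasDerivAt.re' {f : ℝ → ℂ} {f' : ℂ} {x : ℝ} (h : HasDerivAt f f' x) :
    HasDerivAt (fun x => (f x).re) f'.re x :=
  (Complex.reCLM.hasFDerivAt.comp_hasDerivAt x h)

lemma HasDerivAt.im' {f : ℝ → ℂ} {f' : ℂ} {x : ℝ} (h : HasDerivAt f f' x) :
    HasDerivAt (fun x => (f x).im) f'.im x :=
  (Complex.imCLM.hasFDerivAt.comp_hasDerivAt x h)

/-- `κ(v) = H(v) / v` -/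
noncomputable def kap (v : ℝ) : ℝ :=
  if v ≤ 19 / 20 then -(31 / 100) * (19 / 20 - v / 2) else -(31 / 100) * ((19 / 20) ^ 2 / 2) / v

/-- `κ'(v)` -/
noncomputable def kap' (v : ℝ) : ℝ :=
  if v ≤ 19 / 20 then 31 / 200 else (31 / 100) * ((19 / 20) ^ 2 / 2) / v ^ 2

/-- `K(v)`, `K' = κ` -/
noncomputable def KK (v : ℝ) : ℝ :=
  if v ≤ 19 / 20 then -(31 / 100) * (19 / 20 * v - v ^ 2 / 4)
  else -(31 / 100) * (3 / 4 * (19 / 20) ^ 2 + (19 / 20) ^ 2 / 2 * log (v / (19 / 20)))

lemma ite_hasDerivAt {f g : ℝ → ℝ} {f' : ℝ → ℝ} {g' : ℝ → ℝ} (c : ℝ)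
    (hf : ∀ v ≤ c, HasDerivAt f (f' v) v) (hg : ∀ v, c ≤ v → HasDerivAt g (g' v) v)
    (hfg : f c = g c) (hfg' : f' c = g' c) (v : ℝ) :
    HasDerivAt (fun v => if v ≤ c then f v else g v) (if v ≤ c then f' v else g' v) v := by
  rcases lt_trichotomy v c with h | h | h
  · rw [if_pos h.le]
    refine (hf v h.le).congr_of_eventuallyEq ?_
    filter_upwards [Iio_mem_nhds h] with w hw
    rw [if_pos (le_of_lt hw)]
  · subst h
    rw [if_pos le_rfl]
    have h1 : HasDerivWithinAt (fun w => if w ≤ v then f w else g w) (f' v) (Iic v) v := by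
      refine (hf v le_rfl).hasDerivWithinAt.congr (fun w hw => if_pos hw) (if_pos le_rfl)
    have h2 : HasDerivWithinAt (fun w => if w ≤ v then f w else g w) (f' v) (Ici v) v := by
      rw [hfg']
      refine (hg v le_rfl).hasDerivWithinAt.congr (fun w hw => ?_) (by rw [if_pos le_rfl, hfg])
      rcases (show v ≤ w from hw).lt_or_eq with h3 | h3
      · rw [if_neg (not_le.mpr h3)]
      · rw [← h3, if_pos le_rfl, hfg]
    have h3 := h1.union h2
    rw [Iic_union_Ici, hasDerivWithinAt_univ] at h3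
    exact h3
  · rw [if_neg (not_le.mpr h)]
    refine (hg v h.le).congr_of_eventuallyEq ?_
    filter_upwards [Ioi_mem_nhds h] with w hw
    rw [if_neg (not_le.mpr hw)]

lemma hasDerivAt_kap (v : ℝ) : HasDerivAt kap (kap' v) v := by
  unfold kap kap'
  refine ite_hasDerivAt (f := fun v => -(31 / 100) * (19 / 20 - v / 2))
    (g := fun v => -(31 / 100) * ((19 / 20) ^ 2 / 2) / v) (f' := fun _ => 31 / 200)
    (g' := fun v => (31 / 100) * ((19 / 20) ^ 2 / 2) / v ^ 2) (19 / 20) ?_ ?_ (by norm_num)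
    (by norm_num) v
  · intro v _
    have h1 : HasDerivAt (fun v : ℝ => 19 / 20 - v / 2) (-(1 / 2)) v := by
      simpa using ((hasDerivAt_id v).div_const 2).const_sub (19 / 20)
    exact (h1.const_mul (-(31 / 100) : ℝ)).congr_deriv (by norm_num)
  · intro v hv
    have hv0 : v ≠ 0 := by linarith
    have := (hasDerivAt_inv hv0).const_mul (-(31 / 100) * ((19 / 20) ^ 2 / 2) : ℝ)
    refine (this.congr_deriv ?_).congr_of_eventuallyEq (Filter.Eventually.of_forall fun w => ?_)
    · field_simp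
    · simp only [div_eq_mul_inv]

lemma hasDerivAt_KK (v : ℝ) : HasDerivAt KK (kap v) v := by
  unfold kap KK
  refine ite_hasDerivAt (f := fun v => -(31 / 100) * (19 / 20 * v - v ^ 2 / 4))
    (g := fun v => -(31 / 100) * (3 / 4 * (19 / 20) ^ 2 + (19 / 20) ^ 2 / 2 * log (v / (19 / 20))))
    (f' := fun v => -(31 / 100) * (19 / 20 - v / 2))
    (g' := fun v => -(31 / 100) * ((19 / 20) ^ 2 / 2) / v) (19 / 20) ?_ ?_ ?_ ?_ v
  · intro v _
    have h1 : HasDerivAt (fun v : ℝ => 19 / 20 * v - v ^ 2 / 4) (19 / 20 - v / 2) v := by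
      have h2 := ((hasDerivAt_id v).const_mul (19 / 20)).sub
        (((hasDerivAt_id v).fun_pow 2).div_const 4)
      refine h2.congr_deriv ?_
      simp; ring
    exact h1.const_mul (-(31 / 100) : ℝ)
  · intro v hv
    have hv0 : v ≠ 0 := by linarith
    have h1 : HasDerivAt (fun v : ℝ => log (v / (19 / 20))) (1 / v) v := by
      have h2 : HasDerivAt (fun v : ℝ => v / (19 / 20)) (1 / (19 / 20)) v :=
        (hasDerivAt_id v).div_const (19 / 20)
      have h3 := h2.log (by positivity)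
      refine h3.congr_deriv ?_
      field_simp
    have h4 := ((h1.const_mul ((19 / 20) ^ 2 / 2 : ℝ)).const_add (3 / 4 * (19 / 20) ^ 2)).const_mul
      (-(31 / 100) : ℝ)
    refine h4.congr_deriv ?_
    field_simp
  · norm_num
  · norm_num

lemma kap_continuous : Continuous kap :=
  continuous_iff_continuousAt.mpr fun v => (hasDerivAt_kap v).continuousAt

lemma KK_continuous : Continuous KK :=
  continuous_iff_continuousAt.mpr fun v => (hasDerivAt_KK v).continuousAt

lemma kap'_eq (v : ℝ) : kap' v = (31 / 200) * ((19 / 20) ^ 2 / (max (19 / 20) v) ^ 2) := by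
  unfold kap'
  split_ifs with h
  · rw [max_eq_left h]; norm_num
  · rw [max_eq_right (not_le.mp h).le]; ring

lemma kap'_continuous : Continuous kap' := by
  have : kap' = fun v => (31 / 200) * ((19 / 20) ^ 2 / (max (19 / 20) v) ^ 2) := by
    funext v; exact kap'_eq v
  rw [this]
  apply Continuous.mul continuous_const
  apply Continuous.div continuous_const (by fun_prop)
  intro v
  have : 0 < max (19 / 20 : ℝ) v := lt_max_of_lt_left (by norm_num)
  positivity

lemma HH_eq (v : ℝ) : HH v = v * kap v := by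
  unfold HH kap
  split_ifs with h
  · ring
  · have : v ≠ 0 := by linarith [not_le.mp h]
    field_simp

lemma hh_eq (v : ℝ) : hh v = kap v + v * kap' v := by
  unfold hh kap kap'
  split_ifs with h
  · rw [max_eq_right (by linarith)]; ring
  · have : v ≠ 0 := by linarith [not_le.mp h]
    rw [max_eq_left (by linarith [not_le.mp h])]
    field_simp
    ring

lemma abs_kap_le {v : ℝ} (hv : 0 ≤ v) : |kap v| ≤ 1 := by
  unfold kap
  split_ifs with h
  · rw [abs_le]; constructor <;> linarith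
  · have h1 := not_le.mp h
    have h0 : 0 < v := by linarith
    rw [abs_div, div_le_one (by positivity), abs_of_pos h0]
    norm_num [abs_of_pos]
    linarith

lemma abs_KK_le {v : ℝ} (hv : 0 ≤ v) : |KK v| ≤ v := by
  -- mean value theorem
  have h1 : ∀ x ∈ Icc (0 : ℝ) v, ‖KK x - KK 0‖ ≤ 1 * (x - 0) := by
    apply norm_image_sub_le_of_norm_deriv_le_segment' (f' := kap)
    · intro x _; exact (hasDerivAt_KK x).hasDerivWithinAt
    · intro x hx; exact abs_kap_le hx.1
  have h2 := h1 v ⟨hv, le_rfl⟩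
  have h3 : KK 0 = 0 := by unfold KK; norm_num
  rw [h3, sub_zero, sub_zero, one_mul, Real.norm_eq_abs] at h2
  exact h2

end Pool.Agent.Helper65.ET
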