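import Pool.Agent.Helper65.ET.Flux

set_option autoImplicit false

open MeasureTheory Metric Real Set

/-!
# The integrated flux identity
-/

namespace Pool.Agent.Helper65.ET

/-- `v(x, y) = √y |F(y + i x)|²` -/
noncomputable def vv (F : ℂ → ℂ) (x y : ℝ) : ℝ :=
  √y * ((F (pt x y)).re ^ 2 + (F (pt x y)).im ^ 2)

/-- `Re Z` -/
noncomputable def zr (F F1 : ℂ → ℂ) (x y : ℝ) : ℝ :=
  √y * (2 * y * ((F (pt x y)).re * (F1 (pt x y)).re + (F (pt x y)).im * (F1 (pt x y)).im) +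
    ((F (pt x y)).re ^ 2 + (F (pt x y)).im ^ 2) / 2)

/-- `Im Z` -/
noncomputable def zi (F F1 : ℂ → ℂ) (x y : ℝ) : ℝ :=
  √y * (2 * y * ((F (pt x y)).re * (F1 (pt x y)).im - (F (pt x y)).im * (F1 (pt x y)).re))

/-- `q(x, y) = √y |2 y F' + F / 2|²` -/
noncomputable def qq (F F1 : ℂ → ℂ) (x y : ℝ) : ℝ :=
  √y * ((2 * y * (F1 (pt x y)).re + (F (pt x y)).re / 2) ^ 2 +
    (2 * y * (F1 (pt x y)).im + (F (pt x y)).im / 2) ^ 2)

lemma vv_nonneg (F : ℂ → ℂ) (x y : ℝ) : 0 ≤ vv F x y := by unfold vv; positivity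
lemma qq_nonneg (F F1 : ℂ → ℂ) (x y : ℝ) : 0 ≤ qq F F1 x y := by unfold qq; positivity

lemma zr_sq_add_zi_sq (F F1 : ℂ → ℂ) (x y : ℝ) :
    zr F F1 x y ^ 2 + zi F F1 x y ^ 2 = vv F x y * qq F F1 x y := by
  unfold zr zi vv qq
  ring

lemma abs_zr_le (F F1 : ℂ → ℂ) (x y : ℝ) : |zr F F1 x y| ≤ (vv F x y + qq F F1 x y) / 2 := by
  have h := zr_sq_add_zi_sq F F1 x y
  have h1 := vv_nonneg F x y
  have h2 := qq_nonneg F F1 x y
  apply abs_le_of_sq_le_sq _ (by positivity)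
  nlinarith [sq_nonneg (zi F F1 x y), sq_nonneg (vv F x y - qq F F1 x y)]

/-- `∂_y (κ(v) Re Z - K(v))` -/
noncomputable def dG (F F1 F2 : ℂ → ℂ) (x y : ℝ) : ℝ :=
  kap' (vv F x y) * (zr F F1 x y / y) * zr F F1 x y +
    kap (vv F x y) * (√y * (2 * y * ((F1 (pt x y)).re ^ 2 + (F (pt x y)).re * (F2 (pt x y)).re +
        (F1 (pt x y)).im ^ 2 + (F (pt x y)).im * (F2 (pt x y)).im) +
      4 * ((F (pt x y)).re * (F1 (pt x y)).re + (F (pt x y)).im * (F1 (pt x y)).im)) +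
      √y * ((F (pt x y)).re ^ 2 + (F (pt x y)).im ^ 2) / (4 * y)) -
    kap (vv F x y) * (zr F F1 x y / y)

/-- `∂_x (κ(v) Im Z)` -/
noncomputable def dJ (F F1 F2 : ℂ → ℂ) (x y : ℝ) : ℝ :=
  kap' (vv F x y) * (-(zi F F1 x y) / y) * zi F F1 x y +
    kap (vv F x y) * (√y * (2 * y * (-(F1 (pt x y)).im ^ 2 + (F (pt x y)).re * (F2 (pt x y)).re -
        (F1 (pt x y)).re ^ 2 + (F (pt x y)).im * (F2 (pt x y)).im)))

lemma flux_alg (F F1 F2 : ℂ → ℂ) (x y : ℝ) (hy : 0 < y) :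
    y * (dG F F1 F2 x y - dJ F F1 F2 x y) =
      qq F F1 x y * hh (vv F x y) - 1 / 2 * HH (vv F x y) := by
  rw [hh_eq, HH_eq]
  have h := zr_sq_add_zi_sq F F1 x y
  have hy' : y ≠ 0 := hy.ne'
  have e1 : y * (dG F F1 F2 x y - dJ F F1 F2 x y) =
      kap' (vv F x y) * (zr F F1 x y ^ 2 + zi F F1 x y ^ 2) +
      kap (vv F x y) * (√y * (4 * y ^ 2 * ((F1 (pt x y)).re ^ 2 + (F1 (pt x y)).im ^ 2) +
      4 * y * ((F (pt x y)).re * (F1 (pt x y)).re + (F (pt x y)).im * (F1 (pt x y)).im)) +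
      √y * ((F (pt x y)).re ^ 2 + (F (pt x y)).im ^ 2) / 4 - zr F F1 x y) := by
    unfold dG dJ
    field_simp
    ring
  rw [e1, h]
  unfold zr vv qq
  ring

variable {F F1 F2 : ℂ → ℂ}

lemma hasDerivAt_vv_y {x y : ℝ} (hy : 0 < y) (h1 : HasDerivAt F (F1 (pt x y)) (pt x y)) :
    HasDerivAt (fun y => vv F x y) (zr F F1 x y / y) y := by
  have hF := hasDerivAt_pt_y h1
  have hr := HasDerivAt.re' hF
  have hi := HasDerivAt.im' hF
  have hs := hasDerivAt_sqrt hy.ne'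
  have := hs.mul ((hr.fun_pow 2).add (hi.fun_pow 2))
  refine this.congr_deriv ?_
  unfold zr
  have h2 : √y ≠ 0 := by positivity
  have h3 : √y ^ 2 = y := Real.sq_sqrt hy.le
  simp only [Pi.add_apply]
  push_cast
  field_simp
  rw [show √y ^ 2 = y from h3]
  ring

lemma hasDerivAt_vv_x {x y : ℝ} (hy : 0 < y) (h1 : HasDerivAt F (F1 (pt x y)) (pt x y)) :
    HasDerivAt (fun x => vv F x y) (-(zi F F1 x y) / y) x := by
  have hF := hasDerivAt_pt_x h1
  have hr := HasDerivAt.re' hF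
  have hi := HasDerivAt.im' hF
  have := ((hr.fun_pow 2).add (hi.fun_pow 2)).const_mul √y
  refine this.congr_deriv ?_
  unfold zi
  simp only [Complex.mul_re, Complex.mul_im, Complex.I_re, Complex.I_im]
  field_simp
  ring

lemma hasDerivAt_zr_y {x y : ℝ} (hy : 0 < y) (h1 : HasDerivAt F (F1 (pt x y)) (pt x y))
    (h2 : HasDerivAt F1 (F2 (pt x y)) (pt x y)) :
    HasDerivAt (fun y => zr F F1 x y)
      (√y * (2 * y * ((F1 (pt x y)).re ^ 2 + (F (pt x y)).re * (F2 (pt x y)).re +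
        (F1 (pt x y)).im ^ 2 + (F (pt x y)).im * (F2 (pt x y)).im) +
      4 * ((F (pt x y)).re * (F1 (pt x y)).re + (F (pt x y)).im * (F1 (pt x y)).im)) +
      √y * ((F (pt x y)).re ^ 2 + (F (pt x y)).im ^ 2) / (4 * y)) y := by
  have hF := hasDerivAt_pt_y h1
  have hF1 := hasDerivAt_pt_y h2
  have hr := HasDerivAt.re' hF
  have hi := HasDerivAt.im' hF
  have hr1 := HasDerivAt.re' hF1
  have hi1 := HasDerivAt.im' hF1
  have hs := hasDerivAt_sqrt hy.ne'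
  have := hs.mul ((((hasDerivAt_id y).const_mul 2).mul ((hr.mul hr1).add (hi.mul hi1))).add
    (((hr.fun_pow 2).add (hi.fun_pow 2)).div_const 2))
  refine this.congr_deriv ?_
  have h2 : √y ≠ 0 := by positivity
  have h3 : √y ^ 2 = y := Real.sq_sqrt hy.le
  simp only [Pi.add_apply, Pi.mul_apply, id]
  push_cast
  have h4 : 1 / (2 * √y) = √y / (2 * y) := by
    rw [div_eq_div_iff (by positivity) (by positivity)]
    linear_combination -2 * h3
  rw [h4]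
  field_simp
  ring

lemma hasDerivAt_zi_x {x y : ℝ} (h1 : HasDerivAt F (F1 (pt x y)) (pt x y))
    (h2 : HasDerivAt F1 (F2 (pt x y)) (pt x y)) :
    HasDerivAt (fun x => zi F F1 x y)
      (√y * (2 * y * (-(F1 (pt x y)).im ^ 2 + (F (pt x y)).re * (F2 (pt x y)).re -
        (F1 (pt x y)).re ^ 2 + (F (pt x y)).im * (F2 (pt x y)).im))) x := by
  have hF := hasDerivAt_pt_x h1
  have hF1 := hasDerivAt_pt_x h2
  have hr := HasDerivAt.re' hF
  have hi := HasDerivAt.im' hF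
  have hr1 := HasDerivAt.re' hF1
  have hi1 := HasDerivAt.im' hF1
  have := (((hr.mul hi1).sub (hi.mul hr1)).const_mul (2 * y)).const_mul √y
  refine this.congr_deriv ?_
  simp only [Complex.mul_re, Complex.mul_im, Complex.I_re, Complex.I_im]
  ring

lemma hasDerivAt_G {x y : ℝ} (hy : 0 < y) (h1 : HasDerivAt F (F1 (pt x y)) (pt x y))
    (h2 : HasDerivAt F1 (F2 (pt x y)) (pt x y)) :
    HasDerivAt (fun y => kap (vv F x y) * zr F F1 x y - KK (vv F x y)) (dG F F1 F2 x y) y := by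
  have hv := hasDerivAt_vv_y hy h1
  have hz := hasDerivAt_zr_y hy h1 h2
  have hk := (hasDerivAt_kap (vv F x y)).comp y hv
  have hK := (hasDerivAt_KK (vv F x y)).comp y hv
  exact ((hk.mul hz).sub hK).congr_deriv (by unfold dG; simp only [Function.comp])

lemma hasDerivAt_J {x y : ℝ} (hy : 0 < y) (h1 : HasDerivAt F (F1 (pt x y)) (pt x y))
    (h2 : HasDerivAt F1 (F2 (pt x y)) (pt x y)) :
    HasDerivAt (fun x => kap (vv F x y) * zi F F1 x y) (dJ F F1 F2 x y) x := by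
  have hv := hasDerivAt_vv_x hy h1
  have hz := hasDerivAt_zi_x h1 h2
  have hk := (hasDerivAt_kap (vv F x y)).comp x hv
  exact (hk.mul hz).congr_deriv (by unfold dJ; simp only [Function.comp])

end Pool.Agent.Helper65.ET
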