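import Pool.Agent.Helper65.ET.Flux2

set_option autoImplicit false

open MeasureTheory Metric Real Set

namespace Pool.Agent.Helper65.ET

/-- `G = κ(v) Re Z - K(v)` -/
noncomputable def GG (F F1 : ℂ → ℂ) (x y : ℝ) : ℝ :=
  kap (vv F x y) * zr F F1 x y - KK (vv F x y)

/-- analytic and `2πi`-periodic on the right half plane, with derivatives `F1`, `F2` -/
structure Per (F F1 F2 : ℂ → ℂ) : Prop where
  d1 : ∀ s : ℂ, 0 < s.re → HasDerivAt F (F1 s) s
  d2 : ∀ s : ℂ, 0 < s.re → HasDerivAt F1 (F2 s) s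
  c2 : ContinuousOn F2 {s : ℂ | 0 < s.re}
  p0 : ∀ s : ℂ, F (s + 2 * π * Complex.I) = F s
  p1 : ∀ s : ℂ, F1 (s + 2 * π * Complex.I) = F1 s

variable {F F1 F2 : ℂ → ℂ}

lemma cont_comp (hF : ContinuousOn F {s : ℂ | 0 < s.re}) {X : Type*} [TopologicalSpace X]
    {x y : X → ℝ} (hx : Continuous x) (hy : Continuous y) (hpos : ∀ t, 0 < y t) :
    Continuous (fun t => F (pt (x t) (y t))) := by
  apply hF.comp_continuous
  · unfold pt; fun_prop
  · intro t; simp only [mem_ofPred_eq, pt_re]; exact hpos t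

lemma Per.c0 (h : Per F F1 F2) : ContinuousOn F {s : ℂ | 0 < s.re} :=
  fun s hs => (h.d1 s hs).continuousAt.continuousWithinAt

lemma Per.c1 (h : Per F F1 F2) : ContinuousOn F1 {s : ℂ | 0 < s.re} :=
  fun s hs => (h.d2 s hs).continuousAt.continuousWithinAt

lemma pt_add (x y : ℝ) : pt (x + 2 * π) y = pt x y + 2 * π * Complex.I := by
  unfold pt; push_cast; ring

lemma Per.per0 (h : Per F F1 F2) (x y : ℝ) : F (pt (x + 2 * π) y) = F (pt x y) := by
  rw [pt_add, h.p0]

lemma Per.per1 (h : Per F F1 F2) (x y : ℝ) : F1 (pt (x + 2 * π) y) = F1 (pt x y) := by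
  rw [pt_add, h.p1]

section cont

variable {X : Type*} [TopologicalSpace X] {x y : X → ℝ}

lemma cont_vv (hF : ContinuousOn F {s : ℂ | 0 < s.re}) (hx : Continuous x) (hy : Continuous y)
    (hpos : ∀ t, 0 < y t) : Continuous (fun t => vv F (x t) (y t)) := by
  have aux : ∀ A : X → ℂ, Continuous A →
      Continuous (fun t => √(y t) * ((A t).re ^ 2 + (A t).im ^ 2)) := by
    intro A hA; fun_prop
  exact aux _ (cont_comp hF hx hy hpos)

lemma cont_zr (h : Per F F1 F2) (hx : Continuous x) (hy : Continuous y)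
    (hpos : ∀ t, 0 < y t) : Continuous (fun t => zr F F1 (x t) (y t)) := by
  have aux : ∀ A B : X → ℂ, Continuous A → Continuous B →
      Continuous (fun t => √(y t) * (2 * y t * ((A t).re * (B t).re + (A t).im * (B t).im) +
    ((A t).re ^ 2 + (A t).im ^ 2) / 2)) := by
    intro A B hA hB; fun_prop
  exact aux _ _ (cont_comp h.c0 hx hy hpos) (cont_comp h.c1 hx hy hpos)

lemma cont_zi (h : Per F F1 F2) (hx : Continuous x) (hy : Continuous y)
    (hpos : ∀ t, 0 < y t) : Continuous (fun t => zi F F1 (x t) (y t)) := by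
  have aux : ∀ A B : X → ℂ, Continuous A → Continuous B →
      Continuous (fun t => √(y t) * (2 * y t * ((A t).re * (B t).im - (A t).im * (B t).re))) := by
    intro A B hA hB; fun_prop
  exact aux _ _ (cont_comp h.c0 hx hy hpos) (cont_comp h.c1 hx hy hpos)

lemma cont_qq (h : Per F F1 F2) (hx : Continuous x) (hy : Continuous y)
    (hpos : ∀ t, 0 < y t) : Continuous (fun t => qq F F1 (x t) (y t)) := by
  have aux : ∀ A B : X → ℂ, Continuous A → Continuous B →
      Continuous (fun t => √(y t) * ((2 * y t * (B t).re + (A t).re / 2) ^ 2 +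
    (2 * y t * (B t).im + (A t).im / 2) ^ 2)) := by
    intro A B hA hB; fun_prop
  exact aux _ _ (cont_comp h.c0 hx hy hpos) (cont_comp h.c1 hx hy hpos)

lemma cont_dG (h : Per F F1 F2) (hx : Continuous x) (hy : Continuous y)
    (hpos : ∀ t, 0 < y t) : Continuous (fun t => dG F F1 F2 (x t) (y t)) := by
  have hv := cont_vv h.c0 hx hy hpos
  have hz := cont_zr h hx hy hpos
  have hk := kap_continuous.comp hv
  have hk' := kap'_continuous.comp hv
  have hne : ∀ t, y t ≠ 0 := fun t => (hpos t).ne'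
  have hne4 : ∀ t, 4 * y t ≠ 0 := fun t => by have := hpos t; positivity
  have hzy : Continuous (fun t => zr F F1 (x t) (y t) / y t) := hz.div hy hne
  have aux : ∀ (A B C : X → ℂ) (k k' z zy : X → ℝ), Continuous A → Continuous B → Continuous C →
      Continuous k → Continuous k' → Continuous z → Continuous zy →
      Continuous (fun t => k' t * zy t * z t + k t * (√(y t) * (2 * y t * ((B t).re ^ 2 +
        (A t).re * (C t).re + (B t).im ^ 2 + (A t).im * (C t).im) +
      4 * ((A t).re * (B t).re + (A t).im * (B t).im)) +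
      √(y t) * ((A t).re ^ 2 + (A t).im ^ 2) / (4 * y t)) - k t * zy t) := by
    intro A B C k k' z zy hA hB hC h1 h2 h3 h4
    have h5 : Continuous (fun t => √(y t) * ((A t).re ^ 2 + (A t).im ^ 2) / (4 * y t)) :=
      Continuous.div (by fun_prop) (by fun_prop) hne4
    fun_prop
  exact aux _ _ _ _ _ _ _ (cont_comp h.c0 hx hy hpos) (cont_comp h.c1 hx hy hpos)
    (cont_comp h.c2 hx hy hpos) hk hk' hz hzy

lemma cont_dJ (h : Per F F1 F2) (hx : Continuous x) (hy : Continuous y)
    (hpos : ∀ t, 0 < y t) : Continuous (fun t => dJ F F1 F2 (x t) (y t)) := by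
  have hv := cont_vv h.c0 hx hy hpos
  have hz := cont_zi h hx hy hpos
  have hk := kap_continuous.comp hv
  have hk' := kap'_continuous.comp hv
  have hne : ∀ t, y t ≠ 0 := fun t => (hpos t).ne'
  have hzy : Continuous (fun t => -(zi F F1 (x t) (y t)) / y t) := hz.neg.div hy hne
  have aux : ∀ (A B C : X → ℂ) (k k' z zy : X → ℝ), Continuous A → Continuous B → Continuous C →
      Continuous k → Continuous k' → Continuous z → Continuous zy →
      Continuous (fun t => k' t * zy t * z t + k t * (√(y t) * (2 * y t * (-(B t).im ^ 2 +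
        (A t).re * (C t).re - (B t).re ^ 2 + (A t).im * (C t).im)))) := by
    intro A B C k k' z zy hA hB hC h1 h2 h3 h4
    fun_prop
  exact aux _ _ _ _ _ _ _ (cont_comp h.c0 hx hy hpos) (cont_comp h.c1 hx hy hpos)
    (cont_comp h.c2 hx hy hpos) hk hk' hz hzy

lemma cont_GG (h : Per F F1 F2) (hx : Continuous x) (hy : Continuous y)
    (hpos : ∀ t, 0 < y t) : Continuous (fun t => GG F F1 (x t) (y t)) := by
  have hv := cont_vv h.c0 hx hy hpos
  have hz := cont_zr h hx hy hpos
  exact ((kap_continuous.comp hv).mul hz).sub (KK_continuous.comp hv)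

end cont

lemma abs_GG_le (x y : ℝ) : |GG F F1 x y| ≤ 2 * (vv F x y + qq F F1 x y) := by
  unfold GG
  have h1 := vv_nonneg F x y
  have h2 := qq_nonneg F F1 x y
  have h3 : |kap (vv F x y) * zr F F1 x y| ≤ 1 * ((vv F x y + qq F F1 x y) / 2) := by
    rw [abs_mul]
    exact mul_le_mul (abs_kap_le h1) (abs_zr_le F F1 x y) (abs_nonneg _) (by norm_num)
  have h4 := abs_KK_le h1
  calc |kap (vv F x y) * zr F F1 x y - KK (vv F x y)|
      ≤ |kap (vv F x y) * zr F F1 x y| + |KK (vv F x y)| := abs_sub _ _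
    _ ≤ _ := by linarith

/-- the flux density -/
noncomputable def flux (F F1 : ℂ → ℂ) (x y : ℝ) : ℝ :=
  qq F F1 x y * hh (vv F x y) - 1 / 2 * HH (vv F x y)

theorem integral_flux (h : Per F F1 F2) (a b : ℝ) :
    ∫ τ in a..b, ∫ x in (0 : ℝ)..2 * π, flux F F1 x (exp (-τ)) =
      (∫ x in (0 : ℝ)..2 * π, GG F F1 x (exp (-a))) - ∫ x in (0 : ℝ)..2 * π, GG F F1 x (exp (-b)) := by
  have hcont1 : Continuous (fun z : ℝ × ℝ => exp (-z.1) * dG F F1 F2 z.2 (exp (-z.1))) := by
    apply Continuous.mul (by fun_prop)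
    exact cont_dG h continuous_snd (by fun_prop) (fun _ => exp_pos _)
  have hcont2 : ∀ τ : ℝ, Continuous (fun x : ℝ => dJ F F1 F2 x (exp (-τ))) := fun τ =>
    cont_dJ h continuous_id continuous_const (fun _ => exp_pos _)
  have hcont3 : ∀ τ : ℝ, Continuous (fun x : ℝ => dG F F1 F2 x (exp (-τ))) := fun τ =>
    cont_dG h continuous_id continuous_const (fun _ => exp_pos _)
  have hcont2' : ∀ τ : ℝ, Continuous (fun x : ℝ => exp (-τ) * dJ F F1 F2 x (exp (-τ))) :=
    fun τ => continuous_const.mul (hcont2 τ)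
  have hcont3' : ∀ τ : ℝ, Continuous (fun x : ℝ => exp (-τ) * dG F F1 F2 x (exp (-τ))) :=
    fun τ => continuous_const.mul (hcont3 τ)
  have hcontG : ∀ y : ℝ, 0 < y → Continuous (fun x : ℝ => GG F F1 x y) := fun y hy =>
    cont_GG h continuous_id continuous_const (fun _ => hy)
  have step1 : ∀ τ : ℝ, ∫ x in (0 : ℝ)..2 * π, flux F F1 x (exp (-τ)) =
      ∫ x in (0 : ℝ)..2 * π, exp (-τ) * dG F F1 F2 x (exp (-τ)) := by
    intro τ
    have e1 : ∀ x, flux F F1 x (exp (-τ)) =
        exp (-τ) * dG F F1 F2 x (exp (-τ)) - exp (-τ) * dJ F F1 F2 x (exp (-τ)) := by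
      intro x
      unfold flux
      rw [← flux_alg F F1 F2 x _ (exp_pos _)]; ring
    simp_rw [e1]
    rw [intervalIntegral.integral_sub ((hcont3' τ).intervalIntegrable _ _)
      ((hcont2' τ).intervalIntegrable _ _),
      intervalIntegral.integral_const_mul (exp (-τ)) (fun x => dJ F F1 F2 x (exp (-τ)))]
    have e2 : ∫ x in (0 : ℝ)..2 * π, dJ F F1 F2 x (exp (-τ)) = 0 := by
      rw [intervalIntegral.integral_eq_sub_of_hasDerivAt
        (f := fun x => kap (vv F x (exp (-τ))) * zi F F1 x (exp (-τ)))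
        (fun x _ => hasDerivAt_J (exp_pos _) (h.d1 _ (by rw [pt_re]; exact exp_pos _))
          (h.d2 _ (by rw [pt_re]; exact exp_pos _)))
        ((hcont2 τ).intervalIntegrable _ _)]
      have h0 := h.per0 0 (exp (-τ))
      have h1 := h.per1 0 (exp (-τ))
      rw [zero_add] at h0 h1
      unfold vv zi
      rw [h0, h1, sub_self]
    rw [e2]; ring
  simp_rw [step1]
  rw [intervalIntegral_intervalIntegral_swap]
  · rw [← intervalIntegral.integral_sub ((hcontG _ (exp_pos _)).intervalIntegrable _ _)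
      ((hcontG _ (exp_pos _)).intervalIntegrable _ _)]
    apply intervalIntegral.integral_congr
    intro x _
    simp only
    rw [intervalIntegral.integral_eq_sub_of_hasDerivAt
      (f := fun τ => -(GG F F1 x (exp (-τ))))]
    · simp; ring
    · intro τ _
      have h1 : HasDerivAt (fun y => GG F F1 x y) (dG F F1 F2 x (exp (-τ))) (exp (-τ)) :=
        hasDerivAt_G (x := x) (exp_pos (-τ)) (h.d1 _ (by rw [pt_re]; exact exp_pos _))
          (h.d2 _ (by rw [pt_re]; exact exp_pos _))
      have h2 : HasDerivAt (fun τ : ℝ => exp (-τ)) (-exp (-τ)) τ := by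
        simpa using ((hasDerivAt_id τ).neg).exp
      have h3 := (HasDerivAt.comp τ (h₂ := fun y => GG F F1 x y) h1 h2).neg
      refine h3.congr_deriv ?_
      ring
    · exact (Continuous.mul (by fun_prop)
        (cont_dG h continuous_const (by fun_prop) (fun _ => exp_pos _))).intervalIntegrable _ _
  · have : IntegrableOn (Function.uncurry fun τ x => exp (-τ) * dG F F1 F2 x (exp (-τ)))
        (uIcc a b ×ˢ uIcc 0 (2 * π)) := by
      apply ContinuousOn.integrableOn_compact (isCompact_uIcc.prod isCompact_uIcc)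
      exact hcont1.continuousOn
    exact this.mono_set (prod_mono uIoc_subset_uIcc uIoc_subset_uIcc)

end Pool.Agent.Helper65.ET
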