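import Pool.Agent.Helper65.ET.Upper2

set_option autoImplicit false

open MeasureTheory Metric Real Set

namespace Pool.Agent.Helper65.ET

/-- the polynomial inequality -/
lemma poly {l K : ℝ} (hl : 1 ≤ l) (hlK : l ≤ K) (h : 2 * (√K - √l) ^ 2 < 1000 / 931) :
    ∃ lam : ℝ, 0 < lam ∧ ∃ δ : ℝ, 0 < δ ∧ ∀ m : ℝ, 0 ≤ m →
      δ ≤ 2 * m ^ 4 - 2 * (l + K) * m ^ 2 + 2 * l * K + 2 * lam * m - 931 / 1000 * lam ^ 2 := by
  set L := √l with hL
  set k := √K with hk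
  have hl2 : L ^ 2 = l := Real.sq_sqrt (by linarith)
  have hk2 : k ^ 2 = K := Real.sq_sqrt (by linarith)
  have hL1 : 1 ≤ L := by rw [hL]; exact Real.one_le_sqrt.mpr hl
  have hLk : L ≤ k := Real.sqrt_le_sqrt hlK
  have hLk1 : 1 ≤ L * k := by nlinarith
  set s := √(L * k) with hs
  have hs2 : s ^ 2 = L * k := Real.sq_sqrt (by positivity)
  have hs1 : 1 ≤ s := Real.one_le_sqrt.mpr hLk1
  set g := 1000 / 931 - 2 * (k - L) ^ 2 with hg
  have hg0 : 0 < g := by rw [hg]; linarith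
  have hg1 : g ≤ 1000 / 931 := by rw [hg]; nlinarith [sq_nonneg (k - L)]
  refine ⟨1000 / 931 * s, by positivity, g / 4, by positivity, fun m hm => ?_⟩
  rw [← hl2, ← hk2]
  have e : 2 * m ^ 4 - 2 * (L ^ 2 + k ^ 2) * m ^ 2 + 2 * L ^ 2 * k ^ 2 +
      2 * (1000 / 931 * s) * m - 931 / 1000 * (1000 / 931 * s) ^ 2 =
      2 * (m - s) ^ 2 * (m + s) ^ 2 + g * m ^ 2 - 1000 / 931 * (m - s) ^ 2 +
        (2 * (L * k) ^ 2 - 2 * (s ^ 2) ^ 2) + 4 * m ^ 2 * (s ^ 2 - L * k) := by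
    rw [hg]; ring
  rw [e, hs2]
  have h1 : 1 ≤ (m + s) ^ 2 := by nlinarith
  have h2 : 2 * (m - s) ^ 2 * 1 ≤ 2 * (m - s) ^ 2 * (m + s) ^ 2 := by gcongr
  have h3 : 1 / 2 ≤ m ^ 2 + (m - s) ^ 2 := by nlinarith [sq_nonneg (2 * m - s)]
  have h4 : g / 2 * (1 / 2) ≤ g / 2 * (m ^ 2 + (m - s) ^ 2) := by gcongr
  have h5 : 0 ≤ g / 2 * m ^ 2 := by positivity
  have h6 : (g / 2) * (m - s) ^ 2 ≤ (2 - 1000 / 931) * (m - s) ^ 2 := by
    have : g / 2 ≤ 2 - 1000 / 931 := by linarith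
    gcongr
  nlinarith

variable {a : ℕ → ℝ} (ha : ∀ n, a n = 0 ∨ a n = 1) {C : ℝ} (hC : ∀ n, RR a n ≤ C)

include ha hC

set_option maxHeartbeats 1000000 in
/-- the inequality at height `y = z ^ 8` -/
lemma key_z {l K lam δ z : ℝ} (hl : 0 ≤ l) (hK : 0 ≤ K) (hlam : 0 < lam)
    (hpoly : ∀ m : ℝ, 0 ≤ m →
      δ ≤ 2 * m ^ 4 - 2 * (l + K) * m ^ 2 + 2 * l * K + 2 * lam * m - 931 / 1000 * lam ^ 2)
    (hz : 0 < z) (hz1 : z ≤ 1) :
    2 * π * δ ≤ lam ^ 2 * defect (Dir (fun n => (√lam)⁻¹ * a n))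
        (Dir (dc (fun n => (√lam)⁻¹ * a n))) (z ^ 8) +
      2 * π * (z ^ 8 * ∑' n : ℕ, Ex a l K n * exp (-(2 * z ^ 8 * n))) +
      (121 * C ^ 2 + 896 * C * lam) * z := by
  have hpi := Real.pi_gt_three
  have hpi4 := Real.pi_lt_d2
  have hC0 := C_nonneg ha hC
  set k := (√lam)⁻¹ with hk
  have hk0 : 0 < k := by positivity
  have hk2 : k ^ 2 = 1 / lam := by
    rw [hk, inv_pow, Real.sq_sqrt hlam.le, one_div]
  set y := z ^ 8 with hy
  have hy0 : 0 < y := by positivity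
  have hy1 : y ≤ 1 := pow_le_one₀ hz.le hz1
  have hd1 : z ^ 6 ≤ 1 := pow_le_one₀ hz.le hz1
  have hsy : √y = z ^ 4 := by
    rw [hy, show z ^ 8 = (z ^ 4) ^ 2 by ring, Real.sqrt_sq (by positivity)]
  set m := √y * Fr a (2 * y) with hm
  have hm0 : 0 ≤ m := mul_nonneg (Real.sqrt_nonneg _) (Fr_nonneg ha _)
  have hm2 : M2 a y = m ^ 2 := by
    rw [hm, mul_pow, Real.sq_sqrt hy0.le]; rfl
  have h1 := local_ineq (per_Dir ((adm_a ha).mul k)) hy0 (show 0 ≤ z ^ 6 by positivity)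
    (by linarith) (fun x => vv_add_qq_le ha hC k hk0.le x hy0 hy1)
  rw [int_vv ha k hy0, hsy] at h1
  have h2 : ∫ x in (z ^ 6)..2 * π - z ^ 6, vv (Dir (fun n => k * a n)) x y ^ 2 =
      k ^ 4 * (y * ∫ x in (z ^ 6)..2 * π - z ^ 6, ‖Dir (RR a) (pt x y)‖ ^ 2) := by
    rw [← mul_assoc, ← intervalIntegral.integral_const_mul]
    apply intervalIntegral.integral_congr
    intro x _
    simp only
    rw [vv_eq_norm, Dir_mul, ← Dir_sq ha (by rw [pt_re]; exact hy0), norm_mul, norm_pow,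
      Complex.norm_real, Real.norm_of_nonneg hk0.le, mul_pow, Real.sq_sqrt hy0.le]
    ring
  have hc3 : 2 * m ^ 2 ≤ 3 * C := by
    have := M2_le ha hC hy0 hy1
    rw [hm2] at this; linarith
  have h3 := upper1 ha hC hz hz1 (c := 2 * m ^ 2) (by positivity) hc3
  have h4 := upper2 ha hC hl hK hy0 hy1
  rw [hm2] at h4
  rw [← hy] at h3
  rw [h2] at h1
  have h5 := hpoly m hm0
  -- combine
  set E := y * ∑' n : ℕ, Ex a l K n * exp (-(2 * y * n)) with hE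
  set I := y * ∫ x in (z ^ 6)..2 * π - z ^ 6, ‖Dir (RR a) (pt x y)‖ ^ 2 with hI
  set Df := defect (Dir (fun n => k * a n)) (Dir (dc (fun n => k * a n))) y with hDf
  have h6 : I ≤ 2 * π * (2 * (l + K) * m ^ 2 - 2 * l * K - 2 * (m ^ 2) ^ 2 + E + 9 * C ^ 2 * y) +
      64 * C ^ 2 * z := by
    refine h3.trans ?_
    gcongr
  have hk4 : k ^ 4 * lam ^ 2 = 1 := by
    rw [show k ^ 4 = (k ^ 2) ^ 2 by ring, hk2]; field_simp
  have h7 := mul_le_mul_of_nonneg_left h1 (sq_nonneg lam)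
  have e7 : lam ^ 2 * (k ^ 4 * I) = I := by
    rw [← mul_assoc, mul_comm (lam ^ 2), hk4, one_mul]
  rw [e7] at h7
  have e8 : lam ^ 2 * (2 * (z ^ 4 * (2 * π * (k ^ 2 * Fr a (2 * y)))) - 931 / 1000 * (2 * π) - Df -
      14 * z ^ 6 * (64 * C * k ^ 2 / z ^ 4)) =
      4 * π * lam * m - 931 / 1000 * (2 * π) * lam ^ 2 - lam ^ 2 * Df - 896 * C * lam * z ^ 2 := by
    rw [hm, hsy, hk2]
    field_simp
    ring
  rw [e8] at h7
  have hzy : y ≤ z := by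
    rw [hy]
    calc z ^ 8 ≤ z ^ 1 := pow_le_pow_of_le_one hz.le hz1 (by norm_num)
      _ = z := pow_one z
  have hz2 : z ^ 2 ≤ z := by nlinarith
  have h8 : 2 * π * (9 * C ^ 2 * y) ≤ 57 * C ^ 2 * z := by
    have h9 : C ^ 2 * y ≤ C ^ 2 * z := by gcongr
    have h10 : 0 ≤ C ^ 2 * y := by positivity
    have h11 : 2 * π * 9 ≤ 57 := by linarith
    calc 2 * π * (9 * C ^ 2 * y) = (2 * π * 9) * (C ^ 2 * y) := by ring
      _ ≤ 57 * (C ^ 2 * z) := by gcongr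
      _ = _ := by ring
  have h12 : 896 * C * lam * z ^ 2 ≤ 896 * C * lam * z := by gcongr
  have h13 := mul_le_mul_of_nonneg_left h5 (show 0 ≤ 2 * π by positivity)
  clear_value E I Df m
  linarith

end Pool.Agent.Helper65.ET
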