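import Pool.Agent.Helper65.ET.Arith

set_option autoImplicit false

open MeasureTheory Metric Real Set Finset

/-!
# Bounds for `v` and `q`
-/

namespace Pool.Agent.Helper65.ET

lemma dc_mul (k : ℝ) (a : ℕ → ℝ) : dc (fun n => k * a n) = fun n => k * dc a n := by
  funext n; unfold dc; ring

lemma Dir_mul (k : ℝ) (a : ℕ → ℝ) (s : ℂ) : Dir (fun n => k * a n) s = k * Dir a s := by
  unfold Dir
  rw [← tsum_mul_left]
  refine tsum_congr fun n => ?_
  push_cast; ring

lemma Adm.mul {a : ℕ → ℝ} (h : Adm a) (k : ℝ) : Adm (fun n => k * a n) := by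
  intro ε hε
  refine ((h ε hε).mul_left |k|).congr fun n => ?_
  rw [abs_mul]; ring

lemma Adm.add {a b : ℕ → ℝ} (h : Adm a) (h' : Adm b) : Adm (fun n => a n + b n) := by
  intro ε hε
  refine Summable.of_nonneg_of_le (fun n => by positivity) (fun n => ?_)
    ((h ε hε).add (h' ε hε))
  rw [← add_mul]
  have := abs_add_le (a n) (b n)
  gcongr

lemma Dir_add {a b : ℕ → ℝ} (h : Adm a) (h' : Adm b) {s : ℂ} (hs : 0 < s.re) :
    Dir (fun n => a n + b n) s = Dir a s + Dir b s := by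
  unfold Dir
  rw [← (h.summable hs).tsum_add (h'.summable hs)]
  refine tsum_congr fun n => ?_
  push_cast; ring

variable {a : ℕ → ℝ} (ha : ∀ n, a n = 0 ∨ a n = 1)

include ha

lemma int_vv (k : ℝ) {y : ℝ} (hy : 0 < y) :
    ∫ x in (0 : ℝ)..2 * π, vv (Dir (fun n => k * a n)) x y =
      √y * (2 * π * (k ^ 2 * Fr a (2 * y))) := by
  simp_rw [vv_eq_norm]
  rw [intervalIntegral.integral_const_mul, integral_norm_Dir ((adm_a ha).mul k) hy]
  congr 2
  unfold Fr
  rw [← tsum_mul_left]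
  refine tsum_congr fun n => ?_
  rw [mul_pow, a_sq ha, mul_assoc, mul_assoc]

lemma a1_eq (k : ℝ) (x : ℝ) {y : ℝ} (hy : 0 < y) :
    2 * (y : ℂ) * Dir (dc (fun n => k * a n)) (pt x y) + Dir (fun n => k * a n) (pt x y) / 2 =
      Dir (fun n => 2 * y * dc (fun n => k * a n) n + 1 / 2 * (k * a n)) (pt x y) := by
  have hs : 0 < (pt x y).re := by rw [pt_re]; exact hy
  rw [Dir_add (((adm_a ha).mul k).dc.mul (2 * y)) (((adm_a ha).mul k).mul (1 / 2)) hs,
    Dir_mul (2 * y) (dc fun n => k * a n), Dir_mul (1 / 2) (fun n => k * a n)]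
  push_cast
  ring

lemma coef_le (k : ℝ) {y : ℝ} (hy : 0 < y) (n : ℕ) :
    (2 * y * dc (fun n => k * a n) n + 1 / 2 * (k * a n)) ^ 2 * exp (-(2 * y * n)) ≤
      8 * k ^ 2 * (a n * exp (-(y * n))) := by
  have h1 : (2 * y * dc (fun n => k * a n) n + 1 / 2 * (k * a n)) ^ 2 =
      k ^ 2 * a n * (1 / 2 - 2 * (y * n)) ^ 2 := by
    rw [dc_mul]
    unfold dc
    have := a_sq ha n
    calc _ = k ^ 2 * a n ^ 2 * (1 / 2 - 2 * (y * n)) ^ 2 := by ring
      _ = _ := by rw [this]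
  rw [h1]
  have h2 : exp (-(2 * y * n)) = exp (-(y * n)) * exp (-(y * n)) := by
    rw [← Real.exp_add]; congr 1; ring
  set u := y * (n : ℝ) with hu
  have hu0 : 0 ≤ u := by positivity
  have h3 : (1 / 2 - 2 * u) ^ 2 * exp (-u) ≤ 8 := by
    rw [Real.exp_neg, ← div_eq_mul_inv, div_le_iff₀ (exp_pos _)]
    have := Real.quadratic_le_exp_of_nonneg hu0
    nlinarith
  rw [h2]
  have h4 := a_nonneg ha n
  calc k ^ 2 * a n * (1 / 2 - 2 * u) ^ 2 * (exp (-u) * exp (-u))
      = k ^ 2 * (a n * exp (-u)) * ((1 / 2 - 2 * u) ^ 2 * exp (-u)) := by ring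
    _ ≤ k ^ 2 * (a n * exp (-u)) * 8 := by gcongr
    _ = _ := by ring

lemma int_qq_le (k : ℝ) {y : ℝ} (hy : 0 < y) :
    ∫ x in (0 : ℝ)..2 * π, qq (Dir (fun n => k * a n)) (Dir (dc (fun n => k * a n))) x y ≤
      √y * (2 * π * (8 * k ^ 2 * Fr a y)) := by
  simp_rw [qq_eq_norm, a1_eq ha k _ hy]
  rw [intervalIntegral.integral_const_mul, integral_norm_Dir
    ((((adm_a ha).mul k).dc.mul (2 * y)).add (((adm_a ha).mul k).mul (1 / 2))) hy]
  have h1 : ∑' n : ℕ, (2 * y * dc (fun n => k * a n) n + 1 / 2 * (k * a n)) ^ 2 *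
      exp (-(2 * y * n)) ≤ 8 * k ^ 2 * Fr a y := by
    unfold Fr
    rw [← tsum_mul_left]
    have hs := (summable_a ha hy).mul_left (8 * k ^ 2)
    exact (Summable.of_nonneg_of_le (fun n => by positivity) (coef_le ha k hy) hs).tsum_le_tsum
      (coef_le ha k hy) hs
  gcongr

lemma norm_F_le (k : ℝ) (hk : 0 ≤ k) (x : ℝ) {y : ℝ} (hy : 0 < y) :
    ‖Dir (fun n => k * a n) (pt x y)‖ ≤ k * Fr a y := by
  rw [Dir_mul, norm_mul, Complex.norm_real, Real.norm_of_nonneg hk]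
  have h := norm_Dir_le (adm_a ha) (s := pt x y) (by rw [pt_re]; exact hy)
  rw [pt_re] at h
  have e : ∑' n : ℕ, |a n| * exp (-(y * n)) = Fr a y := by
    unfold Fr
    exact tsum_congr fun n => by rw [abs_of_nonneg (a_nonneg ha n)]
  rw [e] at h
  gcongr

lemma norm_F1_le (k : ℝ) (hk : 0 ≤ k) (x : ℝ) {y : ℝ} (hy : 0 < y) :
    ‖Dir (dc (fun n => k * a n)) (pt x y)‖ ≤ k * (2 / y * Fr a (y / 2)) := by
  rw [dc_mul, Dir_mul, norm_mul, Complex.norm_real, Real.norm_of_nonneg hk]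
  have h := norm_Dir_le (adm_a ha).dc (s := pt x y) (by rw [pt_re]; exact hy)
  rw [pt_re] at h
  have e : ∑' n : ℕ, |dc a n| * exp (-(y * n)) ≤ 2 / y * Fr a (y / 2) := by
    unfold Fr
    rw [← tsum_mul_left]
    have hs := (summable_a ha (show 0 < y / 2 by positivity)).mul_left (2 / y)
    have hle : ∀ n : ℕ, |dc a n| * exp (-(y * n)) ≤ 2 / y * (a n * exp (-(y / 2 * n))) := by
      intro n
      unfold dc
      rw [abs_mul, abs_neg, Nat.abs_cast, abs_of_nonneg (a_nonneg ha n)]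
      have h2 := mul_exp_le (y / 2) (by positivity) (n : ℝ)
      have h3 : exp (-(y * n)) = exp (-(y / 2 * n)) * exp (-(y / 2 * n)) := by
        rw [← Real.exp_add]; congr 1; ring
      have h5 := a_nonneg ha n
      have h4 : 1 / (y / 2) = 2 / y := by field_simp
      rw [h3, ← h4]
      calc (n : ℝ) * a n * (exp (-(y / 2 * n)) * exp (-(y / 2 * n)))
          = (n * exp (-(y / 2 * n))) * (a n * exp (-(y / 2 * n))) := by ring
        _ ≤ 1 / (y / 2) * (a n * exp (-(y / 2 * n))) := by gcongr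
    exact (Summable.of_nonneg_of_le (fun n => by positivity) hle hs).tsum_le_tsum hle hs
  gcongr
  exact h.trans e

variable {C : ℝ} (hC : ∀ n, RR a n ≤ C)

include hC

lemma sqrt_mul_Fr_le {y : ℝ} (hy : 0 < y) (hy9 : y ≤ 9) : √y * Fr a (2 * y) ≤ √(10 * C) := by
  have h1 := Fr_le ha hC (show 0 < 2 * y by positivity)
  have hC0 := C_nonneg ha hC
  calc √y * Fr a (2 * y) ≤ √y * √(C * ((1 + 2 * y) / (2 * y))) := by gcongr
    _ = √(y * (C * ((1 + 2 * y) / (2 * y)))) := by rw [← Real.sqrt_mul hy.le]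
    _ ≤ √(10 * C) := by
      apply Real.sqrt_le_sqrt
      have : y * (C * ((1 + 2 * y) / (2 * y))) = C * ((1 + 2 * y) / 2) := by field_simp
      rw [this]
      nlinarith

/-- pointwise bound -/
lemma vv_add_qq_le (k : ℝ) (hk : 0 ≤ k) (x : ℝ) {y : ℝ} (hy : 0 < y) (hy1 : y ≤ 1) :
    vv (Dir (fun n => k * a n)) x y + qq (Dir (fun n => k * a n)) (Dir (dc (fun n => k * a n))) x y
      ≤ 64 * C * k ^ 2 / √y := by
  have hC0 := C_nonneg ha hC
  have hF := norm_F_le ha k hk x hy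
  have hF1 := norm_F1_le ha k hk x hy
  have hmono : Fr a y ≤ Fr a (y / 2) := Fr_anti ha (by positivity) (by linarith)
  have hF0 : 0 ≤ Fr a (y / 2) := Fr_nonneg ha _
  set f := Fr a (y / 2) with hf
  have hff : f ^ 2 ≤ 3 * C / y := by
    have := Fr_sq_le ha hC (show 0 < y / 2 by positivity)
    refine this.trans ?_
    have e : C * ((1 + y / 2) / (y / 2)) = C * (2 + y) / y := by field_simp
    have e2 : C * (2 + y) ≤ 3 * C := by nlinarith
    rw [e]
    exact div_le_div_of_nonneg_right e2 hy.le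
  have hv : vv (Dir (fun n => k * a n)) x y ≤ √y * (k * f) ^ 2 := by
    rw [vv_eq_norm]
    have : k * Fr a y ≤ k * f := by gcongr
    gcongr
    exact hF.trans this
  have hq : qq (Dir (fun n => k * a n)) (Dir (dc (fun n => k * a n))) x y ≤
      √y * (9 / 2 * (k * f)) ^ 2 := by
    rw [qq_eq_norm]
    have h1 : ‖2 * (y : ℂ) * Dir (dc (fun n => k * a n)) (pt x y) +
        Dir (fun n => k * a n) (pt x y) / 2‖ ≤ 9 / 2 * (k * f) := by
      refine (norm_add_le _ _).trans ?_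
      rw [norm_mul, norm_mul, norm_div, Complex.norm_real, Real.norm_of_nonneg hy.le]
      simp only [Complex.norm_ofNat]
      have h2 : 2 * y * ‖Dir (dc (fun n => k * a n)) (pt x y)‖ ≤
          2 * y * (k * (2 / y * f)) := by gcongr
      have h3 : 2 * y * (k * (2 / y * f)) = 4 * (k * f) := by field_simp; ring
      have h4 : k * Fr a y ≤ k * f := by gcongr
      linarith
    gcongr
  have hsum : √y * (k * f) ^ 2 + √y * (9 / 2 * (k * f)) ^ 2 = √y * (85 / 4 * k ^ 2) * f ^ 2 := by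
    ring
  have hy' : √y ^ 2 = y := Real.sq_sqrt hy.le
  have hsy : 0 < √y := by positivity
  calc _ ≤ √y * (k * f) ^ 2 + √y * (9 / 2 * (k * f)) ^ 2 := add_le_add hv hq
    _ = √y * (85 / 4 * k ^ 2) * f ^ 2 := hsum
    _ ≤ √y * (85 / 4 * k ^ 2) * (3 * C / y) := by gcongr
    _ = 255 / 4 * C * k ^ 2 / √y := by
      rw [eq_div_iff hsy.ne']
      have : √y * (85 / 4 * k ^ 2) * (3 * C / y) * √y =
        √y ^ 2 * (85 / 4 * k ^ 2) * (3 * C / y) := by ring
      rw [this, hy']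
      field_simp
      ring
    _ ≤ 64 * C * k ^ 2 / √y := by
      gcongr
      norm_num

end Pool.Agent.Helper65.ET
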