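import Pool.Agent.Helper65.ET.Norms

set_option autoImplicit false

open MeasureTheory Metric Real Set

/-!
# The upper bound for the fourth moment away from `x = 0`
-/

namespace Pool.Agent.Helper65.ET

lemma Dir_const (c : ℝ) {s : ℂ} (hs : 0 < s.re) :
    Dir (fun _ => c) s = c / (1 - Complex.exp (-s)) := by
  unfold Dir
  have h1 : ∀ n : ℕ, (c : ℂ) * Complex.exp (-(n * s)) = c * Complex.exp (-s) ^ n := by
    intro n; rw [← Complex.exp_nat_mul]; congr 2; ring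
  simp_rw [h1]
  rw [tsum_mul_left, tsum_geometric_of_norm_lt_one, div_eq_mul_inv]
  rw [Complex.norm_exp, Real.exp_lt_one_iff]
  simpa using hs

lemma adm_const (c : ℝ) : Adm (fun _ => c) := fun _ hε => (summable_exp hε).mul_left |c|

lemma norm_one_sub_exp (x y : ℝ) :
    4 * exp (-y) * sin (x / 2) ^ 2 ≤ ‖1 - Complex.exp (-(pt x y))‖ ^ 2 := by
  rw [Complex.sq_norm, Complex.normSq_apply]
  have hre : (1 - Complex.exp (-(pt x y))).re = 1 - exp (-y) * cos x := by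
    rw [Complex.sub_re, Complex.exp_re, Complex.one_re]
    simp [pt]
  have him : (1 - Complex.exp (-(pt x y))).im = exp (-y) * sin x := by
    rw [Complex.sub_im, Complex.exp_im, Complex.one_im]
    simp [pt]
  rw [hre, him]
  have h1 : cos x = 1 - 2 * sin (x / 2) ^ 2 := by
    have := Real.cos_two_mul (x / 2)
    rw [show 2 * (x / 2) = x by ring] at this
    have h2 := Real.sin_sq_add_cos_sq (x / 2)
    nlinarith
  have h2 := Real.sin_sq_add_cos_sq x
  have h3 : (1 - exp (-y) * cos x) * (1 - exp (-y) * cos x) + exp (-y) * sin x * (exp (-y) * sin x)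
      = (1 - exp (-y)) ^ 2 + 4 * exp (-y) * sin (x / 2) ^ 2 +
        exp (-y) ^ 2 * (sin x ^ 2 + cos x ^ 2 - 1) := by
    rw [h1]; ring
  rw [h3, h2]
  nlinarith [sq_nonneg (1 - exp (-y))]

lemma integral_inv_sin_sq {d : ℝ} (hd : 0 < d) (hd1 : d ≤ 1) :
    ∫ x in d..2 * π - d, (sin (x / 2) ^ 2)⁻¹ ≤ 8 / d := by
  have hpi := Real.pi_gt_three
  have hsin : ∀ x ∈ uIcc d (2 * π - d), 0 < sin (x / 2) := by
    intro x hx
    rw [uIcc_of_le (by linarith)] at hx
    apply Real.sin_pos_of_pos_of_lt_pi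
    · linarith [hx.1]
    · linarith [hx.2]
  rw [intervalIntegral.integral_eq_sub_of_hasDerivAt
    (f := fun x => -2 * (cos (x / 2) / sin (x / 2)))]
  · have e1 : (2 * π - d) / 2 = π - d / 2 := by ring
    rw [e1, Real.cos_pi_sub, Real.sin_pi_sub]
    have h1 : d / 2 < tan (d / 2) := Real.lt_tan (by linarith) (by linarith)
    rw [Real.tan_eq_sin_div_cos] at h1
    have hc : 0 < cos (d / 2) := Real.cos_pos_of_mem_Ioo ⟨by linarith, by linarith⟩
    have hs : 0 < sin (d / 2) := Real.sin_pos_of_pos_of_lt_pi (by linarith) (by linarith)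
    rw [lt_div_iff₀ hc] at h1
    have h2 : cos (d / 2) / sin (d / 2) ≤ 2 / d := by
      rw [div_le_div_iff₀ hs hd]; nlinarith
    have h3 : 8 / d = 4 * (2 / d) := by ring
    rw [h3, neg_div]
    linarith
  · intro x hx
    have hs := hsin x hx
    have h1 : HasDerivAt (fun x : ℝ => cos (x / 2)) (-sin (x / 2) * (1 / 2)) x := by
      have h0 : HasDerivAt (fun x : ℝ => x / 2) (1 / 2) x := (hasDerivAt_id x).div_const 2
      exact h0.cos
    have h2 : HasDerivAt (fun x : ℝ => sin (x / 2)) (cos (x / 2) * (1 / 2)) x := by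
      have h0 : HasDerivAt (fun x : ℝ => x / 2) (1 / 2) x := (hasDerivAt_id x).div_const 2
      exact h0.sin
    have h3 := (h1.div h2 hs.ne').const_mul (-2)
    refine h3.congr_deriv ?_
    have h4 := Real.sin_sq_add_cos_sq (x / 2)
    field_simp
    linear_combination h4
  · apply ContinuousOn.intervalIntegrable
    apply ContinuousOn.inv₀ (by fun_prop)
    intro x hx
    have := hsin x hx
    positivity

lemma integral_Gc_le (c : ℝ) {y d : ℝ} (hy : 0 < y) (hy1 : y ≤ 1) (hd : 0 < d) (hd1 : d ≤ 1) :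
    ∫ x in d..2 * π - d, ‖Dir (fun _ => c) (pt x y)‖ ^ 2 ≤ 6 * c ^ 2 / d := by
  have hpi := Real.pi_gt_three
  have hcont : Continuous (fun x : ℝ => ‖Dir (fun _ => c) (pt x y)‖ ^ 2) :=
    (cont_comp (per_Dir (adm_const c)).c0 continuous_id continuous_const
      (fun _ => hy)).norm.pow 2
  have hsin : ∀ x ∈ Icc d (2 * π - d), 0 < sin (x / 2) := by
    intro x hx
    apply Real.sin_pos_of_pos_of_lt_pi
    · linarith [hx.1]
    · linarith [hx.2]
  have hr : 1 / 3 ≤ exp (-y) := by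
    have h1 : exp (-1) ≤ exp (-y) := by gcongr
    have h2 : (1 / 3 : ℝ) ≤ exp (-1) := by
      rw [Real.exp_neg, ← one_div]
      apply one_div_le_one_div_of_le (exp_pos _)
      exact Real.exp_one_lt_three.le
    linarith
  have hle : ∫ x in d..2 * π - d, ‖Dir (fun _ => c) (pt x y)‖ ^ 2 ≤
      ∫ x in d..2 * π - d, 3 / 4 * c ^ 2 * (sin (x / 2) ^ 2)⁻¹ := by
    apply intervalIntegral.integral_mono_on (by linarith) (hcont.intervalIntegrable _ _)
    · apply ContinuousOn.intervalIntegrable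
      apply ContinuousOn.mul continuousOn_const
      apply ContinuousOn.inv₀ (by fun_prop)
      intro x hx
      rw [uIcc_of_le (by linarith)] at hx
      have := hsin x hx
      positivity
    · intro x hx
      have hs := hsin x hx
      rw [Dir_const c (by rw [pt_re]; exact hy), norm_div, Complex.norm_real, Real.norm_eq_abs,
        div_pow, sq_abs]
      have h1 := norm_one_sub_exp x y
      have h2 : 4 / 3 * sin (x / 2) ^ 2 ≤ ‖1 - Complex.exp (-(pt x y))‖ ^ 2 := by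
        refine le_trans ?_ h1
        have : 4 / 3 ≤ 4 * exp (-y) := by linarith
        gcongr
      have h3 : 0 < 4 / 3 * sin (x / 2) ^ 2 := by positivity
      calc c ^ 2 / ‖1 - Complex.exp (-(pt x y))‖ ^ 2 ≤ c ^ 2 / (4 / 3 * sin (x / 2) ^ 2) := by
            gcongr
        _ = 3 / 4 * c ^ 2 * (sin (x / 2) ^ 2)⁻¹ := by field_simp
  rw [intervalIntegral.integral_const_mul] at hle
  refine hle.trans ?_
  have h1 := integral_inv_sin_sq hd hd1
  calc 3 / 4 * c ^ 2 * ∫ x in d..2 * π - d, (sin (x / 2) ^ 2)⁻¹ ≤ 3 / 4 * c ^ 2 * (8 / d) := by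
        gcongr
    _ = 6 * c ^ 2 / d := by ring

/-- pointwise comparison -/
lemma norm_sq_le (G H : ℂ) (z : ℝ) (hz : 0 < z) :
    ‖G‖ ^ 2 ≤ ‖H‖ ^ 2 + z * ‖G‖ ^ 2 + z⁻¹ * ‖G - H‖ ^ 2 := by
  have h1 : ‖G‖ ≤ ‖H‖ + ‖G - H‖ := by
    have := norm_add_le H (G - H)
    simpa using this
  have h2 := norm_nonneg G
  have h3 := norm_nonneg H
  have h4 := norm_nonneg (G - H)
  have h5 : 2 * ‖G‖ * ‖G - H‖ ≤ z * ‖G‖ ^ 2 + z⁻¹ * ‖G - H‖ ^ 2 := by
    have e : z * ‖G‖ ^ 2 + z⁻¹ * ‖G - H‖ ^ 2 - 2 * ‖G‖ * ‖G - H‖ =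
        z⁻¹ * (z * ‖G‖ - ‖G - H‖) ^ 2 := by
      field_simp; ring
    have : 0 ≤ z⁻¹ * (z * ‖G‖ - ‖G - H‖) ^ 2 := by positivity
    linarith
  have h6 : ‖G‖ ^ 2 ≤ ‖H‖ ^ 2 + 2 * ‖G‖ * ‖G - H‖ := by
    have h7 : ‖G‖ - ‖G - H‖ ≤ ‖H‖ := by linarith
    rcases le_total ‖G - H‖ ‖G‖ with h8 | h8
    · have : (‖G‖ - ‖G - H‖) ^ 2 ≤ ‖H‖ ^ 2 := pow_le_pow_left₀ (by linarith) h7 2
      nlinarith
    · nlinarith
  linarith

lemma cont_Dir {c : ℕ → ℝ} (h : Adm c) {y : ℝ} (hy : 0 < y) :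
    Continuous (fun x : ℝ => Dir c (pt x y)) :=
  cont_comp (per_Dir h).c0 continuous_id continuous_const (fun _ => hy)

/-- expansion of the square -/
lemma tsum_sub_sq {R : ℕ → ℝ} {t : ℝ} (ht : 0 < t) (c : ℝ)
    (h1 : Summable (fun n : ℕ => R n * exp (-(t * n))))
    (h2 : Summable (fun n : ℕ => R n ^ 2 * exp (-(t * n)))) :
    ∑' n : ℕ, (R n - c) ^ 2 * exp (-(t * n)) =
      (∑' n : ℕ, R n ^ 2 * exp (-(t * n))) - 2 * c * (∑' n : ℕ, R n * exp (-(t * n))) +
        c ^ 2 * ∑' n : ℕ, exp (-(t * n)) := by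
  rw [← tsum_mul_left, ← tsum_mul_left, ← h2.tsum_sub (h1.mul_left (2 * c)),
    ← (h2.sub (h1.mul_left (2 * c))).tsum_add ((summable_exp ht).mul_left (c ^ 2))]
  exact tsum_congr fun n => by ring

variable {a : ℕ → ℝ} (ha : ∀ n, a n = 0 ∨ a n = 1) {C : ℝ} (hC : ∀ n, RR a n ≤ C)

include ha hC

lemma tsum_RR_sq_le {y : ℝ} (hy : 0 < y) (hy1 : y ≤ 1) :
    y * ∑' n : ℕ, RR a n ^ 2 * exp (-(2 * y * n)) ≤ 3 / 2 * C ^ 2 := by
  have hC0 := C_nonneg ha hC
  have h1 : ∑' n : ℕ, RR a n ^ 2 * exp (-(2 * y * n)) ≤ C ^ 2 * ((1 + 2 * y) / (2 * y)) := by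
    calc _ ≤ ∑' n : ℕ, C ^ 2 * exp (-(2 * y * n)) := by
          refine (summable_RR_sq ha hC (by positivity)).tsum_le_tsum (fun n => ?_)
            ((summable_exp (by positivity)).mul_left _)
          have := hC n
          have h2 := RR_nonneg ha n
          gcongr
      _ = C ^ 2 * ∑' n : ℕ, exp (-(2 * y * n)) := tsum_mul_left
      _ ≤ _ := by
          have := tsum_exp_le (show 0 < 2 * y by positivity)
          gcongr
  calc y * ∑' n : ℕ, RR a n ^ 2 * exp (-(2 * y * n)) ≤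
      y * (C ^ 2 * ((1 + 2 * y) / (2 * y))) := by gcongr
    _ = C ^ 2 * ((1 + 2 * y) / 2) := by field_simp
    _ ≤ C ^ 2 * (3 / 2) := by gcongr; linarith
    _ = _ := by ring

lemma upper1 {z c : ℝ} (hz : 0 < z) (hz1 : z ≤ 1) (hc : 0 ≤ c) (hc3 : c ≤ 3 * C) :
    z ^ 8 * ∫ x in (z ^ 6)..2 * π - z ^ 6, ‖Dir (RR a) (pt x (z ^ 8))‖ ^ 2 ≤
      2 * π * (z ^ 8 * ∑' n : ℕ, (RR a n - c) ^ 2 * exp (-(2 * z ^ 8 * n))) + 64 * C ^ 2 * z := by
  have hpi := Real.pi_gt_three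
  have hpi4 := Real.pi_lt_d2
  have hC0 := C_nonneg ha hC
  set y := z ^ 8 with hy
  set d := z ^ 6 with hd
  have hy0 : 0 < y := by positivity
  have hy1 : y ≤ 1 := pow_le_one₀ hz.le hz1
  have hd0 : 0 < d := by positivity
  have hd1 : d ≤ 1 := pow_le_one₀ hz.le hz1
  have admR := adm_RR ha hC
  have hHadm : Adm (fun n => RR a n - c) := by
    have := admR.add (adm_const (-c))
    exact this
  have cG := cont_Dir admR hy0
  have cH := cont_Dir hHadm hy0
  have cc1 := cont_Dir (adm_const c) hy0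
  have hsub : ∀ x, Dir (RR a) (pt x y) - Dir (fun n => RR a n - c) (pt x y) =
      Dir (fun _ => c) (pt x y) := by
    intro x
    have hs : 0 < (pt x y).re := by rw [pt_re]; exact hy0
    have h1 := Dir_add hHadm (adm_const c) hs
    simp only [sub_add_cancel] at h1
    have h2 : Dir (fun n => RR a n) (pt x y) = Dir (RR a) (pt x y) := rfl
    rw [← h2, h1]; ring
  have hpt : ∀ x, ‖Dir (RR a) (pt x y)‖ ^ 2 ≤ ‖Dir (fun n => RR a n - c) (pt x y)‖ ^ 2 +
      z * ‖Dir (RR a) (pt x y)‖ ^ 2 + z⁻¹ * ‖Dir (fun _ => c) (pt x y)‖ ^ 2 := by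
    intro x
    rw [← hsub x]
    exact norm_sq_le _ _ z hz
  have i1 : ∫ x in d..2 * π - d, ‖Dir (RR a) (pt x y)‖ ^ 2 ≤
      (∫ x in d..2 * π - d, ‖Dir (fun n => RR a n - c) (pt x y)‖ ^ 2) +
      z * (∫ x in d..2 * π - d, ‖Dir (RR a) (pt x y)‖ ^ 2) +
      z⁻¹ * ∫ x in d..2 * π - d, ‖Dir (fun _ => c) (pt x y)‖ ^ 2 := by
    rw [← intervalIntegral.integral_const_mul, ← intervalIntegral.integral_const_mul,
      ← intervalIntegral.integral_add (by apply Continuous.intervalIntegrable; fun_prop)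
        (by apply Continuous.intervalIntegrable; fun_prop),
      ← intervalIntegral.integral_add (by apply Continuous.intervalIntegrable; fun_prop)
        (by apply Continuous.intervalIntegrable; fun_prop)]
    apply intervalIntegral.integral_mono_on (by linarith)
      (by apply Continuous.intervalIntegrable; fun_prop)
      (by apply Continuous.intervalIntegrable; fun_prop) (fun x _ => hpt x)
  have i2 : ∀ g : ℝ → ℝ, Continuous g → (∀ x, 0 ≤ g x) →
      ∫ x in d..2 * π - d, g x ≤ ∫ x in (0 : ℝ)..2 * π, g x := by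
    intro g hg hg0
    apply intervalIntegral.integral_mono_interval hd0.le (by linarith) (by linarith)
    · exact Filter.Eventually.of_forall hg0
    · exact hg.intervalIntegrable _ _
  have i3 := i2 (fun x => ‖Dir (fun n => RR a n - c) (pt x y)‖ ^ 2) (cH.norm.pow 2)
    (fun x => by positivity)
  have i4 := i2 (fun x => ‖Dir (RR a) (pt x y)‖ ^ 2) (cG.norm.pow 2) (fun x => by positivity)
  rw [integral_norm_Dir hHadm hy0] at i3
  rw [integral_norm_Dir admR hy0] at i4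
  have i5 := integral_Gc_le c hy0 hy1 hd0 hd1
  have i6 := tsum_RR_sq_le ha hC hy0 hy1
  have e8 : y * z⁻¹ * (6 * c ^ 2 / d) = 6 * c ^ 2 * z := by
    rw [hy, hd]; field_simp
  have hc2 : c ^ 2 ≤ 9 * C ^ 2 := by nlinarith
  calc y * ∫ x in d..2 * π - d, ‖Dir (RR a) (pt x y)‖ ^ 2
      ≤ y * ((∫ x in d..2 * π - d, ‖Dir (fun n => RR a n - c) (pt x y)‖ ^ 2) +
      z * (∫ x in d..2 * π - d, ‖Dir (RR a) (pt x y)‖ ^ 2) +
      z⁻¹ * ∫ x in d..2 * π - d, ‖Dir (fun _ => c) (pt x y)‖ ^ 2) := by gcongr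
    _ ≤ y * (2 * π * (∑' n : ℕ, (RR a n - c) ^ 2 * exp (-(2 * y * n))) +
      z * (2 * π * ∑' n : ℕ, RR a n ^ 2 * exp (-(2 * y * n))) + z⁻¹ * (6 * c ^ 2 / d)) := by
        gcongr
    _ = 2 * π * (y * ∑' n : ℕ, (RR a n - c) ^ 2 * exp (-(2 * y * n))) +
      2 * π * z * (y * ∑' n : ℕ, RR a n ^ 2 * exp (-(2 * y * n))) + y * z⁻¹ * (6 * c ^ 2 / d) := by
        ring
    _ ≤ 2 * π * (y * ∑' n : ℕ, (RR a n - c) ^ 2 * exp (-(2 * y * n))) +
      2 * π * z * (3 / 2 * C ^ 2) + 6 * (9 * C ^ 2) * z := by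
        rw [e8]; gcongr
    _ ≤ _ := by
        have : 2 * π * z * (3 / 2 * C ^ 2) ≤ 10 * C ^ 2 * z := by
          have h1 : 0 ≤ C ^ 2 * z := by positivity
          nlinarith
        linarith

end Pool.Agent.Helper65.ET
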