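import Pool.Agent.Helper65.ET.Upper

set_option autoImplicit false

open MeasureTheory Metric Real Set

namespace Pool.Agent.Helper65.ET

/-- `E_n = ((R(n) - 2 l) (R(n) - 2 K))₊` -/
noncomputable def Ex (a : ℕ → ℝ) (l K : ℝ) (n : ℕ) : ℝ :=
  max 0 ((RR a n - 2 * l) * (RR a n - 2 * K))

/-- `M(y)² = y Fr(2y)²` -/
noncomputable def M2 (a : ℕ → ℝ) (y : ℝ) : ℝ := y * Fr a (2 * y) ^ 2

variable {a : ℕ → ℝ} (ha : ∀ n, a n = 0 ∨ a n = 1) {C : ℝ} (hC : ∀ n, RR a n ≤ C)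

include ha hC

lemma Ex_le {l K : ℝ} (hl : 0 ≤ l) (hK : 0 ≤ K) (n : ℕ) :
    Ex a l K n ≤ (C + 2 * l) * (C + 2 * K) := by
  have hC0 := C_nonneg ha hC
  have h1 := RR_nonneg ha n
  have h2 := hC n
  unfold Ex
  apply max_le (by positivity)
  have h3 : |RR a n - 2 * l| ≤ C + 2 * l := by rw [abs_le]; constructor <;> linarith
  have h4 : |RR a n - 2 * K| ≤ C + 2 * K := by rw [abs_le]; constructor <;> linarith
  calc (RR a n - 2 * l) * (RR a n - 2 * K) ≤ |(RR a n - 2 * l) * (RR a n - 2 * K)| := le_abs_self _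
    _ = |RR a n - 2 * l| * |RR a n - 2 * K| := abs_mul _ _
    _ ≤ _ := by gcongr

lemma summable_Ex {l K : ℝ} (hl : 0 ≤ l) (hK : 0 ≤ K) {t : ℝ} (ht : 0 < t) :
    Summable (fun n : ℕ => Ex a l K n * exp (-(t * n))) := by
  refine Summable.of_nonneg_of_le (fun n => ?_) (fun n => ?_)
    ((summable_exp ht).mul_left ((C + 2 * l) * (C + 2 * K)))
  · unfold Ex; positivity
  · have := Ex_le ha hC hl hK n
    gcongr

lemma M2_le {y : ℝ} (hy : 0 < y) (hy1 : y ≤ 1) : M2 a y ≤ 3 / 2 * C := by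
  have hC0 := C_nonneg ha hC
  unfold M2
  have h := Fr_sq_le ha hC (show 0 < 2 * y by positivity)
  calc y * Fr a (2 * y) ^ 2 ≤ y * (C * ((1 + 2 * y) / (2 * y))) := by gcongr
    _ = C * ((1 + 2 * y) / 2) := by field_simp
    _ ≤ C * (3 / 2) := by gcongr; linarith
    _ = _ := by ring

omit hC in
lemma M2_nonneg {y : ℝ} (hy : 0 < y) : 0 ≤ M2 a y := by
  unfold M2; positivity

lemma upper2 {l K : ℝ} (hl : 0 ≤ l) (hK : 0 ≤ K) {y : ℝ} (hy : 0 < y) (hy1 : y ≤ 1) :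
    y * ∑' n : ℕ, (RR a n - 2 * M2 a y) ^ 2 * exp (-(2 * y * n)) ≤
      2 * (l + K) * M2 a y - 2 * l * K - 2 * M2 a y ^ 2 +
        y * (∑' n : ℕ, Ex a l K n * exp (-(2 * y * n))) + 9 * C ^ 2 * y := by
  have hC0 := C_nonneg ha hC
  have h2y : 0 < 2 * y := by positivity
  set m := M2 a y with hm
  have hm0 : 0 ≤ m := M2_nonneg ha hy
  have hmC : m ≤ 3 / 2 * C := M2_le ha hC hy hy1
  rw [tsum_sub_sq h2y (2 * m) (summable_RR ha hC h2y) (summable_RR_sq ha hC h2y)]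
  have eR : y * ∑' n : ℕ, RR a n * exp (-(2 * y * n)) = m := by
    rw [hm]; unfold M2; rw [Fr_sq ha h2y]
  have hS1 := tsum_exp_le h2y
  have hS2 := le_tsum_exp h2y
  set S := ∑' n : ℕ, exp (-(2 * y * n)) with hS
  have hyS1 : y * S ≤ 1 / 2 + y := by
    calc y * S ≤ y * ((1 + 2 * y) / (2 * y)) := by gcongr
      _ = 1 / 2 + y := by field_simp
  have hyS2 : 1 / 2 ≤ y * S := by
    calc 1 / 2 = y * (1 / (2 * y)) := by field_simp
      _ ≤ y * S := by gcongr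
  have hsq : ∑' n : ℕ, RR a n ^ 2 * exp (-(2 * y * n)) ≤
      2 * (l + K) * (∑' n : ℕ, RR a n * exp (-(2 * y * n))) - 4 * l * K * S +
        ∑' n : ℕ, Ex a l K n * exp (-(2 * y * n)) := by
    rw [hS, ← tsum_mul_left, ← tsum_mul_left,
      ← ((summable_RR ha hC h2y).mul_left (2 * (l + K))).tsum_sub
        ((summable_exp h2y).mul_left (4 * l * K)),
      ← (((summable_RR ha hC h2y).mul_left (2 * (l + K))).sub
        ((summable_exp h2y).mul_left (4 * l * K))).tsum_add (summable_Ex ha hC hl hK h2y)]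
    refine (summable_RR_sq ha hC h2y).tsum_le_tsum (fun n => ?_)
      ((((summable_RR ha hC h2y).mul_left (2 * (l + K))).sub
        ((summable_exp h2y).mul_left (4 * l * K))).add (summable_Ex ha hC hl hK h2y))
    have h1 : (RR a n - 2 * l) * (RR a n - 2 * K) ≤ Ex a l K n := le_max_right _ _
    have h2 := exp_pos (-(2 * y * n))
    have h3 : RR a n ^ 2 ≤ 2 * (l + K) * RR a n - 4 * l * K + Ex a l K n := by nlinarith
    calc RR a n ^ 2 * exp (-(2 * y * n)) ≤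
        (2 * (l + K) * RR a n - 4 * l * K + Ex a l K n) * exp (-(2 * y * n)) := by gcongr
      _ = _ := by ring
  have h3 := mul_le_mul_of_nonneg_left hsq hy.le
  set A1 := ∑' n : ℕ, RR a n ^ 2 * exp (-(2 * y * n)) with hA1
  set A2 := ∑' n : ℕ, RR a n * exp (-(2 * y * n)) with hA2
  set A3 := ∑' n : ℕ, Ex a l K n * exp (-(2 * y * n)) with hA3
  have h4 : y * (A1 - 2 * (2 * m) * A2 + (2 * m) ^ 2 * S) =
      y * A1 - 4 * m * (y * A2) + 4 * m ^ 2 * (y * S) := by ring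
  rw [h4, eR]
  have h5 : y * (2 * (l + K) * A2 - 4 * l * K * S + A3) =
      2 * (l + K) * (y * A2) - 4 * l * K * (y * S) + y * A3 := by ring
  rw [h5, eR] at h3
  have h6 : 4 * l * K * (1 / 2) ≤ 4 * l * K * (y * S) := by gcongr
  have h7 : 4 * m ^ 2 * (y * S) ≤ 4 * m ^ 2 * (1 / 2 + y) := by gcongr
  have h8 : 4 * m ^ 2 * y ≤ 9 * C ^ 2 * y := by
    have : 4 * m ^ 2 ≤ 9 * C ^ 2 := by nlinarith
    gcongr
  nlinarith

end Pool.Agent.Helper65.ET
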