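import Pool.Agent.Helper65.ET.Key

set_option autoImplicit false

open MeasureTheory Metric Real Set

namespace Pool.Agent.Helper65.ET

/-- `B(τ) = e^{-τ} ∑ E_n e^{-2 e^{-τ} n}` -/
noncomputable def Bt (a : ℕ → ℝ) (l K : ℝ) (τ : ℝ) : ℝ :=
  exp (-τ) * ∑' n : ℕ, Ex a l K n * exp (-(2 * exp (-τ) * n))

variable {a : ℕ → ℝ} (ha : ∀ n, a n = 0 ∨ a n = 1) {C : ℝ} (hC : ∀ n, RR a n ≤ C)

include ha hC

lemma key_tau {l K lam δ τ : ℝ} (hl : 0 ≤ l) (hK : 0 ≤ K) (hlam : 0 < lam)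
    (hpoly : ∀ m : ℝ, 0 ≤ m →
      δ ≤ 2 * m ^ 4 - 2 * (l + K) * m ^ 2 + 2 * l * K + 2 * lam * m - 931 / 1000 * lam ^ 2)
    (hτ : 0 ≤ τ) :
    2 * π * δ ≤ lam ^ 2 * defect (Dir (fun n => (√lam)⁻¹ * a n))
        (Dir (dc (fun n => (√lam)⁻¹ * a n))) (exp (-τ)) +
      2 * π * Bt a l K τ + (121 * C ^ 2 + 896 * C * lam) * exp (-τ / 8) := by
  have h := key_z ha hC hl hK hlam hpoly (exp_pos (-τ / 8))
    (by rw [Real.exp_le_one_iff]; linarith)
  have e : exp (-τ / 8) ^ 8 = exp (-τ) := by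
    rw [← Real.exp_nat_mul]; congr 1; push_cast; ring
  rw [e] at h
  exact h

omit ha hC in
/-- no long window of scales on which `B` is small -/
theorem no_window {l K C : ℝ} (hl : 1 ≤ l) (hlK : l ≤ K) (h : 2 * (√K - √l) ^ 2 < 1000 / 931)
    (hC0 : 0 ≤ C) :
    ∃ T : ℝ, 0 < T ∧ ∃ ε : ℝ, 0 < ε ∧ ∀ a : ℕ → ℝ, (∀ n, a n = 0 ∨ a n = 1) →
      (∀ n, RR a n ≤ C) → ∀ u : ℝ, 0 ≤ u → ∃ τ ∈ Icc u (u + T), ε < Bt a l K τ := by
  obtain ⟨lam, hlam, δ, hδ, hpoly⟩ := poly hl hlK h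
  have hpi := Real.pi_gt_three
  set k := (√lam)⁻¹ with hk
  have hk0 : 0 < k := by positivity
  set Cv := 2 * π * k ^ 2 * √(10 * C) with hCv
  set Cq := 2 * π * (16 * k ^ 2 * √(10 * C)) with hCq
  set D := lam ^ 2 * (22 / 5 * (log 9 * Cv) + 4 * (Cv + Cq)) with hD
  set C1 := 121 * C ^ 2 + 896 * C * lam with hC1
  have hC10 : 0 ≤ C1 := by positivity
  have hlog : 0 ≤ log 9 := Real.log_nonneg (by norm_num)
  have hD0 : 0 ≤ D := by positivity
  refine ⟨(D + 8 * C1 + 1) / (π * δ), by positivity, δ / 2, by positivity,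
    fun a ha hC u hu => ?_⟩
  set F := Dir (fun n => k * a n) with hF
  set F1 := Dir (dc (fun n => k * a n)) with hF1
  have hper := per_Dir ((adm_a ha).mul k)
  have hv : ∀ y, 0 < y → y ≤ 9 → ∫ x in (0 : ℝ)..2 * π, vv F x y ≤ Cv := by
    intro y hy hy9
    rw [hF, int_vv ha k hy]
    have h1 := sqrt_mul_Fr_le ha hC hy hy9
    calc √y * (2 * π * (k ^ 2 * Fr a (2 * y))) = 2 * π * k ^ 2 * (√y * Fr a (2 * y)) := by ring
      _ ≤ Cv := by rw [hCv]; gcongr
  have hq : ∀ y, 0 < y → y ≤ 1 → ∫ x in (0 : ℝ)..2 * π, qq F F1 x y ≤ Cq := by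
    intro y hy hy1
    refine (int_qq_le ha k hy).trans ?_
    have h1 := sqrt_mul_Fr_le ha hC (show 0 < y / 2 by positivity) (by linarith)
    rw [show 2 * (y / 2) = y by ring] at h1
    have h2 : √y ≤ 2 * √(y / 2) := by
      have h3 : √y = √(2 : ℝ) * √(y / 2) := by
        rw [← Real.sqrt_mul (by norm_num)]; congr 1; ring
      have h4 : √(2 : ℝ) ≤ 2 := by
        rw [Real.sqrt_le_left (by norm_num)]; norm_num
      rw [h3]; gcongr
    have h5 := Fr_nonneg ha y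
    calc √y * (2 * π * (8 * k ^ 2 * Fr a y)) ≤
        (2 * √(y / 2)) * (2 * π * (8 * k ^ 2 * Fr a y)) := by gcongr
      _ = 2 * π * (16 * k ^ 2 * (√(y / 2) * Fr a y)) := by ring
      _ ≤ Cq := by rw [hCq]; gcongr
  set T := (D + 8 * C1 + 1) / (π * δ) with hT
  have hT0 : 0 < T := by positivity
  by_contra hcon
  push Not at hcon
  have hcd := cont_defect hper
  have hpt : ∀ τ ∈ Icc u (u + T), π * δ ≤ lam ^ 2 * defect F F1 (exp (-τ)) +
      C1 * exp (-τ / 8) := by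
    intro τ hτ
    have h1 := key_tau ha hC (by linarith) (by linarith) hlam hpoly (hu.trans hτ.1)
    have h2 := hcon τ hτ
    have h3 : 2 * π * Bt a l K τ ≤ 2 * π * (δ / 2) := by gcongr
    linarith
  have hint : ∫ τ in u..u + T, (fun _ : ℝ => π * δ) τ ≤
      ∫ τ in u..u + T, (lam ^ 2 * defect F F1 (exp (-τ)) + C1 * exp (-τ / 8)) := by
    apply intervalIntegral.integral_mono_on (by linarith)
      (continuous_const.intervalIntegrable _ _) _ hpt
    apply Continuous.intervalIntegrable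
    fun_prop
  rw [intervalIntegral.integral_const, smul_eq_mul,
    intervalIntegral.integral_add (by apply Continuous.intervalIntegrable; fun_prop)
      (by apply Continuous.intervalIntegrable; fun_prop),
    intervalIntegral.integral_const_mul, intervalIntegral.integral_const_mul] at hint
  have h1 := integral_defect_le hper hv hq u (u + T) hu (by linarith)
  have h2 : ∫ τ in u..u + T, exp (-τ / 8) ≤ 8 := by
    rw [intervalIntegral.integral_eq_sub_of_hasDerivAt (f := fun τ => -8 * exp (-τ / 8))]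
    · have h3 : exp (-u / 8) ≤ 1 := by rw [Real.exp_le_one_iff]; linarith
      have h4 := exp_pos (-(u + T) / 8)
      linarith
    · intro x _
      have h5 : HasDerivAt (fun τ : ℝ => -τ / 8) (-1 / 8) x := (hasDerivAt_neg x).div_const 8
      have h6 := h5.exp.const_mul (-8)
      refine h6.congr_deriv ?_
      ring
    · apply Continuous.intervalIntegrable; fun_prop
  have h3 : lam ^ 2 * ∫ τ in u..u + T, defect F F1 (exp (-τ)) ≤ D := by
    rw [hD]; gcongr
  have h4 : C1 * ∫ τ in u..u + T, exp (-τ / 8) ≤ C1 * 8 := by gcongr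
  have h5 : (u + T - u) * (π * δ) = D + 8 * C1 + 1 := by
    rw [hT, add_sub_cancel_left]; field_simp
  linarith

end Pool.Agent.Helper65.ET
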